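import Pool.Agent.Lib.MP_3d51eb_gt.NK.Spec2

set_option autoImplicit false

/-!
# MP_3d51eb_gt, project NK: finite Boolean algebras of idempotents (module Bool, helper71)
-/

noncomputable section

namespace ToricPB

open Finset

namespace Bool_nk

/-- a frame with `r` elements -/
private def Fr {R : Type} [Ring R] (J : Set R) (r : ℕ) (e : Fin r → R) : Prop :=
  (∀ i, e i ∈ J) ∧ (∀ i, e i ≠ 0) ∧ (∀ i j, i ≠ j → e i * e j = 0) ∧ ∑ i, e i = 1

private lemma fr_lin {R : Type} [Ring R] {J : Set R}
    (tors : ∀ N : ℤ, ∀ x : R, N ≠ 0 → N • x = 0 → x = 0) (hid : ∀ e ∈ J, e * e = e)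
    {r : ℕ} {e : Fin r → R} (he : Fr J r e) : LinearIndependent ℤ e := by
  rw [Fintype.linearIndependent_iff]
  intro g hg j
  by_contra hj
  have h1 : (∑ i, g i • e i) * e j = g j • e j := by
    rw [Finset.sum_mul, Finset.sum_eq_single j]
    · rw [smul_mul_assoc, hid _ (he.1 j)]
    · intro i _ hij
      rw [smul_mul_assoc, he.2.2.1 i j hij, smul_zero]
    · intro h
      exact absurd (Finset.mem_univ j) h
  rw [hg, zero_mul] at h1
  exact he.2.1 j (tors _ _ hj h1.symm)

private lemma fr_split {R : Type} [Ring R] {J : Set R} (hid : ∀ e ∈ J, e * e = e)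
    (hcomp : ∀ e ∈ J, 1 - e ∈ J) (hmul : ∀ e ∈ J, ∀ f ∈ J, e * f ∈ J ∧ e * f = f * e)
    {r : ℕ} {e : Fin r → R} (he : Fr J r e) (hmax : ∀ e' : Fin (r + 1) → R, ¬ Fr J (r + 1) e')
    {f : R} (hf : f ∈ J) (i : Fin r) : f * e i = 0 ∨ f * e i = e i := by
  classical
  by_contra hcon
  push Not at hcon
  obtain ⟨hne0, hne1⟩ := hcon
  have hf1 := hcomp f hf
  have hA : f * e i ∈ J := (hmul f hf _ (he.1 i)).1
  have hB : (1 - f) * e i ∈ J := (hmul _ hf1 _ (he.1 i)).1
  have hB0 : (1 - f) * e i ≠ 0 := by
    intro h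
    rw [sub_mul, one_mul, sub_eq_zero] at h
    exact hne1 h.symm
  have hAB : f * e i * ((1 - f) * e i) = 0 := by
    rw [(hmul _ hf1 _ (he.1 i)).2, mul_assoc, ← mul_assoc (e i) (e i), hid _ (he.1 i),
      ← mul_assoc, (hmul f hf _ (he.1 i)).2, mul_assoc, mul_sub, mul_one, hid f hf, sub_self,
      mul_zero]
  have hAj : ∀ j, j ≠ i → f * e i * e j = 0 := by
    intro j hj
    rw [mul_assoc, he.2.2.1 i j hj.symm, mul_zero]
  have hBj : ∀ j, j ≠ i → (1 - f) * e i * e j = 0 := by
    intro j hj
    rw [mul_assoc, he.2.2.1 i j hj.symm, mul_zero]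
  have hJ : ∀ j, Function.update e i ((1 - f) * e i) j ∈ J := by
    intro j
    by_cases hj : j = i
    · subst hj
      rw [Function.update_self]
      exact hB
    · rw [Function.update_of_ne hj]
      exact he.1 j
  have h0j : ∀ j, f * e i * Function.update e i ((1 - f) * e i) j = 0 := by
    intro j
    by_cases hj : j = i
    · subst hj
      rw [Function.update_self]
      exact hAB
    · rw [Function.update_of_ne hj]
      exact hAj j hj
  refine hmax (Fin.cons (f * e i) (Function.update e i ((1 - f) * e i))) ⟨?_, ?_, ?_, ?_⟩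
  · intro j
    refine Fin.cases ?_ (fun j => ?_) j
    · rw [Fin.cons_zero]
      exact hA
    · rw [Fin.cons_succ]
      exact hJ j
  · intro j
    refine Fin.cases ?_ (fun j => ?_) j
    · rw [Fin.cons_zero]
      exact hne0
    · rw [Fin.cons_succ]
      by_cases hj : j = i
      · subst hj
        rw [Function.update_self]
        exact hB0
      · rw [Function.update_of_ne hj]
        exact he.2.1 j
  · intro j k
    refine Fin.cases ?_ (fun j => ?_) j
    · refine Fin.cases ?_ (fun k => ?_) k
      · intro h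
        exact absurd rfl h
      · intro _
        rw [Fin.cons_zero, Fin.cons_succ]
        exact h0j k
    · refine Fin.cases ?_ (fun k => ?_) k
      · intro _
        rw [Fin.cons_zero, Fin.cons_succ, (hmul _ (hJ j) _ hA).2]
        exact h0j j
      · intro h
        have hjk : j ≠ k := fun h' => h (by rw [h'])
        rw [Fin.cons_succ, Fin.cons_succ]
        by_cases hj : j = i
        · subst hj
          rw [Function.update_self, Function.update_of_ne hjk.symm]
          exact hBj k hjk.symm
        · rw [Function.update_of_ne hj]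
          by_cases hk : k = i
          · subst hk
            rw [Function.update_self, (hmul _ (he.1 j) _ hB).2]
            exact hBj j hj
          · rw [Function.update_of_ne hk]
            exact he.2.2.1 j k hjk
  · rw [Fin.sum_cons, Finset.sum_update_of_mem (Finset.mem_univ i), ← add_assoc, ← add_mul,
      add_sub_cancel, one_mul, Finset.sdiff_singleton_eq_erase,
      Finset.add_sum_erase _ _ (Finset.mem_univ i)]
    exact he.2.2.2

end Bool_nk

open Bool_nk in
/-- **StBool** -/
theorem tBool : StBool := by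
  classical
  intro R _ ι J 𝒩 P tors h1 hid hcomp hmul hspan hP hind
  -- the family `1, P B`
  let u : Option {B // B ∈ 𝒩} → R := fun o => Option.elim o 1 (fun B => P B.1)
  have hu : LinearIndependent ℤ u := by
    rw [Fintype.linearIndependent_iff]
    intro g hg
    rw [Fintype.sum_option] at hg
    have h2 := hind (g none) (fun B => if h : B ∈ 𝒩 then - g (some ⟨B, h⟩) else 0) (by
      rw [← hg, ← Finset.sum_coe_sort 𝒩 (fun B => (if h : B ∈ 𝒩 then - g (some ⟨B, h⟩) else 0) • P B),
        sub_eq_add_neg, ← Finset.sum_neg_distrib]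
      congr 1
      refine Finset.sum_congr rfl (fun B _ => ?_)
      rw [dif_pos B.2, neg_smul, neg_neg]
      rfl)
    intro o
    cases o with
    | none => exact h2.1
    | some B =>
      have h3 := h2.2 B.1 B.2
      rw [dif_pos B.2] at h3
      exact neg_eq_zero.1 h3
  have huspan : ∀ f ∈ J, f ∈ Submodule.span ℤ (Set.range u) := by
    intro f hf
    obtain ⟨F, g, rfl⟩ := hspan f hf
    refine Submodule.sub_mem _ (Submodule.smul_mem _ _ (Submodule.subset_span ⟨none, rfl⟩))
      (Submodule.sum_mem _ (fun B hB => Submodule.smul_mem _ _ (Submodule.subset_span ?_)))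
    exact ⟨some ⟨B, hB⟩, rfl⟩
  have huJ : ∀ o, u o ∈ J := by
    intro o
    cases o with
    | none => exact h1
    | some B => exact hP B.1 B.2
  have hcard : Fintype.card (Option {B // B ∈ 𝒩}) = 𝒩.card + 1 := by
    rw [Fintype.card_option, Fintype.card_coe]
  -- (b)
  have hb : ∀ (r : ℕ) (e : Fin r → R), Fr J r e → r ≤ 𝒩.card + 1 := by
    intro r e he
    have h2 := linearIndependent_le_span' e (fr_lin tors hid he) (Set.range u) (by
      rintro x ⟨i, rfl⟩
      exact huspan _ (he.1 i))
    have h3 : (r : Cardinal.{0}) ≤ (Fintype.card (Set.range u) : Cardinal.{0}) := by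
      simpa only [Cardinal.mk_fin] using h2
    have h4 : r ≤ Fintype.card (Set.range u) := by exact_mod_cast h3
    refine h4.trans ?_
    rw [← hcard]
    exact Fintype.card_range_le u
  -- (a)
  have ha : Fr J 1 (fun _ => (1 : R)) := by
    refine ⟨fun _ => h1, fun _ h => ?_, fun i j hij => absurd (Subsingleton.elim i j) hij, by simp⟩
    have h2 := hind 1 (fun _ => 0) (by simp [h])
    exact one_ne_zero h2.1
  -- (c)
  obtain ⟨r, e, he, hmax⟩ : ∃ (r : ℕ) (e : Fin r → R), Fr J r e ∧
      ∀ e' : Fin (r + 1) → R, ¬ Fr J (r + 1) e' := by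
    by_contra hcon
    push Not at hcon
    have h2 : ∀ r : ℕ, ∃ e : Fin (r + 1) → R, Fr J (r + 1) e := by
      intro r
      induction r with
      | zero => exact ⟨_, ha⟩
      | succ r ih =>
        obtain ⟨e, he⟩ := ih
        exact hcon _ e he
    obtain ⟨e, he⟩ := h2 (𝒩.card + 1)
    have := hb _ e he
    omega
  have hdec : ∀ f ∈ J, ∃ I : Finset (Fin r), f = ∑ i ∈ I, e i := by
    intro f hf
    refine ⟨Finset.univ.filter (fun i => f * e i = e i), ?_⟩
    have h2 : f = ∑ i, f * e i := by rw [← Finset.mul_sum, he.2.2.2, mul_one]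
    conv_lhs => rw [h2]
    rw [Finset.sum_filter]
    refine Finset.sum_congr rfl (fun i _ => ?_)
    split_ifs with h3
    · exact h3
    · exact (fr_split hid hcomp hmul he hmax hf i).resolve_right h3
  -- (d)
  have hd : 𝒩.card + 1 ≤ r := by
    have h2 := linearIndependent_le_span' u hu (Set.range e) (by
      rintro x ⟨o, rfl⟩
      obtain ⟨I, hI⟩ := hdec _ (huJ o)
      rw [hI]
      exact Submodule.sum_mem _ (fun i _ => Submodule.subset_span ⟨i, rfl⟩))
    have h3 : (Fintype.card (Option {B // B ∈ 𝒩}) : Cardinal.{0}) ≤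
        (Fintype.card (Set.range e) : Cardinal.{0}) := by
      rw [← Cardinal.mk_fintype]
      exact h2
    have h4 : Fintype.card (Option {B // B ∈ 𝒩}) ≤ Fintype.card (Set.range e) := by
      exact_mod_cast h3
    rw [hcard] at h4
    have h5 := Fintype.card_range_le e
    rw [Fintype.card_fin] at h5
    exact h4.trans h5
  have hr : r = 𝒩.card + 1 := le_antisymm (hb r e he) hd
  subst hr
  exact ⟨e, he.1, he.2.1, he.2.2.1, he.2.2.2, hdec⟩

end ToricPB
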