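import Pool.Agent.Lib.MP_3d51eb_gt.NK.Spec

set_option autoImplicit false

/-!
# MP_3d51eb_gt, project NK, module Cb (helper26): bends of the positive part of a linear form
-/

noncomputable section

namespace ToricPB

open Finset MvPolynomial

theorem tCb : StCb := by
  intro n K hK C h hC τ p q b hW
  obtain ⟨hτ, hcard, hp', hq', hpq, hpK, hqK, hu, hrel⟩ := id hW
  -- adjacency
  have hadj : ∀ w ∈ τ, ∀ v, (v ∈ τ ∨ v = p ∨ v = q) → {w, v} ∈ K := by
    intro w hw v hv
    rcases hv with hv | hv | hv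
    · refine hK.down τ hτ _ (fun x hx => ?_)
      rcases Finset.mem_insert.1 hx with hx | hx
      · rw [hx]; exact hw
      · rw [Finset.mem_singleton.1 hx]; exact hv
    · subst hv
      refine hK.down _ hpK _ (fun x hx => ?_)
      rcases Finset.mem_insert.1 hx with hx | hx
      · rw [hx]; exact Finset.mem_insert_of_mem hw
      · rw [Finset.mem_singleton.1 hx]; exact Finset.mem_insert_self _ _
    · subst hv
      refine hK.down _ hqK _ (fun x hx => ?_)
      rcases Finset.mem_insert.1 hx with hx | hx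
      · rw [hx]; exact Finset.mem_insert_of_mem hw
      · rw [Finset.mem_singleton.1 hx]; exact Finset.mem_insert_self _ _
  by_cases hA : ∃ w ∈ τ, 0 < pr h w
  · obtain ⟨w, hw, hw0⟩ := hA
    have hpos : ∀ v, (v ∈ τ ∨ v = p ∨ v = q) → hp h v = pr h v := by
      intro v hv
      exact max_eq_left (hC.adj w v (hadj w hw v hv) hw0)
    rw [bend_congr (hpos p (Or.inr (Or.inl rfl))) (hpos q (Or.inr (Or.inr rfl)))
      (fun v hv => hpos v (Or.inl hv)), bend_pr hW, if_neg]
    intro hs
    exact absurd (hC.van w (hs hw)) (ne_of_gt hw0)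
  by_cases hB : ∃ w ∈ τ, pr h w < 0
  · obtain ⟨w, hw, hw0⟩ := hB
    have hneg : ∀ v, (v ∈ τ ∨ v = p ∨ v = q) → hp h v = (fun _ => (0 : ℤ)) v := by
      intro v hv
      exact max_eq_right (hC.adj' w v (hadj w hw v hv) hw0)
    rw [bend_congr (hneg p (Or.inr (Or.inl rfl))) (hneg q (Or.inr (Or.inr rfl)))
      (fun v hv => hneg v (Or.inl hv)), if_neg]
    · simp [bend]
    intro hs
    exact absurd (hC.van w (hs hw)) (ne_of_lt hw0)
  have hz : ∀ w ∈ τ, pr h w = 0 := by
    intro w hw
    by_contra hne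
    rcases lt_or_gt_of_ne hne with hl | hl
    · exact hB ⟨w, hw, hl⟩
    · exact hA ⟨w, hw, hl⟩
  have hsub : τ ⊆ C := fun w hw => hC.ray w (mem_verts_of_mem hτ hw) (hz w hw)
  have hCc : C.card = n := hC.mis.1
  obtain ⟨c, hc, hcτ⟩ : ∃ c ∈ C, c ∉ τ :=
    Finset.exists_mem_notMem_of_card_lt_card (by omega)
  have heq : τ = C.erase c := by
    refine Finset.eq_of_subset_of_card_le (fun w hw => ?_) ?_
    · exact Finset.mem_erase.2 ⟨fun h => hcτ (h ▸ hw), hsub hw⟩
    · rw [Finset.card_erase_of_mem hc]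
      omega
  have hside := hC.side c hc p q b (heq ▸ hW)
  have hs0 : ∑ v ∈ τ, b v * hp h v = 0 := by
    refine Finset.sum_eq_zero (fun v hv => ?_)
    rw [hp, hz v hv, max_self, mul_zero]
  rw [if_pos hsub, bend, hs0, add_zero]
  rcases hside with ⟨h1, h2⟩ | ⟨h1, h2⟩
  · rw [hp, hp, h1, h2]; norm_num
  · rw [hp, hp, h1, h2]; norm_num

end ToricPB
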