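import Pool.Agent.Lib.MP_3d51eb_gt.NK.Spec

set_option autoImplicit false

/-!
# MP_3d51eb_gt, project NK: dependent missing facets (helper2)
-/

noncomputable section

namespace ToricPB.Cd_nk

open Finset ToricPB

variable {n : ℕ} {K : Finset (Finset (Vec n))} {C : Finset (Vec n)}

private lemma ind_face (hD : StDual) (hK : IsFan K) {s : Finset (Vec n)} (hs : s ∈ K)
    {c : Vec n → ℝ} (h : lin s c = 0) : ∀ v ∈ s, c v = 0 :=
  (hD n s (hK.smooth s hs)).2.2.1 c h

/-- the positive relation of a dependent missing facet -/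
private lemma exists_pos (hD : StDual) (hK : IsFan K) (hC : Mis K C) (hd : ¬ Ind C) :
    ∃ r : Vec n → ℝ, lin C r = 0 ∧ ∀ v ∈ C, 0 < r v := by
  classical
  unfold Ind at hd
  push Not at hd
  obtain ⟨r, hr, v0, hv0, hne⟩ := hd
  have h1 : ∀ c ∈ C, r c ≠ 0 := by
    intro c0 hc0 h0
    have h2 : lin (C.erase c0) r = 0 := by
      rw [← lin_subset (Finset.erase_subset c0 C) r, hr]
      intro v hv hvn
      have : v = c0 := by
        by_contra h3
        exact hvn (Finset.mem_erase.2 ⟨h3, hv⟩)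
      rw [this, h0]
    have h3 := ind_face hD hK (hC.erase hc0) h2
    by_cases h4 : v0 = c0
    · exact hne (h4 ▸ h0)
    · exact hne (h3 v0 (Finset.mem_erase.2 ⟨h4, hv0⟩))
  by_cases hP : ∀ v ∈ C, 0 < r v
  · exact ⟨r, hr, hP⟩
  by_cases hN : ∀ v ∈ C, r v < 0
  · refine ⟨fun v => (-1) * r v, ?_, fun v hv => ?_⟩
    · rw [lin_smul, hr, smul_zero]
    · have := hN v hv
      show 0 < (-1) * r v
      linarith
  exfalso
  push Not at hP hN
  obtain ⟨b, hb, hb'⟩ := hP
  obtain ⟨a, ha, ha'⟩ := hN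
  have hb2 : r b < 0 := lt_of_le_of_ne hb' (h1 b hb)
  have ha2 : 0 < r a := lt_of_le_of_ne ha' (Ne.symm (h1 a ha))
  set P := C.filter (fun v => 0 < r v) with hPdef
  set N := C.filter (fun v => r v < 0) with hNdef
  have hPC : P ⊂ C := by
    refine (Finset.ssubset_iff_of_subset (Finset.filter_subset _ _)).2 ⟨b, hb, fun h => ?_⟩
    have := (Finset.mem_filter.1 h).2
    linarith
  have hNC : N ⊂ C := by
    refine (Finset.ssubset_iff_of_subset (Finset.filter_subset _ _)).2 ⟨a, ha, fun h => ?_⟩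
    have := (Finset.mem_filter.1 h).2
    linarith
  have hsum : lin C r = lin P r + lin N r := by
    have hCe : C = P ∪ N := by
      ext v
      rw [Finset.mem_union, Finset.mem_filter, Finset.mem_filter]
      constructor
      · intro hv
        rcases lt_or_gt_of_ne (h1 v hv) with h | h
        · exact Or.inr ⟨hv, h⟩
        · exact Or.inl ⟨hv, h⟩
      · rintro (h | h)
        · exact h.1
        · exact h.1
    have hdis : Disjoint P N := by
      rw [Finset.disjoint_left]
      intro v hv hv'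
      have h2 := (Finset.mem_filter.1 hv).2
      have h3 := (Finset.mem_filter.1 hv').2
      linarith
    conv_lhs => rw [lin, hCe, Finset.sum_union hdis]
    rfl
  have hx1 : InRel P (lin P r) := ⟨r, fun v hv => (Finset.mem_filter.1 hv).2, rfl⟩
  have hx2 : InRel N (lin P r) := by
    refine ⟨fun v => (-1) * r v, fun v hv => ?_, ?_⟩
    · have := (Finset.mem_filter.1 hv).2
      show 0 < (-1) * r v
      linarith
    · rw [lin_smul]
      rw [hr] at hsum
      have h4 : lin P r = - lin N r := eq_neg_of_add_eq_zero_left hsum.symm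
      rw [h4, neg_one_smul]
  have h5 := hK.uniq (hC.2.2 P hPC) (hC.2.2 N hNC) hx1 hx2
  have h6 : a ∈ N := h5 ▸ Finset.mem_filter.2 ⟨ha, ha2⟩
  have := (Finset.mem_filter.1 h6).2
  linarith

/-- the form which vanishes on `C` -/
private lemma form_wall (hD : StDual) (hK : IsFan K) {r : Vec n → ℝ} (hr : lin C r = 0)
    (hpos : ∀ v ∈ C, 0 < r v) {c : Vec n} (hc : c ∈ C) {p q : Vec n} {b : Vec n → ℤ}
    (hW : Wall K (C.erase c) p q b) :
    ∃ h : Vec n, pr h p = 1 ∧ pr h q = -1 ∧ ∀ v ∈ C, pr h v = 0 := by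
  classical
  have hW' := hW
  obtain ⟨-, hcard, hp, hq, hpq, hpK, hqK, -, hrel⟩ := hW'
  obtain ⟨u, hu1, hu0⟩ := (hD n _ (hK.smooth _ hpK)).2.1 p (Finset.mem_insert_self _ _)
  have hu : ∀ v ∈ C.erase c, pr u v = 0 := by
    intro v hv
    refine hu0 v (Finset.mem_insert_of_mem hv) (fun h => hp (h ▸ hv))
  refine ⟨u, hu1, ?_, ?_⟩
  · have h1 : pr u (p + q + ∑ v ∈ C.erase c, b v • v) = 0 := by rw [hrel, pr_zero]
    rw [pr_add, pr_add, pr_sum] at h1
    have h2 : ∑ v ∈ C.erase c, pr u (b v • v) = 0 :=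
      Finset.sum_eq_zero (fun v hv => by rw [pr_smul, hu v hv, mul_zero])
    rw [h2, hu1] at h1
    linarith
  · intro v hv
    by_cases hvc : v = c
    · subst hvc
      have h1 : dot (toR u) (lin C r) = 0 := by rw [hr, dot_zero]
      rw [dot_lin, ← Finset.add_sum_erase C _ hv] at h1
      have h2 : ∑ w ∈ C.erase v, r w * dot (toR u) (toR w) = 0 :=
        Finset.sum_eq_zero (fun w hw => by rw [dot_toR, hu w hw, Int.cast_zero, mul_zero])
      rw [h2, add_zero, dot_toR] at h1
      rcases mul_eq_zero.1 h1 with h3 | h3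
      · exact absurd h3 (hpos v hv).ne'
      · exact_mod_cast h3
    · exact hu v (Finset.mem_erase.2 ⟨hvc, hv⟩)

private lemma wall_erase (hW : StWall) (hK : IsFan K) (hC : Mis K C) {c : Vec n} (hc : c ∈ C) :
    ∃ p q b, Wall K (C.erase c) p q b := by
  refine hW n K hK _ (hC.erase hc) ?_
  rw [Finset.card_erase_of_mem hc, hC.1]
  have : 0 < C.card := Finset.card_pos.2 ⟨c, hc⟩
  have := hC.1
  omega

private lemma wall_card {τ : Finset (Vec n)} {p q : Vec n} {b : Vec n → ℤ} (hW : Wall K τ p q b) :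
    (insert p τ).card = n := by
  rw [Finset.card_insert_of_notMem hW.2.2.1]
  exact hW.2.1

/-- the ratios are integers -/
private lemma ratio (hD : StDual) (hWa : StWall) (hK : IsFan K) (hC : Mis K C) {r : Vec n → ℝ}
    (hr : lin C r = 0) (hpos : ∀ v ∈ C, 0 < r v) {c : Vec n} (hc : c ∈ C) :
    ∀ v ∈ C, r c ≤ r v := by
  classical
  obtain ⟨p, q, b, hW⟩ := wall_erase hWa hK hC hc
  obtain ⟨h, h1, h2, h3⟩ := form_wall hD hK hr hpos hc hW
  obtain ⟨e, he⟩ := ((hD n _ (hK.smooth _ hW.2.2.2.2.2.1)).2.2.2 (wall_card hW)).1 c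
  rw [Finset.sum_insert hW.2.2.1] at he
  have h4 : e p = 0 := by
    have h5 := congrArg (pr h) he
    rw [h3 c hc, pr_add, pr_smul, h1, pr_sum] at h5
    have h6 : ∑ v ∈ C.erase c, pr h (e v • v) = 0 :=
      Finset.sum_eq_zero (fun v hv => by rw [pr_smul, h3 v (Finset.mem_of_mem_erase hv), mul_zero])
    rw [h6] at h5
    linarith
  rw [h4, zero_smul, zero_add] at he
  have h5 : toR c = lin (C.erase c) (fun v => (e v : ℝ)) := by
    rw [lin_int, ← he]
  have h6 : lin (C.erase c) (fun v => r c * (e v : ℝ) + r v) = 0 := by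
    rw [lin_add, lin_smul, ← h5, ← hr]
    unfold lin
    rw [← Finset.add_sum_erase C _ hc]
  have h7 := ind_face hD hK (hC.erase hc) h6
  intro v hv
  by_cases hvc : v = c
  · rw [hvc]
  have h8 : r c * (e v : ℝ) + r v = 0 := h7 v (Finset.mem_erase.2 ⟨hvc, hv⟩)
  have hc0 := hpos c hc
  have hv0 := hpos v hv
  have h9 : (e v : ℝ) < 0 := by
    by_contra hcon
    have := mul_nonneg hc0.le (not_lt.1 hcon)
    linarith
  have h10 : e v ≤ -1 := by
    have : e v < 0 := by exact_mod_cast h9
    omega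
  have h11 : (e v : ℝ) ≤ -1 := by exact_mod_cast h10
  nlinarith

end ToricPB.Cd_nk

namespace ToricPB

open Finset Cd_nk

/-- Dependent missing facets. -/
theorem tCd : StDual → StWall → StCd := by
  classical
  intro hD hWa n K hK hn C hC hd
  obtain ⟨r, hr, hpos⟩ := exists_pos hD hK hC hd
  have hne : C.Nonempty := by
    rw [← Finset.card_pos, hC.1]
    omega
  obtain ⟨c0, hc0⟩ := hne
  obtain ⟨p0, q0, b0, hW0⟩ := wall_erase hWa hK hC hc0
  obtain ⟨h, hp0, hq0, hvan⟩ := form_wall hD hK hr hpos hc0 hW0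
  have hcon : ∀ v ∈ C, r v = r c0 := fun v hv =>
    le_antisymm (ratio hD hWa hK hC hr hpos hv c0 hc0) (ratio hD hWa hK hC hr hpos hc0 v hv)
  have hone : lin C (fun _ => (1 : ℝ)) = 0 := by
    have h1 : lin C r = r c0 • lin C (fun _ => (1 : ℝ)) := by
      rw [← lin_smul]
      exact lin_congr (fun v hv => by rw [hcon v hv, mul_one])
    rw [hr] at h1
    rcases smul_eq_zero.1 h1.symm with h2 | h2
    · exact absurd h2 (hpos c0 hc0).ne'
    · exact h2
  have hsum : ∑ c ∈ C, c = 0 := by
    refine toR_inj ?_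
    rw [toR_zero, toR_sum, ← hone]
    unfold lin
    exact Finset.sum_congr rfl (fun v _ => (one_smul ℝ _).symm)
  -- CLAIM A
  have hA : ∀ x : Fin n → ℝ, dot (toR h) x = 0 → ∃ t ∈ K, t ⊂ C ∧ InRel t x := by
    intro x hx
    obtain ⟨e, he⟩ := ((hD n _ (hK.smooth _ hW0.2.2.2.2.2.1)).2.2.2 (wall_card hW0)).2 x
    rw [lin_insert hW0.2.2.1] at he
    have h4 : e p0 = 0 := by
      have h5 := hx
      rw [he, dot_add, dot_smul, dot_lin, dot_toR, hp0] at h5
      have h6 : ∑ v ∈ C.erase c0, e v * dot (toR h) (toR v) = 0 :=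
        Finset.sum_eq_zero (fun v hv => by
          rw [dot_toR, hvan v (Finset.mem_of_mem_erase hv), Int.cast_zero, mul_zero])
      rw [h6] at h5
      push_cast at h5
      linarith
    rw [h4, zero_smul, zero_add] at he
    set e1 : Vec n → ℝ := fun v => if v = c0 then 0 else e v with he1
    have hx1 : x = lin C e1 := by
      rw [lin_subset (Finset.erase_subset c0 C) e1, he]
      · refine lin_congr (fun v hv => ?_)
        rw [he1]
        show e v = if v = c0 then 0 else e v
        rw [if_neg (Finset.ne_of_mem_erase hv)]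
      · intro v hv hvn
        have : v = c0 := by
          by_contra h3
          exact hvn (Finset.mem_erase.2 ⟨h3, hv⟩)
        rw [he1]
        show (if v = c0 then 0 else e v) = 0
        rw [if_pos this]
    obtain ⟨m, hm, hmin⟩ := Finset.exists_min_image C e1 ⟨c0, hc0⟩
    have hx2 : x = lin C (fun v => e1 v - e1 m * 1) := by
      rw [lin_sub, lin_smul, hone, smul_zero, sub_zero]
      exact hx1
    set t := C.filter (fun v => 0 < e1 v - e1 m * 1) with ht
    have htC : t ⊂ C := by
      refine (Finset.ssubset_iff_of_subset (Finset.filter_subset _ _)).2 ⟨m, hm, fun h' => ?_⟩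
      have := (Finset.mem_filter.1 h').2
      linarith
    refine ⟨t, hC.2.2 t htC, htC, fun v => e1 v - e1 m * 1,
      fun v hv => (Finset.mem_filter.1 hv).2, ?_⟩
    rw [hx2]
    refine lin_subset (Finset.filter_subset _ _) _ (fun v hv hvn => ?_)
    have h7 : ¬ 0 < e1 v - e1 m * 1 := fun h8 => hvn (Finset.mem_filter.2 ⟨hv, h8⟩)
    have h8 := hmin v hv
    show e1 v - e1 m * 1 = 0
    linarith
  have hadj : ∀ v w, {v, w} ∈ K → 0 < pr h v → 0 ≤ pr h w := by
    intro v w hvw hv
    by_contra hw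
    push Not at hw
    have hne : w ≠ v := by
      intro h1
      rw [h1] at hw
      omega
    have hv' : (0 : ℝ) < (pr h v : ℝ) := by exact_mod_cast hv
    have hw' : (pr h w : ℝ) < 0 := by exact_mod_cast hw
    obtain ⟨t, htK, htC, htx⟩ := hA ((-(pr h w : ℝ)) • toR v + (pr h v : ℝ) • toR w) (by
      rw [dot_add, dot_smul, dot_smul, dot_toR, dot_toR]
      ring)
    have hx : InRel {v, w} ((-(pr h w : ℝ)) • toR v + (pr h v : ℝ) • toR w) := by
      refine ⟨fun u => if u = v then -(pr h w : ℝ) else (pr h v : ℝ), fun u _ => ?_, ?_⟩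
      · show 0 < (if u = v then -(pr h w : ℝ) else (pr h v : ℝ))
        split_ifs
        · linarith
        · exact hv'
      · unfold lin
        rw [Finset.sum_pair hne.symm]
        show -(pr h w : ℝ) • toR v + (pr h v : ℝ) • toR w =
          (if v = v then -(pr h w : ℝ) else (pr h v : ℝ)) • toR v +
            (if w = v then -(pr h w : ℝ) else (pr h v : ℝ)) • toR w
        rw [if_pos rfl, if_neg hne]
    have h3 := hK.uniq htK hvw htx hx
    have h4 : v ∈ C := htC.1 (by rw [h3]; exact Finset.mem_insert_self _ _)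
    rw [hvan v h4] at hv
    omega
  refine ⟨h, hC, hsum, hvan, ?_, hadj, ?_, ?_⟩
  · -- ray
    intro v hv h0
    obtain ⟨t, htK, htC, htx⟩ := hA (toR v) (by rw [dot_toR, h0, Int.cast_zero])
    have h3 := hK.uniq htK (hK.single hv) htx (InRel.singleton v)
    exact htC.1 (by rw [h3]; exact Finset.mem_singleton_self _)
  · -- adj'
    intro v w hvw hv
    by_contra hw
    push Not at hw
    rw [Finset.pair_comm] at hvw
    have := hadj w v hvw hw
    omega
  · -- side
    intro c hc p q b hW
    obtain ⟨h', hp', hq', hvan'⟩ := form_wall hD hK hr hpos hc hW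
    have hall : ∀ y : Vec n, pr h y = pr h p * pr h' y := by
      intro y
      obtain ⟨e, he⟩ := ((hD n _ (hK.smooth _ hW.2.2.2.2.2.1)).2.2.2 (wall_card hW)).1 y
      rw [Finset.sum_insert hW.2.2.1] at he
      have h1 : ∑ v ∈ C.erase c, pr h (e v • v) = 0 :=
        Finset.sum_eq_zero (fun v hv => by
          rw [pr_smul, hvan v (Finset.mem_of_mem_erase hv), mul_zero])
      have h2 : ∑ v ∈ C.erase c, pr h' (e v • v) = 0 :=
        Finset.sum_eq_zero (fun v hv => by
          rw [pr_smul, hvan' v (Finset.mem_of_mem_erase hv), mul_zero])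
      rw [he, pr_add, pr_add, pr_smul, pr_smul, pr_sum, pr_sum, h1, h2, hp']
      ring
    have h1 := hall p0
    rw [hp0] at h1
    have h2 := hall q
    rw [hq'] at h2
    rcases Int.eq_one_or_neg_one_of_mul_eq_one h1.symm with h3 | h3
    · left
      rw [h3] at h2
      exact ⟨h3, by linarith⟩
    · right
      rw [h3] at h2
      exact ⟨h3, by linarith⟩

end ToricPB
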