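import Pool.Agent.Lib.MP_3d51eb_gt.NK.Spec

set_option autoImplicit false

/-!
# MP_3d51eb_gt, project NK, module Clz: vanishing classes are linear functions
-/

noncomputable section

namespace ToricPB

open Finset MvPolynomial

theorem tClz : StNear → StLin → StMul → StDeg → StClz := by
  classical
  intro hNear hLin hMul hDeg n K hK hn χ hχ
  have hb : ∀ τ p q b, Wall K τ p q b → bend χ τ p q b = 0 := by
    intro τ p q b hW
    have h1 := (hMul n K hK τ p q b hW).1 χ
    rw [hχ, zero_mul] at h1
    obtain ⟨-, hcard, hp, -, -, hpτ, -, -, -⟩ := hW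
    exact hDeg n K hK (insert p τ) hpτ
      (by rw [Finset.card_insert_of_notMem hp, hcard]) _ h1.symm
  obtain ⟨m, hm⟩ := hLin n K hK (by omega) Set.univ convex_univ isOpen_univ χ
    (fun τ p q b hW hb' => absurd (hb τ p q b hW) hb')
  refine ⟨m, ?_⟩
  intro v hv
  obtain ⟨σ, hσ, hvσ, hcard, x', hx', hin⟩ := hNear n K hK Set.univ isOpen_univ {v}
    (hK.single hv) (toR v) (Set.mem_univ _) (InRel.singleton v)
  exact hm σ hσ hcard ⟨x', hx', hin⟩ v (hvσ (Finset.mem_singleton_self v))

end ToricPB
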