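import Pool.Agent.Lib.MP_3d51eb_gt.NK.Spec2

set_option autoImplicit false

/-!
# MP_3d51eb_gt, project NK, module Cor2: the image of the second cohomology from the inside
-/

noncomputable section

namespace ToricPB

open Finset MvPolynomial

variable {n : ℕ}

/-- the function `rop B 1 D (del v)` for an interior ray `v` -/
private lemma Cor2_rop {K : Finset (Finset (Vec n))} {B : Finset (Vec n)} {D : Vec n → Vec n}
    (hB : MI K B 1 D) {v : Vec n} (hv : InRel B (toR v)) : rop B 1 D (del v) = del v := by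
  classical
  have hvB : v ∉ B := fun h => hB.noB v h hv
  funext w
  simp only [rop]
  split_ifs with hw
  · have h0 : ∑ b ∈ B, pr (D b) w * del v b = 0 := by
      refine Finset.sum_eq_zero (fun b hb => ?_)
      rw [del, if_neg (ne_of_mem_of_not_mem hb hvB), mul_zero]
    rw [h0, sub_zero, one_mul]
  · have hne : w ≠ v := fun h => hw (by rw [h]; exact hv)
    rw [del, if_neg hne]

private lemma Cor2_mem {K : Finset (Finset (Vec n))} {B : Finset (Vec n)} (hsub : B ⊆ verts K)
    {v : Vec n} (hv : v ∈ verts (core K B)) : v ∈ verts K ∧ (v ∈ B ∨ InRel B (toR v)) := by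
  obtain ⟨s, hs, hvs⟩ := mem_verts.1 hv
  rcases mem_core.1 hs with h | ⟨h1, h2⟩
  · rw [h] at hvs
    exact ⟨hsub hvs, Or.inl hvs⟩
  · exact ⟨mem_verts_of_mem h1 hvs, h2 v hvs⟩

theorem tCor2 : StNd → StCor2 := by
  intro hNd n K hK B D hB ι hι y
  constructor
  · intro hy
    refine Submodule.span_induction (p := fun y _ => ∃ z ∈ H2 (core K B), ι z = y) ?_ ?_ ?_ ?_ hy
    · rintro y ⟨v, hv, hv2, rfl⟩
      refine ⟨cls (core K B) v, cls_mem v, ?_⟩
      rw [hι v hv (Or.inr hv2), Cor2_rop hB hv2, cl_del hv]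
    · exact ⟨0, Submodule.zero_mem _, map_zero ι⟩
    · rintro y y' - - ⟨z, hz, rfl⟩ ⟨z', hz', rfl⟩
      exact ⟨z + z', Submodule.add_mem _ hz hz', map_add ι z z'⟩
    · rintro c y - ⟨z, hz, rfl⟩
      exact ⟨c • z, Submodule.smul_mem _ c hz, map_zsmul ι c z⟩
  · rintro ⟨z, hz, rfl⟩
    refine Submodule.span_induction (p := fun z _ => ι z ∈ inner K B) ?_ ?_ ?_ ?_ hz
    · rintro z ⟨v, rfl⟩
      by_cases hv : v ∈ verts (core K B)
      · obtain ⟨h1, h2⟩ := Cor2_mem hB.sub hv
        rw [hι v h1 h2]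
        exact (hNd n K hK B D hB).1 _
      · rw [cls_eq_zero hv, map_zero]
        exact Submodule.zero_mem _
    · rw [map_zero]
      exact Submodule.zero_mem _
    · intro z z' _ _ h h'
      rw [map_add]
      exact Submodule.add_mem _ h h'
    · intro c z _ h
      rw [map_zsmul]
      exact Submodule.smul_mem _ c h

end ToricPB
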