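import Pool.Agent.Lib.MP_3d51eb_gt.NK.Spec2

set_option autoImplicit false

/-!
# MP_3d51eb_gt, project NK, module CorH: pull-back from the inside (helper41)
-/

noncomputable section

namespace ToricPB

open Finset MvPolynomial

namespace CorH_nk

variable {n : ℕ} {K : Finset (Finset (Vec n))} {B : Finset (Vec n)} {D : Vec n → Vec n}

lemma mem_verts_core (hK : IsFan K) (hB : MI K B 1 D) {v : Vec n} :
    v ∈ verts (core K B) ↔ v ∈ verts K ∧ (v ∈ B ∨ InRel B (toR v)) := by
  constructor
  · intro h
    obtain ⟨s, hs, hv⟩ := mem_verts.1 h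
    rcases mem_core.1 hs with rfl | ⟨hs, h2⟩
    · exact ⟨hB.sub hv, Or.inl hv⟩
    · exact ⟨mem_verts_of_mem hs hv, h2 v hv⟩
  · rintro ⟨h1, h2 | h2⟩
    · exact mem_verts.2 ⟨B, mem_core.2 (Or.inl rfl), h2⟩
    · refine mem_verts.2 ⟨{v}, mem_core.2 (Or.inr ⟨hK.single h1, fun w hw => ?_⟩), by simp⟩
      rw [Finset.mem_singleton.1 hw]
      exact Or.inr h2

lemma sum_del {v : Vec n} (hv : v ∉ B) (x : Vec n) : ∑ b ∈ B, pr (D b) x * del v b = 0 := by
  refine Finset.sum_eq_zero fun b hb => ?_
  rw [del, if_neg (ne_of_mem_of_not_mem hb hv), mul_zero]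

lemma rop_del_inner {v : Vec n} (hv : v ∉ B) (h : InRel B (toR v)) :
    rop B 1 D (del v) = del v := by
  classical
  funext x
  rw [rop, sum_del hv, one_mul, sub_zero]
  split_ifs with h1
  · rfl
  · rw [del, if_neg]
    rintro rfl
    exact h1 h

lemma rop_del_outer {v : Vec n} (hv : v ∉ B) (h : ¬ InRel B (toR v)) :
    rop B 1 D (del v) = fun _ => 0 := by
  classical
  funext x
  rw [rop, sum_del hv, one_mul, sub_zero]
  split_ifs with h1
  · rw [del, if_neg]
    rintro rfl
    exact h h1
  · rfl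

lemma cl_zero : cl K (fun _ => (0 : ℤ)) = 0 := by
  simp [cl]

end CorH_nk

open CorH_nk in
theorem tCorH : StNd → StCorH := by
  classical
  intro hNd n K hK B D hB
  obtain ⟨-, nd2, nd3, -⟩ := hNd n K hK B D hB
  let φ : Vec n → Coh K := fun v =>
    if v ∈ verts K ∧ (v ∈ B ∨ InRel B (toR v)) then cl K (rop B 1 D (del v)) else 0
  have hφ : ∀ v, v ∈ verts K → (v ∈ B ∨ InRel B (toR v)) → φ v = cl K (rop B 1 D (del v)) :=
    fun v h1 h2 => if_pos ⟨h1, h2⟩
  obtain ⟨ι, hι⟩ := coh_lift (K := core K B) (R := Coh K) φ (by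
    intro s hs
    by_cases hall : ∀ v ∈ s, v ∈ verts K ∧ (v ∈ B ∨ InRel B (toR v))
    · have h1 : s ∉ K := fun h => hs (mem_core.2 (Or.inr ⟨h, fun v hv => (hall v hv).2⟩))
      have h2 : s ≠ B := fun h => hs (mem_core.2 (Or.inl h))
      have h3 : ¬ s ⊆ B := fun h => h1 (hB.mis.2.2 s (Finset.ssubset_iff_subset_ne.2 ⟨h, h2⟩))
      obtain ⟨w, hw, hwB⟩ := Finset.not_subset.1 h3
      have hwV := (hall w hw).1
      have hwI : InRel B (toR w) := (hall w hw).2.resolve_left hwB
      have h4 : φ w = cls K w := by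
        rw [hφ w hwV (Or.inr hwI), rop_del_inner hwB hwI, cl_del hwV]
      have hwin : cls K w ∈ inner K B := Submodule.subset_span ⟨w, hwV, hwI, rfl⟩
      have h5 : ∀ v ∈ s, cls K w * φ v = cls K w * cls K v := by
        intro v hv
        have h6 : cls K v - φ v ∈ outer K B := by
          have h7 := nd2 (del v)
          rw [cl_sub, cl_del (hall v hv).1] at h7
          rw [hφ v (hall v hv).1 (hall v hv).2]
          exact h7
        have h8 := nd3 _ hwin _ h6
        rw [mul_sub, sub_eq_zero] at h8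
        exact h8.symm
      have h9 : ∀ t : Finset (Vec n), t ⊆ s →
          cls K w * ∏ v ∈ t, φ v = cls K w * ∏ v ∈ t, cls K v := by
        intro t
        induction t using Finset.induction_on with
        | empty => intro _; rfl
        | insert a t ha ih =>
          intro ht
          have h10 := ih (fun x hx => ht (Finset.mem_insert_of_mem hx))
          have h11 := h5 a (ht (Finset.mem_insert_self a t))
          rw [Finset.prod_insert ha, Finset.prod_insert ha, ← mul_assoc, h11, mul_assoc,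
            mul_left_comm, h10, mul_left_comm]
      have h12 : ∏ v ∈ s, cls K v = 0 := mon_eq_zero h1
      rw [← Finset.mul_prod_erase s φ hw, h4, h9 _ (Finset.erase_subset w s),
        Finset.mul_prod_erase s (fun v => cls K v) hw, h12]
    · push Not at hall
      obtain ⟨v, hv, hv2⟩ := hall
      refine Finset.prod_eq_zero hv (if_neg ?_)
      rintro ⟨h1, h2⟩
      obtain ⟨h3, h4⟩ := hv2 h1
      rcases h2 with h2 | h2
      · exact h3 h2
      · exact h4 h2) (by
    intro u
    have e1 : ∑ v ∈ verts (core K B), pr u v • φ v =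
        ∑ v ∈ verts K, pr u v • cl K (rop B 1 D (del v)) := by
      have hsub : verts (core K B) ⊆ verts K := fun v hv => ((mem_verts_core hK hB).1 hv).1
      rw [← Finset.sum_subset hsub (f := fun v => pr u v • cl K (rop B 1 D (del v))) (by
        intro v hv hv2
        have h1 : ¬ (v ∈ B ∨ InRel B (toR v)) := fun h => hv2 ((mem_verts_core hK hB).2 ⟨hv, h⟩)
        rw [rop_del_outer (fun h => h1 (Or.inl h)) (fun h => h1 (Or.inr h)), cl_zero, smul_zero])]
      refine Finset.sum_congr rfl fun v hv => ?_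
      obtain ⟨h1, h2⟩ := (mem_verts_core hK hB).1 hv
      rw [hφ v h1 h2]
    have e2 : ∑ v ∈ verts K, pr u v • cl K (rop B 1 D (del v)) =
        cl K (rop B 1 D (fun x => ∑ v ∈ verts K, pr u v * del v x)) := by
      rw [rop_sum (verts K) B 1 D (fun v x => pr u v * del v x), cl_sum]
      refine Finset.sum_congr rfl fun v _ => ?_
      rw [rop_smul, cl_smul]
    have e3 : ∀ x ∈ verts K, (∑ v ∈ verts K, pr u v * del v x) = pr u x := by
      intro x hx
      rw [Finset.sum_eq_single x]
      · rw [del, if_pos rfl, mul_one]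
      · intro b _ hb
        rw [del, if_neg (Ne.symm hb), mul_zero]
      · intro h
        exact absurd hx h
    rw [e1, e2, cl_congr (rop_congr hB.sub 1 D e3), rop_pr hB.toMA u, cl_zero])
  refine ⟨ι, fun v hv h => ?_⟩
  rw [hι v, hφ v hv h]

end ToricPB
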