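import Pool.Agent.Lib.MP_3d51eb_gt.NK.Spec2

set_option autoImplicit false

/-!
# project NK: injectivity from the inside (`StCorI`)
-/

noncomputable section

namespace ToricPB

open Finset MvPolynomial

namespace CorI_nk

variable {n : ℕ}

private lemma mem_verts_core {K : Finset (Finset (Vec n))} (hK : IsFan K) {B : Finset (Vec n)}
    (hsub : B ⊆ verts K) {v : Vec n} :
    v ∈ verts (core K B) ↔ v ∈ verts K ∧ (v ∈ B ∨ InRel B (toR v)) := by
  constructor
  · intro h
    obtain ⟨s, hs, hvs⟩ := mem_verts.1 h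
    rcases mem_core.1 hs with h1 | ⟨h1, h2⟩
    · rw [h1] at hvs
      exact ⟨hsub hvs, Or.inl hvs⟩
    · exact ⟨mem_verts_of_mem h1 hvs, h2 v hvs⟩
  · rintro ⟨h1, h2⟩
    refine mem_verts.2 ⟨{v}, mem_core.2 (Or.inr ⟨hK.single h1, fun w hw => ?_⟩), by simp⟩
    rw [Finset.mem_singleton.1 hw]
    exact h2

private lemma cl_rop_del {K : Finset (Finset (Vec n))} (hK : IsFan K) {B : Finset (Vec n)}
    {D : Vec n → Vec n} (hB : MI K B 1 D) {v : Vec n} (hv : v ∈ verts (core K B)) :
    cl (core K B) (rop B 1 D (del v)) = cls (core K B) v := by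
  classical
  have hv' := (mem_verts_core hK hB.sub).1 hv
  rcases hv'.2 with hvB | hvI
  · -- `v ∈ B`
    rw [← cl_del hv, ← cl_sub_pr (del v) (D v)]
    refine cl_congr (fun w hw => ?_)
    have hw' := (mem_verts_core hK hB.sub).1 hw
    have hs : ∑ b ∈ B, pr (D b) w * del v b = pr (D v) w := by
      rw [Finset.sum_eq_single v]
      · rw [del, if_pos rfl, mul_one]
      · intro b _ hbv
        rw [del, if_neg hbv, mul_zero]
      · intro h
        exact absurd hvB h
    by_cases hI : InRel B (toR w)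
    · simp only [rop]
      rw [if_pos hI, hs, one_mul]
    · have hwB : w ∈ B := hw'.2.resolve_right hI
      simp only [rop]
      rw [if_neg hI]
      by_cases hwv : w = v
      · rw [hwv, hB.diag v hvB, del, if_pos rfl, sub_self]
      · rw [hB.off v hvB w hwB hwv, del, if_neg hwv, sub_zero]
  · rw [← cl_del hv]
    refine cl_congr (fun w _ => ?_)
    have hvB : v ∉ B := fun h => hB.noB v h hvI
    have hs : ∑ b ∈ B, pr (D b) w * del v b = 0 := by
      refine Finset.sum_eq_zero (fun b hb => ?_)
      rw [del, if_neg (ne_of_mem_of_not_mem hb hvB), mul_zero]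
    simp only [rop]
    by_cases hI : InRel B (toR w)
    · rw [if_pos hI, hs, one_mul, sub_zero]
    · have hwv : w ≠ v := fun h => hI (h ▸ hvI)
      rw [if_neg hI, del, if_neg hwv]

end CorI_nk

open CorI_nk

theorem tCorI : StDeg → StCorP → StInj → StCorI := by
  intro hDeg hCorP hInj n K hK hn B D hB hU ι hι
  classical
  obtain ⟨σ, hσ, hcσ, hιm⟩ := hCorP n K hK hn B D hB hU ι hι
  have hBK : B ∉ K := hB.mis.2.1
  obtain ⟨I, hI⟩ : ∃ I : Ideal (Coh (core K B)), I = Ideal.span {mon (core K B) B} := ⟨_, rfl⟩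
  have hmS : Ideal.Quotient.mk I (mon (core K B) B) = 0 := by
    rw [Ideal.Quotient.eq_zero_iff_mem, hI]
    exact Ideal.subset_span rfl
  have hvsub : verts (core K B) ⊆ verts K := fun v hv => ((mem_verts_core hK hB.sub).1 hv).1
  -- sums over the rays of `K` are sums over the rays of the core
  have hsum : ∀ ψ : Vec n → ℤ, (∑ v ∈ verts K, ψ v • (if v ∈ B ∨ InRel B (toR v) then
      Ideal.Quotient.mk I (cls (core K B) v) else 0)) =
      Ideal.Quotient.mk I (cl (core K B) ψ) := by
    intro ψ
    rw [cl, map_sum]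
    rw [← Finset.sum_subset hvsub]
    · refine Finset.sum_congr rfl (fun v hv => ?_)
      rw [if_pos ((mem_verts_core hK hB.sub).1 hv).2]
      exact (map_zsmul (Ideal.Quotient.mk I) (ψ v) (cls (core K B) v)).symm
    · intro v hv hv'
      rw [if_neg (fun h => hv' ((mem_verts_core hK hB.sub).2 ⟨hv, h⟩)), smul_zero]
  obtain ⟨θ, hθ⟩ : ∃ θ : Coh K →+* Coh (core K B) ⧸ I,
      ∀ v, θ (cls K v) = if v ∈ B ∨ InRel B (toR v) then
        Ideal.Quotient.mk I (cls (core K B) v) else 0 := by
    refine coh_lift (K := K) (R := Coh (core K B) ⧸ I)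
      (fun v => if v ∈ B ∨ InRel B (toR v) then
        Ideal.Quotient.mk I (cls (core K B) v) else 0) ?_ ?_
    · intro s hs
      by_cases hall : ∀ v ∈ s, v ∈ B ∨ InRel B (toR v)
      · have h0 : (∏ v ∈ s, if v ∈ B ∨ InRel B (toR v) then
            Ideal.Quotient.mk I (cls (core K B) v) else 0) =
            Ideal.Quotient.mk I (mon (core K B) s) := by
          rw [mon, map_prod]
          refine Finset.prod_congr rfl (fun v hvs => ?_)
          rw [if_pos (hall v hvs)]
        rw [h0]
        by_cases hs0 : s ∈ core K B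
        · rcases mem_core.1 hs0 with h | h
          · rw [h, hmS]
          · exact absurd h.1 hs
        · rw [mon_eq_zero hs0, map_zero]
      · push Not at hall
        obtain ⟨v, hvs, hv⟩ := hall
        refine Finset.prod_eq_zero (M₀ := Coh (core K B) ⧸ I) hvs (if_neg ?_)
        rintro (h | h)
        · exact hv.1 h
        · exact hv.2 h
    · intro u
      have h1 := hsum (pr u)
      rw [cl_pr, map_zero] at h1
      exact h1
  have hθcl : ∀ ψ : Vec n → ℤ, θ (cl K ψ) = Ideal.Quotient.mk I (cl (core K B) ψ) := by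
    intro ψ
    rw [← hsum ψ, cl, map_sum]
    refine Finset.sum_congr rfl (fun v _ => ?_)
    rw [← hθ v]
    exact map_zsmul θ (ψ v) (cls K v)
  have hcomp : θ.comp ι = Ideal.Quotient.mk I := by
    refine coh_hom_ext (K := core K B) (R := Coh (core K B) ⧸ I) (f := θ.comp ι)
      (g := Ideal.Quotient.mk I) (fun v => ?_)
    show θ (ι (cls (core K B) v)) = _
    by_cases hv : v ∈ verts (core K B)
    · have hv' := (mem_verts_core hK hB.sub).1 hv
      rw [hι v hv'.1 hv'.2, hθcl, cl_rop_del hK hB hv]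
    · rw [cls_eq_zero hv, map_zero, map_zero, map_zero]
  subst hI
  refine hInj n K (core K B) B D ι θ ?_ ?_ ?_ ?_ ?_ ?_
  · intro v hv h
    rcases mem_core.1 h with h1 | h1
    · exact hv (h1 ▸ Finset.mem_insert_self v B)
    · exact hBK (hK.down _ h1.1 _ (Finset.subset_insert v B))
  · intro b hb
    exact (mem_verts_core hK hB.sub).2 ⟨hB.sub hb, Or.inl hb⟩
  · exact hB.diag
  · exact hB.off
  · intro x
    exact congrFun (congrArg DFunLike.coe hcomp) x
  · intro N hN
    rw [hιm, smul_neg, neg_eq_zero] at hN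
    exact hDeg n K hK σ hσ hcσ N hN

end ToricPB
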