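import Pool.Agent.Lib.MP_3d51eb_gt.NK.Spec2

set_option autoImplicit false

/-!
# MP_3d51eb_gt, project NK: the point class from the inside
-/

noncomputable section

namespace ToricPB

open Finset MvPolynomial

variable {n : ℕ}

private lemma CorP_nk_prod {R : Type} [CommRing R] {u w : Vec n → R}
    (h : ∀ b b', u b * w b' = 0) (S : Finset (Vec n)) (hS : S.Nonempty) :
    ∏ b ∈ S, (u b + w b) = ∏ b ∈ S, u b + ∏ b ∈ S, w b := by
  classical
  induction hS using Finset.Nonempty.cons_induction with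
  | singleton a => simp
  | cons a S ha hS ih =>
    rw [Finset.prod_cons, Finset.prod_cons, Finset.prod_cons, ih]
    obtain ⟨c, hc⟩ := hS
    have h1 : u a * ∏ b ∈ S, w b = 0 := by
      rw [← Finset.mul_prod_erase S w hc, ← mul_assoc, h a c, zero_mul]
    have h2 : w a * ∏ b ∈ S, u b = 0 := by
      rw [← Finset.mul_prod_erase S u hc, ← mul_assoc, mul_comm (w a), h c a, zero_mul]
    calc (u a + w a) * (∏ b ∈ S, u b + ∏ b ∈ S, w b)
        = u a * ∏ b ∈ S, u b + w a * ∏ b ∈ S, w b + (u a * ∏ b ∈ S, w b + w a * ∏ b ∈ S, u b) := by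
          ring
      _ = u a * ∏ b ∈ S, u b + w a * ∏ b ∈ S, w b := by rw [h1, h2]; ring

theorem tCorP : StNd → StCutH → StCutP → StCorP := by
  intro hNd hCutH hCutP n K hK hn B D hMI hU ι hι
  classical
  obtain ⟨hin, hout, horth, -⟩ := hNd n K hK B D hMI
  obtain ⟨ι', hι'⟩ := hCutH n K hK B D hMI
  obtain ⟨σ, hσ, hσn, hpt⟩ := hCutP n K hK hn B D hMI hU ι' hι'
  refine ⟨σ, hσ, hσn, ?_⟩
  let u : Vec n → Coh K := fun b => cl K (rop B 1 D (del b))
  let w : Vec n → Coh K := fun b => cl K (fun v => del b v - rop B 1 D (del b) v)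
  have huw : ∀ b b', u b * w b' = 0 := fun b b' => horth _ (hin (del b)) _ (hout (del b'))
  have hcls : ∀ b ∈ B, cls K b = u b + w b := by
    intro b hb
    have h1 : cl K (fun v => del b v - rop B 1 D (del b) v) = cl K (del b) - cl K (rop B 1 D (del b)) :=
      cl_sub _ _
    change cls K b = cl K (rop B 1 D (del b)) + cl K (fun v => del b v - rop B 1 D (del b) v)
    rw [h1, cl_del (hMI.sub hb)]
    ring
  have hne : B.Nonempty := by
    rw [← Finset.card_pos, hMI.mis.1]
    omega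
  have h0 : ∏ b ∈ B, u b + ∏ b ∈ B, w b = 0 := by
    rw [← CorP_nk_prod huw B hne, ← Finset.prod_congr rfl hcls]
    exact mon_eq_zero hMI.mis.2.1
  have h1 : ι (mon (core K B) B) = ∏ b ∈ B, u b := by
    rw [mon, map_prod]
    exact Finset.prod_congr rfl fun b hb => hι b (hMI.sub hb) (Or.inl hb)
  have h2 : ι' (mon (cut K B) B) = ∏ b ∈ B, w b := by
    rw [mon, map_prod]
    exact Finset.prod_congr rfl fun b hb => hι' b (hMI.sub hb) (hMI.noB b hb)
  rw [h1, ← hpt, h2]
  exact eq_neg_of_add_eq_zero_left h0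

end ToricPB
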