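import Pool.Agent.Lib.MP_3d51eb_gt.NK.Spec

set_option autoImplicit false

/-!
# MP_3d51eb_gt, project NK: the dependent facet is shallow
-/

noncomputable section

namespace ToricPB

open Finset

theorem tCsh : StCsh := by
  classical
  intro n K hK hn d D hG C h hC c hc
  rw [Finset.eq_empty_iff_forall_notMem]
  intro B hB
  obtain ⟨hBI, hBc⟩ := mem_sh.1 hB
  have hM := hG B hBI
  have hmis := hM.mis
  have hne : B.Nonempty := by
    rw [← Finset.card_pos, hmis.1]
    omega
  obtain ⟨β, hβ⟩ := hne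
  have hpos := (hM.toMA.rel' c).1 hBc β hβ
  have hnn : ∀ c' ∈ C, 0 ≤ pr (D B β) c' := by
    intro c' hc'
    rcases hM.adj c c' hBc (hC.mis.pair hn hc hc') with h1 | h1
    · by_cases h2 : c' = β
      · rw [h2, hM.diag β hβ]
        exact hM.pos.le
      · rw [hM.off β hβ c' h1 h2]
    · exact ((hM.toMA.rel' c').1 h1 β hβ).le
  have hsum : ∑ c' ∈ C, pr (D B β) c' = 0 := by
    rw [← pr_sum, hC.sum, pr_zero]
  have h3 := Finset.single_le_sum hnn hc
  omega

end ToricPB
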