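import Pool.Agent.Lib.MP_3d51eb_gt.NK.Spec

set_option autoImplicit false

/-!
# MP_3d51eb_gt, project NK, module Cu: there is at most one dependent missing facet
-/

namespace ToricPB

/-- the form of one dependent missing facet vanishes on every other one -/
private lemma Cu_nk.zero {n : ℕ} {K : Finset (Finset (Vec n))} (hn : 3 ≤ n)
    {C C' : Finset (Vec n)} {h h' : Vec n} (hC : CD K C h) (hC' : CD K C' h') :
    ∀ c ∈ C', pr h c = 0 := by
  intro c hc
  have hs : ∑ c' ∈ C', pr h c' = 0 := by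
    have h1 := pr_sum C' h (fun c' => c')
    rw [hC'.sum, pr_zero] at h1
    exact h1.symm
  rcases lt_trichotomy (pr h c) 0 with h1 | h1 | h1
  · exfalso
    have h2 : ∑ c' ∈ C', pr h c' < 0 :=
      Finset.sum_neg' (fun c' hc' => hC.adj' c c' (hC'.mis.pair hn hc hc') h1) ⟨c, hc, h1⟩
    omega
  · exact h1
  · exfalso
    have h2 : 0 < ∑ c' ∈ C', pr h c' :=
      Finset.sum_pos' (fun c' hc' => hC.adj c c' (hC'.mis.pair hn hc hc') h1) ⟨c, hc, h1⟩
    omega

theorem tCu : StCu := by
  intro n K hn C h C' h' hC hC'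
  have hsub : C' ⊆ C := by
    intro c hc
    exact hC.ray c (hC'.mis.sub (by omega) hc) (Cu_nk.zero hn hC hC' c hc)
  have hcard : C.card ≤ C'.card := by
    rw [hC.mis.1, hC'.mis.1]
  exact (Finset.eq_of_subset_of_card_le hsub hcard).symm

end ToricPB
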