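import Pool.Agent.Lib.MP_3d51eb_gt.NK.Spec2

set_option autoImplicit false

/-!
# MP_3d51eb_gt, project NK: the image of the second cohomology from the outside (helper61)
-/

noncomputable section

namespace ToricPB

open Finset MvPolynomial

variable {n : ℕ}

namespace Cut2_nk

private lemma inCone_of_mem {K : Finset (Finset (Vec n))} {B : Finset (Vec n)} {D : Vec n → Vec n}
    (hB : MA K B 1 D) {v : Vec n} (hv : v ∈ B) : InCone B (toR v) := by
  rw [hB.cone']
  intro b hb
  by_cases h : v = b
  · subst h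
    rw [hB.diag v hv]
    norm_num
  · rw [hB.off b hb v hv h]

private lemma inCone_of_inRel {B : Finset (Vec n)} {x : Fin n → ℝ} (h : InRel B x) : InCone B x := by
  obtain ⟨c, hc, hx⟩ := h
  exact ⟨c, fun v hv => (hc v hv).le, hx⟩

/-- the class of an outer ray -/
private lemma outer_ray {K : Finset (Finset (Vec n))} {B : Finset (Vec n)} {D : Vec n → Vec n}
    (hB : MA K B 1 D) {v : Vec n} (hv : v ∈ verts K) (hc : ¬ InCone B (toR v)) :
    cl K (fun w => del v w - rop B 1 D (del v) w) = cls K v := by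
  classical
  rw [← cl_del hv]
  refine cl_congr (fun w _ => ?_)
  have h1 : rop B 1 D (del v) w = 0 := by
    simp only [rop]
    split_ifs with hw
    · have h2 : del v w = 0 := by
        rw [del, if_neg]
        intro h
        rw [h] at hw
        exact hc (inCone_of_inRel hw)
      have h3 : ∑ b ∈ B, pr (D b) w * del v b = 0 := by
        refine Finset.sum_eq_zero (fun b hb => ?_)
        rw [del, if_neg, mul_zero]
        intro h
        rw [h] at hb
        exact hc (inCone_of_mem hB hb)
      rw [h2, h3, mul_zero, sub_zero]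
    · rfl
  rw [h1, sub_zero]

end Cut2_nk

open Cut2_nk in
/-- IMAGE OF THE SECOND COHOMOLOGY -/
theorem tCut2 : StNd → StCut2 := by
  intro hNd n K hK B D hB ι hι y
  have hlin : ∀ z, ι.toAddMonoidHom.toIntLinearMap z = ι z := fun _ => rfl
  have h1 : outer K B ≤ (H2 (cut K B)).map ι.toAddMonoidHom.toIntLinearMap := by
    refine Submodule.span_le.2 ?_
    rintro _ ⟨v, hv, hc, rfl⟩
    refine ⟨cls (cut K B) v, cls_mem v, ?_⟩
    rw [hlin, hι v hv (fun h => hc (inCone_of_inRel h))]
    exact outer_ray hB.toMA hv hc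
  have h2 : H2 (cut K B) ≤ (outer K B).comap ι.toAddMonoidHom.toIntLinearMap := by
    refine Submodule.span_le.2 ?_
    rintro _ ⟨v, rfl⟩
    show ι.toAddMonoidHom.toIntLinearMap (cls (cut K B) v) ∈ outer K B
    rw [hlin]
    by_cases hv : v ∈ verts (cut K B)
    · have h3 : v ∈ verts K ∧ ¬ InRel B (toR v) := by
        obtain ⟨t, ht, hvt⟩ := mem_verts.1 hv
        rcases mem_cut.1 ht with h | ⟨h, h'⟩
        · rw [h] at hvt
          exact ⟨hB.sub hvt, hB.noB v hvt⟩
        · exact ⟨mem_verts_of_mem h hvt, h' v hvt⟩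
      rw [hι v h3.1 h3.2]
      exact (hNd n K hK B D hB).2.1 (del v)
    · rw [cls_eq_zero hv, map_zero]
      exact Submodule.zero_mem _
  constructor
  · intro hy
    obtain ⟨z, hz, hzy⟩ := h1 hy
    exact ⟨z, hz, hzy⟩
  · rintro ⟨z, hz, rfl⟩
    exact h2 hz

end ToricPB
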