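import Pool.Agent.Lib.MP_3d51eb_gt.NK.Spec2

set_option autoImplicit false

/-!
# MP_3d51eb_gt, project NK: the outside of a neck is a fan
-/

noncomputable section

namespace ToricPB

open Finset MvPolynomial

namespace CutF_nk

variable {n : ℕ}

theorem main {K : Finset (Finset (Vec n))} {B : Finset (Vec n)} {D : Vec n → Vec n}
    (hX : StX) (hK : IsFan K) (hM : MI K B 1 D) (hU : Uni B) : IsFan (cut K B) := by
  classical
  refine ⟨?_, ?_, ?_⟩
  · intro s hs t hts
    rw [mem_cut] at hs ⊢
    rcases hs with rfl | ⟨hsK, hs⟩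
    · by_cases h : t = s
      · exact Or.inl h
      · right
        have hss : t ⊂ s := Finset.ssubset_iff_subset_ne.2 ⟨hts, h⟩
        exact ⟨hM.mis.2.2 t hss, fun v hv => hM.noB v (hts hv)⟩
    · right
      exact ⟨hK.down s hsK t hts, fun v hv => hs v (hts hv)⟩
  · intro s hs
    rw [mem_cut] at hs
    rcases hs with rfl | ⟨hsK, -⟩
    · exact hU
    · exact hK.smooth s hsK
  · intro x
    by_cases hx : InRel B x
    · refine ⟨B, ⟨mem_cut.2 (Or.inl rfl), hx⟩, ?_⟩
      rintro t ⟨ht, htx⟩
      rcases mem_cut.1 ht with h | ⟨htK, hno⟩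
      · exact h
      · exfalso
        obtain ⟨-, v, hv, hvB⟩ := hX n K hK B 1 D hM.toMA t htK x htx hx
        exact hno v hv hvB
    · obtain ⟨t, ⟨htK, htx⟩, huniq⟩ := hK.cover x
      have hno : ∀ v ∈ t, ¬ InRel B (toR v) := by
        intro v hv hvB
        apply hx
        rw [hM.toMA.rel]
        obtain ⟨c, hc, rfl⟩ := htx
        intro b hb
        rw [dot_lin]
        refine Finset.sum_pos' ?_ ⟨v, hv, mul_pos (hc v hv) ((hM.toMA.rel _).1 hvB b hb)⟩
        intro w hw
        refine mul_nonneg (hc w hw).le ?_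
        have hadj : w ∈ B ∨ InRel B (toR w) := by
          refine hM.adj v w hvB (hK.down t htK _ ?_)
          intro y hy
          rcases Finset.mem_insert.1 hy with h | h
          · rw [h]; exact hv
          · rw [Finset.mem_singleton.1 h]; exact hw
        rcases hadj with h | h
        · rw [dot_toR]
          by_cases hbw : w = b
          · rw [hbw, hM.diag b hb]
            norm_num
          · rw [hM.off b hb w h hbw]
            norm_num
        · exact ((hM.toMA.rel _).1 h b hb).le
      refine ⟨t, ⟨mem_cut.2 (Or.inr ⟨htK, hno⟩), htx⟩, ?_⟩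
      rintro s ⟨hs, hsx⟩
      rcases mem_cut.1 hs with h | ⟨hsK, -⟩
      · rw [h] at hsx
        exact absurd hsx hx
      · exact huniq s ⟨hsK, hsx⟩

end CutF_nk

theorem tCutF : StX → StCutF := by
  intro hX n K hK B D hM hU
  exact CutF_nk.main hX hK hM hU

end ToricPB
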