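import Pool.Agent.Lib.MP_3d51eb_gt.NK.Spec2

set_option autoImplicit false

/-!
# MP_3d51eb_gt, project NK: the pull-back from the outside
-/

noncomputable section

namespace ToricPB

open Finset MvPolynomial

namespace CutH_nk

variable {n : ℕ} {K : Finset (Finset (Vec n))} {B : Finset (Vec n)} {D : Vec n → Vec n}

/-- the correction of an interior ray is everything -/
lemma rop_int (hM : MI K B 1 D) {v : Vec n} (hv : InRel B (toR v)) (w : Vec n) :
    del v w - rop B 1 D (del v) w = 0 := by
  classical
  have hvB : v ∉ B := fun h => hM.noB v h hv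
  have h0 : ∑ b ∈ B, pr (D b) w * del v b = 0 := by
    refine Finset.sum_eq_zero (fun b hb => ?_)
    rw [del, if_neg (ne_of_mem_of_not_mem hb hvB), mul_zero]
  simp only [rop]
  split_ifs with h
  · rw [h0]
    ring
  · have h1 : ¬ w = v := by
      rintro rfl
      exact h hv
    rw [del, if_neg h1, sub_zero]

/-- the correction of an outer ray is zero -/
lemma rop_out {v : Vec n} (hvB : v ∉ B) (hv : ¬ InRel B (toR v)) (w : Vec n) :
    rop B 1 D (del v) w = 0 := by
  classical
  have h0 : ∑ b ∈ B, pr (D b) w * del v b = 0 := by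
    refine Finset.sum_eq_zero (fun b hb => ?_)
    rw [del, if_neg (ne_of_mem_of_not_mem hb hvB), mul_zero]
  simp only [rop]
  split_ifs with h
  · have h1 : ¬ w = v := by
      rintro rfl
      exact hv h
    rw [h0, del, if_neg h1]
    ring
  · rfl

lemma sum_del (u : Vec n) {w : Vec n} (hw : w ∈ verts K) :
    ∑ v ∈ verts K, pr u v * del v w = pr u w := by
  classical
  rw [Finset.sum_eq_single w]
  · rw [del, if_pos rfl, mul_one]
  · intro v _ hvw
    rw [del, if_neg (Ne.symm hvw), mul_zero]
  · intro h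
    exact absurd hw h

lemma rel_all (hM : MI K B 1 D) (u : Vec n) :
    ∑ v ∈ verts K, pr u v • cl K (fun w => del v w - rop B 1 D (del v) w) = 0 := by
  have h1 : ∑ v ∈ verts K, pr u v • cl K (fun w => del v w - rop B 1 D (del v) w) =
      cl K (fun w => ∑ v ∈ verts K, pr u v * (del v w - rop B 1 D (del v) w)) := by
    rw [cl_sum]
    refine Finset.sum_congr rfl (fun v _ => ?_)
    rw [cl_smul]
  rw [h1]
  have h2 : cl K (fun w => ∑ v ∈ verts K, pr u v * (del v w - rop B 1 D (del v) w)) =
      cl K (pr u) := by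
    refine cl_congr (fun w hw => ?_)
    have e1 : rop B 1 D (fun x => ∑ v ∈ verts K, pr u v * del v x) w = 0 := by
      rw [rop_congr hM.sub 1 D (fun x hx => sum_del u hx) w hw]
      exact congrFun (rop_pr hM.toMA u) w
    have e2 : ∑ v ∈ verts K, pr u v * rop B 1 D (del v) w = 0 := by
      rw [← e1, rop_sum]
      refine Finset.sum_congr rfl (fun v _ => ?_)
      rw [rop_smul]
    simp only [mul_sub, Finset.sum_sub_distrib]
    rw [e2, sub_zero]
    exact sum_del u hw
  rw [h2]
  exact cl_pr u

lemma verts_cut (hK : IsFan K) (hM : MI K B 1 D) (v : Vec n) :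
    v ∈ verts (cut K B) ↔ v ∈ verts K ∧ ¬ InRel B (toR v) := by
  constructor
  · intro hv
    obtain ⟨s, hs, hvs⟩ := mem_verts.1 hv
    rcases mem_cut.1 hs with h | ⟨h1, h2⟩
    · rw [h] at hvs
      exact ⟨hM.sub hvs, hM.noB v hvs⟩
    · exact ⟨mem_verts_of_mem h1 hvs, h2 v hvs⟩
  · rintro ⟨h1, h2⟩
    refine mem_verts_of_single (mem_cut.2 (Or.inr ⟨hK.single h1, fun w hw => ?_⟩))
    rw [Finset.mem_singleton.1 hw]
    exact h2

end CutH_nk

open CutH_nk in
theorem tCutH : StNd → StCutH := by
  classical
  intro hNd n K hK B D hM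
  obtain ⟨hin, -, horth, -⟩ := hNd n K hK B D hM
  let G : Vec n → Coh K := fun v => cl K (fun w => del v w - rop B 1 D (del v) w)
  let φ : Vec n → Coh K := fun v => if v ∈ verts K ∧ ¬ InRel B (toR v) then G v else 0
  have hφ : ∀ v, v ∈ verts K → ¬ InRel B (toR v) → φ v = G v := fun v h1 h2 => if_pos ⟨h1, h2⟩
  have h2 : ∀ u : Vec n, ∑ v ∈ verts (cut K B), pr u v • φ v = 0 := by
    intro u
    have hsub : verts (cut K B) ⊆ verts K := fun v hv => ((verts_cut hK hM v).1 hv).1
    have e1 : ∑ v ∈ verts (cut K B), pr u v • φ v = ∑ v ∈ verts (cut K B), pr u v • G v := by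
      refine Finset.sum_congr rfl (fun v hv => ?_)
      obtain ⟨h3, h4⟩ := (verts_cut hK hM v).1 hv
      rw [hφ v h3 h4]
    rw [e1, Finset.sum_subset hsub]
    · exact rel_all hM u
    · intro v hv hv'
      have hint : InRel B (toR v) := by
        by_contra h
        exact hv' ((verts_cut hK hM v).2 ⟨hv, h⟩)
      have : G v = 0 := by
        show cl K (fun w => del v w - rop B 1 D (del v) w) = 0
        rw [cl_congr (χ := fun _ => 0) (fun w _ => rop_int hM hint w)]
        simp [cl]
      rw [this, smul_zero]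
  have h1 : ∀ s : Finset (Vec n), s ∉ cut K B → ∏ v ∈ s, φ v = 0 := by
    intro s hs
    by_cases hall : ∀ v ∈ s, v ∈ verts K ∧ ¬ InRel B (toR v)
    · have hsK : s ∉ K := fun h => hs (mem_cut.2 (Or.inr ⟨h, fun v hv => (hall v hv).2⟩))
      have hsB : s ≠ B := fun h => hs (mem_cut.2 (Or.inl h))
      obtain ⟨w, hws, hwB⟩ : ∃ w ∈ s, w ∉ B := by
        by_contra h
        push Not at h
        exact hsK (hM.mis.2.2 s (lt_of_le_of_ne h hsB))
      obtain ⟨hwK, hwI⟩ := hall w hws
      have hwC : ¬ InCone B (toR w) := fun h => (hM.bdry w hwK h).elim hwB hwI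
      have hwo : cls K w ∈ outer K B := Submodule.subset_span ⟨w, hwK, hwC, rfl⟩
      have hGw : φ w = cls K w := by
        rw [hφ w hwK hwI, ← cl_del hwK]
        refine cl_congr (fun x _ => ?_)
        rw [rop_out hwB hwI, sub_zero]
      have key : ∀ v ∈ s, cls K w * φ v = cls K w * cls K v := by
        intro v hv
        obtain ⟨hvK, hvI⟩ := hall v hv
        have e : φ v = cls K v - cl K (rop B 1 D (del v)) := by
          rw [hφ v hvK hvI, ← cl_del hvK, ← cl_sub]
        have e0 : cls K w * cl K (rop B 1 D (del v)) = 0 := by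
          rw [mul_comm]
          exact horth _ (hin (del v)) _ hwo
        rw [e, mul_sub, e0, sub_zero]
      have key2 : ∀ t : Finset (Vec n), t ⊆ s →
          cls K w * ∏ v ∈ t, φ v = cls K w * ∏ v ∈ t, cls K v := by
        intro t
        induction t using Finset.induction_on with
        | empty => intro _; rfl
        | insert a t ha ih =>
          intro hts
          have h3 := ih (fun x hx => hts (Finset.mem_insert_of_mem hx))
          have h4 := key a (hts (Finset.mem_insert_self a t))
          rw [Finset.prod_insert ha, Finset.prod_insert ha, ← mul_assoc, h4, mul_right_comm, h3]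
          ring
      rw [← Finset.mul_prod_erase s φ hws, hGw, key2 _ (Finset.erase_subset w s)]
      rw [Finset.mul_prod_erase s (cls K) hws]
      exact mon_eq_zero hsK
    · push Not at hall
      obtain ⟨v, hv, hv2⟩ := hall
      refine Finset.prod_eq_zero hv (if_neg ?_)
      rintro ⟨h3, h4⟩
      exact h4 (hv2 h3)
  obtain ⟨f, hf⟩ := coh_lift (K := cut K B) φ h1 h2
  refine ⟨f, fun v hv hv2 => ?_⟩
  rw [hf v]
  exact hφ v hv hv2

end ToricPB
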