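import Pool.Agent.Lib.MP_3d51eb_gt.NK.Spec2

set_option autoImplicit false

/-!
# MP_3d51eb_gt, project NK: injectivity from the outside (module CutI)
-/

noncomputable section

namespace ToricPB

open Finset MvPolynomial

namespace CutI_nk

variable {n : ℕ} {K : Finset (Finset (Vec n))} {B : Finset (Vec n)} {D : Vec n → Vec n}

lemma verts_cut (hK : IsFan K) (hB : MI K B 1 D) (v : Vec n) :
    v ∈ verts (cut K B) ↔ v ∈ verts K ∧ ¬ InRel B (toR v) := by
  constructor
  · intro h
    obtain ⟨s, hs, hv⟩ := mem_verts.1 h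
    rcases mem_cut.1 hs with h1 | ⟨h1, h2⟩
    · subst h1
      exact ⟨hB.sub hv, hB.noB v hv⟩
    · exact ⟨mem_verts_of_mem h1 hv, h2 v hv⟩
  · rintro ⟨h1, h2⟩
    refine mem_verts.2 ⟨{v}, mem_cut.2 (Or.inr ⟨hK.single h1, ?_⟩), by simp⟩
    intro w hw
    rw [Finset.mem_singleton.1 hw]
    exact h2

open Classical in
lemma exists_theta (hK : IsFan K) (hB : MI K B 1 D) :
    ∃ θ : Coh K →+* Coh (cut K B) ⧸ (Ideal.span {mon (cut K B) B} : Ideal (Coh (cut K B))),
      ∀ v, θ (cls K v) = if InRel B (toR v) then 0 else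
        Ideal.Quotient.mk (Ideal.span {mon (cut K B) B}) (cls (cut K B) v) := by
  refine coh_lift (R := Coh (cut K B) ⧸ (Ideal.span {mon (cut K B) B} : Ideal (Coh (cut K B)))) _
    ?_ ?_
  · intro s hs
    by_cases h : ∃ v ∈ s, InRel B (toR v)
    · obtain ⟨v, hv, hv2⟩ := h
      exact Finset.prod_eq_zero (f := fun v => if InRel B (toR v) then 0 else
        Ideal.Quotient.mk (Ideal.span {mon (cut K B) B} : Ideal (Coh (cut K B)))
          (cls (cut K B) v)) hv (if_pos hv2)
    · push Not at h
      rw [Finset.prod_congr rfl (fun v hv => if_neg (h v hv)), ← map_prod]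
      show Ideal.Quotient.mk (Ideal.span {mon (cut K B) B}) (mon (cut K B) s) = 0
      by_cases hs2 : s ∈ cut K B
      · rcases mem_cut.1 hs2 with h1 | ⟨h1, -⟩
        · rw [h1, Ideal.Quotient.eq_zero_iff_mem]
          exact Ideal.subset_span rfl
        · exact absurd h1 hs
      · rw [mon_eq_zero hs2, map_zero]
  · intro u
    have hsub : verts (cut K B) ⊆ verts K := fun v hv => ((verts_cut hK hB v).1 hv).1
    rw [← Finset.sum_subset hsub]
    · have h := congrArg (Ideal.Quotient.mk (Ideal.span {mon (cut K B) B}))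
        (lin_rel (K := cut K B) u)
      rw [map_sum, map_zero] at h
      rw [← h]
      refine Finset.sum_congr rfl (fun v hv => ?_)
      rw [if_neg ((verts_cut hK hB v).1 hv).2, map_zsmul]
    · intro v hv hv2
      have h : InRel B (toR v) := by
        by_contra hc
        exact hv2 ((verts_cut hK hB v).2 ⟨hv, hc⟩)
      rw [if_pos h, smul_zero]

end CutI_nk

open CutI_nk in
theorem tCutI : StDeg → StCutP → StInj → StCutI := by
  classical
  intro hDeg hCutP hInj n K hK hn B D hB hU ι hι
  obtain ⟨θ, hθ⟩ := exists_theta hK hB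
  have hsub : B ⊆ verts (cut K B) := fun v hv =>
    (verts_cut hK hB v).2 ⟨hB.sub hv, hB.noB v hv⟩
  refine hInj n K (cut K B) B D ι θ ?_ hsub hB.diag hB.off ?_ ?_
  · intro v hv hc
    rcases mem_cut.1 hc with h | ⟨h, -⟩
    · exact hv (h ▸ Finset.mem_insert_self v B)
    · exact hB.mis.2.1 (hK.down _ h _ (Finset.subset_insert v B))
  · have hext : θ.comp ι = Ideal.Quotient.mk (Ideal.span {mon (cut K B) B}) := by
      refine coh_hom_ext
        (R := Coh (cut K B) ⧸ (Ideal.span {mon (cut K B) B} : Ideal (Coh (cut K B))))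
        (fun v => ?_)
      rw [RingHom.comp_apply]
      by_cases hv : v ∈ verts (cut K B)
      · obtain ⟨hv1, hv2⟩ := (verts_cut hK hB v).1 hv
        rw [hι v hv1 hv2, cl_sub, map_sub]
        have h1 : cl K (fun w => del v w) = cls K v := cl_del hv1
        have h2 : θ (cl K (fun w => rop B 1 D (del v) w)) = 0 := by
          rw [cl, map_sum]
          refine Finset.sum_eq_zero (fun w _ => ?_)
          rw [map_zsmul, hθ]
          by_cases hw : InRel B (toR w)
          · rw [if_pos hw, smul_zero]
          · have h0 : rop B 1 D (del v) w = 0 := by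
              simp only [rop]
              rw [if_neg hw]
            rw [h0, zero_smul]
        rw [h1, h2, hθ, if_neg hv2, sub_zero]
      · rw [cls_eq_zero hv, map_zero, map_zero, map_zero]
    intro x
    rw [← hext]
    rfl
  · obtain ⟨σ, hσ, hc, he⟩ := hCutP n K hK hn B D hB hU ι hι
    rw [he]
    exact hDeg n K hK σ hσ hc

end ToricPB
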