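import Pool.Agent.Lib.MP_3d51eb_gt.NK.Spec2

set_option autoImplicit false

/-!
# MP_3d51eb_gt, project NK, module CutM: products with an outer ray
-/

noncomputable section

namespace ToricPB

open Finset MvPolynomial

theorem tCutM : StNd → StCutM := by
  intro hNd n K hK B D hB ι hι s hs hsB hw
  classical
  obtain ⟨w, hws, hwB⟩ := hw
  obtain ⟨hin, -, horth, -⟩ := hNd n K hK B D hB
  have hwout : cls K w ∈ outer K B := by
    refine Submodule.subset_span ⟨w, hs hws, fun h => ?_, rfl⟩
    rcases hB.bdry w (hs hws) h with h | h
    · exact hwB h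
    · exact hsB w hws h
  have hrop : rop B 1 D (del w) = fun _ => 0 := by
    funext v
    simp only [rop]
    split_ifs with h
    · have h1 : del w v = 0 := by
        rw [del, if_neg]
        rintro rfl
        exact hsB v hws h
      have h2 : ∑ b ∈ B, pr (D b) v * del w b = 0 := by
        refine Finset.sum_eq_zero fun b hb => ?_
        rw [del, if_neg (ne_of_mem_of_not_mem hb hwB), mul_zero]
      rw [h1, h2]
      ring
    · rfl
  have hιw : ι (cls (cut K B) w) = cls K w := by
    rw [hι w (hs hws) (hsB w hws), hrop]
    simp only [sub_zero]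
    exact cl_del (hs hws)
  have hmul : ∀ v ∈ s, cls K w * ι (cls (cut K B) v) = cls K w * cls K v := by
    intro v hv
    rw [hι v (hs hv) (hsB v hv), cl_sub, mul_sub,
      mul_comm (cls K w) (cl K fun w' => rop B 1 D (del v) w')]
    have h1 : cl K (fun w' => rop B 1 D (del v) w') * cls K w = 0 := horth _ (hin _) _ hwout
    have h2 : cl K (fun w' => del v w') = cls K v := cl_del (hs hv)
    rw [h1, sub_zero, h2]
  have hind : ∀ t ⊆ s, cls K w * ι (mon (cut K B) t) = cls K w * mon K t := by
    intro t
    induction t using Finset.induction_on with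
    | empty =>
      intro _
      rw [mon_empty, mon_empty, map_one]
    | insert v t hvt ih =>
      intro hts
      have hv : v ∈ s := hts (Finset.mem_insert_self _ _)
      have ht : t ⊆ s := (Finset.subset_insert _ _).trans hts
      rw [mon_insert hvt, mon_insert hvt, map_mul, ← mul_assoc, hmul v hv, mul_right_comm, ih ht]
      ring
  have h1 : insert w (s.erase w) = s := Finset.insert_erase hws
  rw [← h1, mon_insert (Finset.notMem_erase _ _), mon_insert (Finset.notMem_erase _ _), map_mul,
    hιw, hind _ (Finset.erase_subset _ _)]

end ToricPB
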