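import Pool.Agent.Lib.MP_3d51eb_gt.NK.Spec2

set_option autoImplicit false

/-!
# MP_3d51eb_gt, project NK, module End: projections of orthogonal decompositions
-/

noncomputable section

namespace ToricPB

open Finset MvPolynomial

theorem tEnd : StZero → StDeg → StEnd := by
  classical
  intro hZero hDeg n K hK hn V W hVW hO
  have hV : V ≤ H2 K := hVW ▸ le_sup_left
  have hW : W ≤ H2 K := hVW ▸ le_sup_right
  set V' : Submodule ℤ (H2 K) := V.comap (H2 K).subtype with hV'
  set W' : Submodule ℤ (H2 K) := W.comap (H2 K).subtype with hW'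
  have hmV : ∀ y : H2 K, y ∈ V' ↔ (y : Coh K) ∈ V := fun y => Iff.rfl
  have hmW : ∀ y : H2 K, y ∈ W' ↔ (y : Coh K) ∈ W := fun y => Iff.rfl
  have hC : IsCompl V' W' := by
    constructor
    · rw [Submodule.disjoint_def]
      intro y hy1 hy2
      rw [hmV] at hy1
      rw [hmW] at hy2
      apply Subtype.ext
      refine hZero n K hK hn (hDeg n K hK) _ y.2 (fun v => ?_)
      have hv : cls K v ∈ V ⊔ W := by
        rw [hVW]; exact cls_mem v
      obtain ⟨v1, h1, v2, h2, h3⟩ := Submodule.mem_sup.1 hv
      rw [← h3, mul_add, hO _ hy1 _ h2, mul_comm, hO _ h1 _ hy2, add_zero]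
    · rw [codisjoint_iff, eq_top_iff]
      intro y _
      have hy : (y : Coh K) ∈ V ⊔ W := by
        rw [hVW]; exact y.2
      obtain ⟨v1, h1, v2, h2, h3⟩ := Submodule.mem_sup.1 hy
      refine Submodule.mem_sup.2 ⟨⟨v1, hV h1⟩, h1, ⟨v2, hW h2⟩, h2, ?_⟩
      exact Subtype.ext h3
  refine ⟨V'.projection W' hC, ?_, ?_, ?_, ?_⟩
  · exact (Submodule.isIdempotentElem_projection hC)
  · intro y z
    have hy1 := Submodule.projection_apply_mem hC y
    have hy2 := Submodule.sub_projection_mem hC y
    have hz1 := Submodule.projection_apply_mem hC z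
    have hz2 := Submodule.sub_projection_mem hC z
    set y' := V'.projection W' hC y
    set z' := V'.projection W' hC z
    rw [hmV] at hy1 hz1
    rw [hmW] at hy2 hz2
    have e1 := hO _ hy1 _ hz2
    have e2 := hO _ hz1 _ hy2
    simp only [Submodule.coe_sub] at e1 e2
    have e3 : (y' : Coh K) * z = (y' : Coh K) * z' := by
      have := e1
      rw [mul_sub, sub_eq_zero] at this
      exact this
    have e4 : (z' : Coh K) * y = (z' : Coh K) * y' := by
      have := e2
      rw [mul_sub, sub_eq_zero] at this
      exact this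
    rw [e3, mul_comm (y : Coh K), e4, mul_comm]
  · intro y
    rw [← hmV]
    exact (Submodule.projection_eq_self_iff hC y).symm
  · intro y
    rw [← hmW]
    exact (Submodule.projection_apply_eq_zero_iff hC).symm

end ToricPB
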