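import Pool.Agent.Lib.MP_3d51eb_gt.NK.Spec

set_option autoImplicit false

/-!
# MP_3d51eb_gt, project NK, module Exit: exit point of a segment from a cone
-/

noncomputable section

namespace ToricPB

open Finset

theorem tExit : StExit := by
  classical
  intro n K B d D hB x y hx hy
  have hxB := (hB.rel x).1 hx
  rw [hB.cone] at hy
  push Not at hy
  -- the functional values
  set f : Vec n → ℝ := fun b => dot (toR (D b)) x with hf
  set g : Vec n → ℝ := fun b => dot (toR (D b)) y with hg
  have hne : (B.filter (fun b => g b < 0)).Nonempty := by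
    obtain ⟨b, hb, hb2⟩ := hy
    exact ⟨b, mem_filter.2 ⟨hb, hb2⟩⟩
  obtain ⟨b0, hb0, hmin⟩ := exists_min_image (B.filter (fun b => g b < 0))
    (fun b => f b / (f b - g b)) hne
  rw [mem_filter] at hb0
  have hf0 : 0 < f b0 := hxB b0 hb0.1
  have hg0 : g b0 < 0 := hb0.2
  set s : ℝ := f b0 / (f b0 - g b0) with hs
  have hden : 0 < f b0 - g b0 := by linarith
  have hs0 : 0 < s := div_pos hf0 hden
  have hs1 : s < 1 := (div_lt_one hden).2 (by linarith)
  have hz : ∀ b, dot (toR (D b)) ((1 - s) • x + s • y) = (1 - s) * f b + s * g b := by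
    intro b
    rw [dot_add, dot_smul, dot_smul]
  have hz0 : dot (toR (D b0)) ((1 - s) • x + s • y) = 0 := by
    rw [hz, hs]
    field_simp
    ring
  have hzB : ∀ b ∈ B, 0 ≤ dot (toR (D b)) ((1 - s) • x + s • y) := by
    intro b hb
    rw [hz]
    have hfb : 0 < f b := hxB b hb
    by_cases hgb : g b < 0
    · have h1 := hmin b (mem_filter.2 ⟨hb, hgb⟩)
      have h2 : 0 < f b - g b := by linarith
      have h3 : s * (f b - g b) ≤ f b := (le_div_iff₀ h2).1 h1
      nlinarith
    · have h1 : 0 ≤ g b := not_lt.1 hgb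
      have h2 : 0 ≤ s * g b := mul_nonneg hs0.le h1
      have h3 : 0 ≤ (1 - s) * f b := mul_nonneg (by linarith) hfb.le
      linarith
  set z : Fin n → ℝ := (1 - s) • x + s • y with hzdef
  set t : Finset (Vec n) := B.filter (fun b => 0 < dot (toR (D b)) z) with ht
  have htB : t ⊂ B := by
    refine (Finset.ssubset_iff_of_subset (filter_subset _ _)).2 ⟨b0, hb0.1, fun h => ?_⟩
    have := (mem_filter.1 h).2
    rw [hz0] at this
    exact lt_irrefl _ this
  refine ⟨s, hs0, hs1, t, hB.mis.2.2 t htB, htB, ?_⟩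
  have hd : (0 : ℝ) < d := by exact_mod_cast hB.pos
  refine ⟨fun b => (d : ℝ)⁻¹ * dot (toR (D b)) z,
    fun b hb => mul_pos (inv_pos.2 hd) (mem_filter.1 hb).2, ?_⟩
  have h1 := hB.spanR z
  have h2 : lin B (fun b => dot (toR (D b)) z) = lin t (fun b => dot (toR (D b)) z) := by
    refine lin_subset (filter_subset _ _) _ fun b hb hbt => ?_
    have h3 : ¬ 0 < dot (toR (D b)) z := fun h => hbt (mem_filter.2 ⟨hb, h⟩)
    exact le_antisymm (not_lt.1 h3) (hzB b hb)
  rw [lin_smul, ← h2, ← h1, smul_smul, inv_mul_cancel₀ hd.ne', one_smul]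

end ToricPB
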