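import Pool.Agent.Lib.MP_3d51eb_gt.NK.Spec2

set_option autoImplicit false

/-!
# MP_3d51eb_gt, project NK: prime decomposition, assembly
-/

noncomputable section

namespace ToricPB

open Finset MvPolynomial

namespace Fin_nk

variable {n : ℕ} {K : Finset (Finset (Vec n))}

lemma inner_le (B : Finset (Vec n)) : inner K B ≤ H2 K := by
  refine Submodule.span_le.2 ?_
  rintro _ ⟨v, -, -, rfl⟩
  exact cls_mem v

lemma outer_le (B : Finset (Vec n)) : outer K B ≤ H2 K := by
  refine Submodule.span_le.2 ?_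
  rintro _ ⟨v, -, -, rfl⟩
  exact cls_mem v

lemma mem_rg (T : Module.End ℤ (H2 K)) (y : H2 K) : ((T y : H2 K) : Coh K) ∈ rg T :=
  ⟨T y, ⟨y, rfl⟩, rfl⟩

lemma of_rg {T : Module.End ℤ (H2 K)} {y : Coh K} (hy : y ∈ rg T) :
    ∃ z : H2 K, ((T z : H2 K) : Coh K) = y := by
  obtain ⟨_, ⟨z, rfl⟩, rfl⟩ := hy
  exact ⟨z, rfl⟩

lemma sum_ite {ι R : Type} [Ring R] [DecidableEq ι] (s : Finset ι) (P : ι → R) {B : ι}
    (hB : B ∈ s) : ∑ B' ∈ s, (if B' = B then (1 : ℤ) else 0) • P B' = P B := by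
  rw [Finset.sum_eq_single_of_mem B hB]
  · rw [if_pos rfl, one_smul]
  · intro B' _ h
    rw [if_neg h, zero_smul]

end Fin_nk

open Fin_nk

theorem tFin : StGood → StNk → StPb → StEnd → StInE → StFrame → StRg → StSepE → StFin := by
  classical
  intro hGood hNk hPb hEnd hInE hFrame hRg hSepE n K hK hn
  have hn2 : 2 ≤ n := by omega
  obtain ⟨d, D, hG⟩ := hGood n K hK hn2
  have hP0 : ∀ B : Finset (Vec n), ∃ P : Module.End ℤ (H2 K), B ∈ necks K →
      IsPB K B (D B) P := by
    intro B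
    by_cases hB : B ∈ necks K
    · obtain ⟨h1, h2⟩ := (hNk n K hK hn2 d D hG B).1 hB
      have h3 := hG B h1
      rw [h2] at h3
      obtain ⟨P, hP⟩ := hPb n K hK hn2 B (D B) h3
      exact ⟨P, fun _ => hP⟩
    · exact ⟨0, fun h => absurd h hB⟩
  choose P hP using hP0
  obtain ⟨e, he, he0, heo, hes, hef⟩ := hFrame n K hK hn d D hG P hP
  have hI0 : ∀ B : Finset (Vec n), ∃ I : Finset (Fin ((necks K).card + 1)), B ∈ necks K →
      P B = ∑ i ∈ I, e i := by
    intro B
    by_cases hB : B ∈ necks K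
    · obtain ⟨I, hI⟩ := hef (P B) (hP B hB).1 (hP B hB).2.1
      exact ⟨I, fun _ => hI⟩
    · exact ⟨∅, fun h => absurd h hB⟩
  choose I hI using hI0
  have hId : ∀ i, e i * e i = e i := fun i => (he i).1
  refine ⟨fun i => rg (e i), I, ?_, ?_, ?_, ?_, ?_, ?_⟩
  · intro i h
    apply he0 i
    refine LinearMap.ext (fun y => ?_)
    have h1 := mem_rg (e i) y
    have h' : rg (e i) = ⊥ := h
    rw [h', Submodule.mem_bot] at h1
    exact Subtype.ext h1
  · intro i j hij y hy z hz
    obtain ⟨y', rfl⟩ := of_rg hy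
    obtain ⟨z', rfl⟩ := of_rg hz
    have h1 := (he i).2 y' (e j z')
    have h2 : e i (e j z') = 0 := by
      have h3 : (e i * e j) z' = 0 := by
        rw [heo i j hij]
        rfl
      exact h3
    rw [h1, h2]
    exact mul_zero _
  · obtain ⟨h1, -⟩ := hRg n K _ e hId heo hes Finset.univ (H2 K) ⊥ le_rfl bot_le
      (fun y => by
        rw [hes]
        exact ⟨fun _ => rfl, fun _ => y.2⟩)
      (fun y => by
        rw [hes, Submodule.mem_bot]
        exact ⟨fun h => Subtype.ext h, fun h => congrArg Subtype.val h⟩)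
    rw [h1]
    simp
  · intro V W hVW hO
    obtain ⟨T, hT1, hT2, hT3, hT4⟩ := hEnd n K hK hn2 V W hVW hO
    obtain ⟨J, hJ⟩ := hef T hT1 hT2
    have hV : V ≤ H2 K := hVW ▸ le_sup_left
    have hW : W ≤ H2 K := hVW ▸ le_sup_right
    refine ⟨J, hRg n K _ e hId heo hes J V W hV hW ?_ ?_⟩
    · rw [← hJ]
      exact hT3
    · rw [← hJ]
      exact hT4
  · intro B hB
    obtain ⟨-, -, -, hP4, hP5⟩ := hP B hB
    have hR := hRg n K _ e hId heo hes (I B) (inner K B) (outer K B) (inner_le B) (outer_le B)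
      (by
        rw [← hI B hB]
        exact hP4)
      (by
        rw [← hI B hB]
        exact hP5)
    refine ⟨?_, ?_, hR.1, hR.2⟩
    · rw [Finset.nonempty_iff_ne_empty]
      intro h0
      have h1 : P B = 0 := by rw [hI B hB, h0, Finset.sum_empty]
      have h2 := (hInE n K hK hn d D hG P hP 0 (fun B' => if B' = B then 1 else 0)
        (by rw [sum_ite _ _ hB, h1, zero_smul, sub_zero])).2 B hB
      simp at h2
    · rw [Finset.nonempty_iff_ne_empty]
      intro h0
      have h1 : P B = 1 := by rw [hI B hB, (Finset.compl_eq_empty_iff _).1 h0, hes]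
      have h2 := (hInE n K hK hn d D hG P hP 1 (fun B' => if B' = B then 1 else 0)
        (by rw [sum_ite _ _ hB, h1, one_smul, sub_self])).1
      exact one_ne_zero h2
  · intro i j hij
    exact hSepE n K hK hn d D hG P hP _ e he he0 heo I (fun B hB => hI B hB) i j hij

end ToricPB
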