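import Pool.Agent.Lib.MP_3d51eb_gt.NK.Spec2

set_option autoImplicit false

noncomputable section

namespace ToricPB

open Finset MvPolynomial

theorem tFrame (hBool : StBool) (hTf : StTf) (hComm : StComm) (hOp : StOpE) (hIn : StInE) :
    StFrame := by
  intro n K hK hn d D hG P hP
  have key : ∃ e : Fin ((necks K).card + 1) → Module.End ℤ (H2 K),
      (∀ i, e i ∈ {T : Module.End ℤ (H2 K) | T * T = T ∧ SA T}) ∧ (∀ i, e i ≠ 0) ∧
      (∀ i j, i ≠ j → e i * e j = 0) ∧ ∑ i, e i = 1 ∧
      ∀ f ∈ {T : Module.End ℤ (H2 K) | T * T = T ∧ SA T},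
        ∃ I : Finset (Fin ((necks K).card + 1)), f = ∑ i ∈ I, e i := by
    refine hBool (Module.End ℤ (H2 K)) (Finset (Vec n))
      {T | T * T = T ∧ SA T} (necks K) P ?_ ?_ ?_ ?_ ?_ ?_ ?_ ?_
    · intro N x hN hx
      apply LinearMap.ext
      intro y
      have h1 : N • (x y) = 0 := by
        have h := LinearMap.congr_fun hx y
        exact h
      have h2 : N • ((x y : H2 K) : Coh K) = 0 := by
        have h := congrArg (H2 K).subtype h1
        rw [map_zsmul, map_zero] at h
        exact h
      have h3 := hTf n K hK (by omega) _ (x y).2 N hN h2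
      exact Subtype.ext h3
    · exact ⟨one_mul 1, fun y z => rfl⟩
    · exact fun T hT => hT.1
    · rintro T ⟨h1, h2⟩
      refine ⟨?_, ?_⟩
      · rw [mul_sub, sub_mul, sub_mul, one_mul, mul_one, one_mul, h1]
        abel
      · intro y z
        have h := h2 y z
        show ((y : Coh K) - (T y : Coh K)) * (z : Coh K) = (y : Coh K) * ((z : Coh K) - (T z : Coh K))
        rw [sub_mul, mul_sub, h]
    · rintro T ⟨h1, h2⟩ S ⟨h3, h4⟩
      have hc := hComm n K hK hn T S h2 h4
      refine ⟨⟨?_, ?_⟩, hc⟩
      · calc T * S * (T * S) = T * (S * T) * S := by simp only [mul_assoc]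
          _ = T * (T * S) * S := by rw [hc]
          _ = (T * T) * (S * S) := by simp only [mul_assoc]
          _ = T * S := by rw [h1, h3]
      · intro y z
        have e1 := h2 (S y) z
        have e2 := h4 y (T z)
        have e3 : S (T z) = T (S z) := by
          have h := LinearMap.congr_fun hc z
          exact h.symm
        show (T (S y) : Coh K) * (z : Coh K) = (y : Coh K) * (T (S z) : Coh K)
        rw [e1, e2, e3]
    · rintro T ⟨h1, h2⟩
      exact hOp n K hK hn d D hG P hP T h1 h2
    · intro B hB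
      exact ⟨(hP B hB).1, (hP B hB).2.1⟩
    · intro F g h
      exact hIn n K hK hn d D hG P hP F g h
  obtain ⟨e, he1, he2, he3, he4, he5⟩ := key
  exact ⟨e, he1, he2, he3, he4, fun T h1 h2 => he5 T ⟨h1, h2⟩⟩

end ToricPB
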