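import Pool.Agent.Lib.MP_3d51eb_gt.NK.Spec

set_option autoImplicit false

/-!
# MP_3d51eb_gt, project NK, module G: the numbers g of a self-adjoint operator
-/

noncomputable section

namespace ToricPB

open Finset MvPolynomial

namespace G_nk

variable {n : ℕ} {K : Finset (Finset (Vec n))} {a : Vec n → Coh K}

/-- the products of `a v` with the other elements of `s` agree -/
theorem swap (ha : SelfAdj K a) {s : Finset (Vec n)} {v w : Vec n} (hv : v ∈ s) (hw : w ∈ s) :
    a v * mon K (s.erase v) = a w * mon K (s.erase w) := by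
  classical
  by_cases hvw : v = w
  · rw [hvw]
  have h1 : s.erase v = insert w ((s.erase v).erase w) :=
    (Finset.insert_erase (Finset.mem_erase.2 ⟨Ne.symm hvw, hw⟩)).symm
  have h2 : s.erase w = insert v ((s.erase v).erase w) := by
    rw [Finset.erase_right_comm]
    exact (Finset.insert_erase (Finset.mem_erase.2 ⟨hvw, hv⟩)).symm
  have h3 : mon K (s.erase v) = cls K w * mon K ((s.erase v).erase w) := by
    conv_lhs => rw [h1]
    exact mon_insert (Finset.notMem_erase _ _)
  have h4 : mon K (s.erase w) = cls K v * mon K ((s.erase v).erase w) := by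
    conv_lhs => rw [h2]
    refine mon_insert ?_
    rw [Finset.erase_right_comm]
    exact Finset.notMem_erase _ _
  rw [h3, h4, ← mul_assoc, ha.sa v w]
  ring

/-- the integer `N` is a possible value of `g s` -/
def Val (K : Finset (Finset (Vec n))) (a : Vec n → Coh K) (pt : Coh K) (s : Finset (Vec n))
    (N : ℤ) : Prop :=
  s.card = n ∧ (∀ w ∈ s, s.erase w ∈ K) ∧ ∀ v ∈ s, a v * mon K (s.erase v) = N • pt

open Classical in
/-- the function `g` -/
def gg (K : Finset (Finset (Vec n))) (a : Vec n → Coh K) (pt : Coh K) (s : Finset (Vec n)) : ℤ :=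
  if h : ∃ N, Val K a pt s N then h.choose else 0

theorem gg_spec {pt : Coh K} {s : Finset (Vec n)} (h : ∃ N, Val K a pt s N) :
    Val K a pt s (gg K a pt s) := by
  have h1 : gg K a pt s = h.choose := dif_pos h
  rw [h1]
  exact h.choose_spec

theorem gg_zero {pt : Coh K} {s : Finset (Vec n)} (h : ¬ ∃ N, Val K a pt s N) :
    gg K a pt s = 0 := dif_neg h

end G_nk

open G_nk in
theorem tG : StNear → StMul → StPt → StDeg → StG := by
  intro hNear hMul hPt hDeg n K hK hn a ha
  classical
  obtain ⟨σ0, hσ0, -, hcard, -⟩ := hNear n K hK Set.univ isOpen_univ ∅ hK.empty_mem _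
    (Set.mem_univ _) (InRel.one ∅)
  have hNT := hDeg n K hK σ0 hσ0 hcard
  refine ⟨gg K a (mon K σ0), ?_, ?_⟩
  · intro v ψ hψ τ p q b hW hv
    have hW' := hW
    obtain ⟨hτ, hτc, hp, hq, -, hpK, -, -, -⟩ := hW'
    have hpc : (insert p τ).card = n := by
      rw [Finset.card_insert_of_notMem hp]
      exact hτc
    have h1 : a v * mon K ((insert v τ).erase v) = bend ψ τ p q b • mon K σ0 := by
      rw [Finset.erase_insert hv, hψ, (hMul n K hK τ p q b hW).1 ψ,
        hPt n K hK (by omega) (insert p τ) hpK σ0 hσ0 hpc hcard]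
    have h2 : ∀ w ∈ insert v τ, a w * mon K ((insert v τ).erase w) =
        bend ψ τ p q b • mon K σ0 := by
      intro w hw
      rw [← h1]
      exact swap ha hw (Finset.mem_insert_self _ _)
    by_cases hall : ∀ w ∈ insert v τ, (insert v τ).erase w ∈ K
    · have hex : ∃ N, Val K a (mon K σ0) (insert v τ) N := by
        refine ⟨_, ?_, hall, h2⟩
        rw [Finset.card_insert_of_notMem hv]
        exact hτc
      have h3 := (gg_spec hex).2.2 v (Finset.mem_insert_self _ _)
      rw [h1] at h3
      have h4 : (bend ψ τ p q b - gg K a (mon K σ0) (insert v τ)) • mon K σ0 = 0 := by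
        rw [sub_smul, h3, sub_self]
      have h5 := hNT _ h4
      omega
    · have hnex : ¬ ∃ N, Val K a (mon K σ0) (insert v τ) N := fun ⟨N, hN⟩ => hall hN.2.1
      rw [gg_zero hnex]
      push Not at hall
      obtain ⟨w, hw, hwK⟩ := hall
      have h3 := h2 w hw
      rw [mon_eq_zero hwK, mul_zero] at h3
      exact hNT _ h3.symm
  · intro s hs
    have hex : ∃ N, Val K a (mon K σ0) s N := by
      by_contra h
      exact hs (gg_zero h)
    exact ⟨(gg_spec hex).1, (gg_spec hex).2.1⟩

end ToricPB
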