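import Pool.Agent.Lib.MP_3d51eb_gt.NK.Spec

set_option autoImplicit false

/-!
# MP_3d51eb_gt, project NK: choice of the data of the missing facets (helper93)
-/

noncomputable section

namespace ToricPB

open Finset MvPolynomial

theorem tGood : StMA → StMI → StGood := by
  intro hA hI n K hK hn
  have h : ∀ B : Finset (Vec n), ∃ e : ℤ × (Vec n → Vec n), B ∈ IM K → MI K B e.1 e.2 := by
    intro B
    by_cases hB : B ∈ IM K
    · obtain ⟨_, hm, hi⟩ := mem_IM.1 hB
      obtain ⟨d, D, hMA⟩ := hA n K hK (by omega) B hm hi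
      exact ⟨(d, D), fun _ => hI n K hK hn B d D hMA⟩
    · exact ⟨(0, 0), fun h => absurd h hB⟩
  choose e he using h
  exact ⟨fun B => (e B).1, fun B => (e B).2, fun B hB => he B hB⟩

end ToricPB
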