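import Pool.Agent.Lib.MP_3d51eb_gt.NK.Spec

set_option autoImplicit false

/-!
# MP_3d51eb_gt, project NK: idempotent operators (helper61)
-/

noncomputable section

namespace ToricPB

open Finset MvPolynomial

variable {n : ℕ}

namespace Id_nk

/-- the difference of two functions with the same class is linear -/
private lemma lin_of_cl (hClz : StClz) {K : Finset (Finset (Vec n))} (hK : IsFan K) (hn : 2 ≤ n)
    {ψ χ : Vec n → ℤ} (h : cl K ψ = cl K χ) : ∃ m : Vec n, ∀ v ∈ verts K, ψ v - χ v = pr m v := by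
  refine hClz n K hK hn (fun v => ψ v - χ v) ?_
  have h1 : cl K ψ = cl K (fun v => ψ v - χ v) + cl K χ := by
    rw [← cl_add]
    congr 1
    funext v
    ring
  rw [h] at h1
  exact (right_eq_add.1 h1)

/-- a form which is a nonnegative multiple of a nonnegative function on the shallow rays is zero -/
private lemma zero_of_nonneg (hShal : StShal) {K : Finset (Finset (Vec n))} (hK : IsFan K)
    (hn : 3 ≤ n) {d : Finset (Vec n) → ℤ} {D : Finset (Vec n) → Vec n → Vec n} (hG : Good K d D)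
    {m : Vec n} (h : ∀ r ∈ verts K, sh K r = ∅ → 0 ≤ pr m r) : m = 0 := by
  by_contra hm
  obtain ⟨r, hr, hs, hlt⟩ := hShal n K hK hn d D hG m hm
  exact absurd (h r hr hs) (not_le.2 hlt)

private lemma zero_of_sign (hShal : StShal) {K : Finset (Finset (Vec n))} (hK : IsFan K)
    (hn : 3 ≤ n) {d : Finset (Vec n) → ℤ} {D : Finset (Vec n) → Vec n → Vec n} (hG : Good K d D)
    {m : Vec n} (t : ℤ) (f : Vec n → ℤ) (hf : ∀ r, 0 ≤ f r)
    (h : ∀ r ∈ verts K, sh K r = ∅ → pr m r = t * f r) : m = 0 := by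
  rcases le_total 0 t with ht | ht
  · refine zero_of_nonneg hShal hK hn hG (fun r hr hs => ?_)
    rw [h r hr hs]
    exact mul_nonneg ht (hf r)
  · have h1 : -m = 0 := by
      refine zero_of_nonneg hShal hK hn hG (fun r hr hs => ?_)
      rw [pr_neg_left, h r hr hs]
      have := mul_nonneg (neg_nonneg.2 ht) (hf r)
      linarith
    exact neg_eq_zero.1 h1

private lemma hp_nonneg (h r : Vec n) : 0 ≤ hp h r := le_max_right _ _

private lemma del_self (v : Vec n) : del v v = 1 := by rw [del, if_pos rfl]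

private lemma del_nonneg (v w : Vec n) : 0 ≤ del v w := by
  rw [del]
  split_ifs <;> norm_num

private lemma sum_del {C : Finset (Vec n)} {c : Vec n} (hc : c ∈ C) : ∑ w ∈ C, del c w = 1 := by
  simp only [del]
  rw [Finset.sum_ite_eq' C c (fun _ => (1 : ℤ)), if_pos hc]

private lemma sq_cases {s : ℤ} (h : s * s = s) : s = 0 ∨ s = 1 := by
  have h1 : s * (s - 1) = 0 := by linear_combination h
  rcases mul_eq_zero.1 h1 with h2 | h2
  · exact Or.inl h2
  · exact Or.inr (by linarith)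

private lemma exists_shallow (hShal : StShal) {K : Finset (Finset (Vec n))} (hK : IsFan K)
    (hn : 3 ≤ n) {d : Finset (Vec n) → ℤ} {D : Finset (Vec n) → Vec n → Vec n} (hG : Good K d D) :
    ∃ r ∈ verts K, sh K r = ∅ := by
  have h1 : (fun _ => 1 : Vec n) ≠ 0 := by
    intro h
    have := congrFun h ⟨0, by omega⟩
    simp at this
  obtain ⟨r, hr, hs, -⟩ := hShal n K hK hn d D hG _ h1
  exact ⟨r, hr, hs⟩

/-- STEP 1 -/
private lemma step1 (hClz : StClz) (hWall : StWall) (hShal : StShal) (hCsh : StCsh) (hTri : StTri)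
    {K : Finset (Finset (Vec n))} (hK : IsFan K) (hn : 3 ≤ n) {d : Finset (Vec n) → ℤ}
    {D : Finset (Vec n) → Vec n → Vec n} (hG : Good K d D) (F κ : ℤ) (g : Finset (Vec n) → ℤ)
    (C : Finset (Vec n)) (h : Vec n) (hκ : κ = 0 ∨ CD K C h)
    (hid : ∀ ψ, cl K (op K d D F κ g C h (op K d D F κ g C h ψ)) = cl K (op K d D F κ g C h ψ)) :
    κ = 0 := by
  by_contra hκ0
  have hC : CD K C h := hκ.resolve_left hκ0
  obtain ⟨T1, -, -⟩ := hTri n K hK hn d D hG F κ g C h hκ
  have hCV : C ⊆ verts K := hC.mis.sub (by omega)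
  have hCs : ∀ c ∈ C, sh K c = ∅ := hCsh n K hK hn d D hG C h hC
  have hCh : ∀ c ∈ C, hp h c = 0 := fun c hc => by
    show max (pr h c) 0 = 0
    rw [hC.van c hc, max_self]
  have hne : C.Nonempty := by
    rw [← Finset.card_pos, hC.mis.1]
    omega
  obtain ⟨c0, hc0⟩ := hne
  obtain ⟨m, hm⟩ := lin_of_cl hClz hK (by omega) (hid (del c0))
  set ψ : Vec n → ℤ := del c0 with hψ
  set χ : Vec n → ℤ := op K d D F κ g C h ψ with hχ
  have hsψ : ∑ c ∈ C, ψ c = 1 := sum_del hc0
  have hχr : ∀ r ∈ verts K, sh K r = ∅ → χ r = F * ψ r + κ * hp h r := by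
    intro r hr hs
    rw [hχ, T1 ψ r hr hs, hsψ, mul_one]
  have hsχ : ∑ c ∈ C, χ c = F := by
    have h1 : ∀ c ∈ C, χ c = F * ψ c := fun c hc => by
      rw [hχr c (hCV hc) (hCs c hc), hCh c hc, mul_zero, add_zero]
    rw [Finset.sum_congr rfl h1, ← Finset.mul_sum, hsψ, mul_one]
  have hmr : ∀ r ∈ verts K, sh K r = ∅ →
      pr m r = (F * F - F) * ψ r + κ * (2 * F - 1) * hp h r := by
    intro r hr hs
    rw [← hm r hr, T1 χ r hr hs, hsχ, hχr r hr hs]
    ring
  have hF : F * F - F = 0 := by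
    have h1 : ∑ c ∈ C, pr m c = F * F - F := by
      have h2 : ∀ c ∈ C, pr m c = (F * F - F) * ψ c := fun c hc => by
        rw [hmr c (hCV hc) (hCs c hc), hCh c hc, mul_zero, add_zero]
      rw [Finset.sum_congr rfl h2, ← Finset.mul_sum, hsψ, mul_one]
    rw [← h1, ← pr_sum, hC.sum, pr_zero]
  have hmr' : ∀ r ∈ verts K, sh K r = ∅ → pr m r = κ * (2 * F - 1) * hp h r := by
    intro r hr hs
    rw [hmr r hr hs, hF, zero_mul, zero_add]
  have hm0 : m = 0 := zero_of_sign hShal hK hn hG (κ * (2 * F - 1)) (hp h) (hp_nonneg h) hmr'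
  have hh0 : h ≠ 0 := by
    intro h0
    obtain ⟨p, q, b, hw⟩ := hWall n K hK (C.erase c0) (hC.mis.erase hc0)
      (by rw [Finset.card_erase_of_mem hc0, hC.mis.1]; omega)
    have := hC.side c0 hc0 p q b hw
    rw [h0, pr_zero_left, pr_zero_left] at this
    omega
  obtain ⟨r, hr, hs, hlt⟩ := hShal n K hK hn d D hG (-h) (neg_ne_zero.2 hh0)
  rw [pr_neg_left] at hlt
  have hpos : 0 < hp h r := lt_of_lt_of_le (by linarith) (le_max_left (pr h r) 0)
  have h1 := hmr' r hr hs
  rw [hm0, pr_zero_left] at h1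
  rcases mul_eq_zero.1 h1.symm with h2 | h2
  · rcases mul_eq_zero.1 h2 with h3 | h3
    · exact hκ0 h3
    · omega
  · exact hpos.ne' h2

end Id_nk

open Id_nk in
/-- IDEMPOTENTS -/
theorem tId : StClz → StWall → StShal → StPair → StCsh → StTri → StId := by
  intro hClz hWall hShal hPair hCsh hTri n K hK hn d D hG F κ g C h hκ hid
  have hκ0 : κ = 0 := step1 hClz hWall hShal hCsh hTri hK hn hG F κ g C h hκ hid
  subst hκ0
  refine ⟨rfl, ?_⟩
  obtain ⟨T1, T2, T3⟩ := hTri n K hK hn d D hG F 0 g C h hκ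
  have H : ∀ ψ : Vec n → ℤ, ∃ m : Vec n, ∀ v ∈ verts K,
      op K d D F 0 g C h (op K d D F 0 g C h ψ) v - op K d D F 0 g C h ψ v = pr m v :=
    fun ψ => lin_of_cl hClz hK (by omega) (hid ψ)
  have hF : F * F = F := by
    obtain ⟨r0, hr0, hs0⟩ := exists_shallow hShal hK hn hG
    obtain ⟨m, hm⟩ := H (del r0)
    have hmr : ∀ r ∈ verts K, sh K r = ∅ → pr m r = (F * F - F) * del r0 r := by
      intro r hr hs
      rw [← hm r hr, T1 _ r hr hs, T1 _ r hr hs]
      ring
    have hm0 : m = 0 := zero_of_sign hShal hK hn hG (F * F - F) (del r0) (del_nonneg r0) hmr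
    have h1 := hmr r0 hr0 hs0
    rw [hm0, pr_zero_left, del_self, mul_one] at h1
    linarith
  have hss : ∀ p ∈ verts K, ss K d F g p = 0 ∨ ss K d F g p = 1 := by
    intro p hp
    refine sq_cases ?_
    by_cases hs : sh K p = ∅
    · rw [ss, hs, Finset.sum_empty, sub_zero]
      exact hF
    · obtain ⟨m, hm⟩ := H (del p)
      have h0 : ∀ v ∈ verts K, ¬ sh K p ⊆ sh K v → del p v = 0 := by
        intro v _ hv
        rw [del, if_neg]
        intro he
        rw [he] at hv
        exact hv (Finset.Subset.refl _)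
      obtain ⟨h1, h2⟩ := T2 p hp hs (del p) h0
      obtain ⟨h3, h4⟩ := T2 p hp hs _ h2
      have hm0 : m = 0 := by
        refine T3 p hp hs m (fun v hv hv' => ?_)
        rw [← hm v hv, h4 v hv hv', h2 v hv hv', sub_zero]
      have h5 := hm p hp
      rw [h3, h1, del_self, hm0, pr_zero_left, mul_one] at h5
      linarith
  intro B hB hgB
  obtain ⟨p, hp, p', hp', hB', hsp⟩ := hPair n K hK hn d D hG B hB
  have hd : 0 < d B := (hG B hB).pos
  have he : ss K d F g p = ss K d F g p' - g B * d B := by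
    rw [ss, ss, hsp, Finset.sum_insert hB']
    ring
  have h1 : g B * d B = ss K d F g p' - ss K d F g p := by linarith
  have h2 : |g B * d B| ≤ 1 := by
    rw [h1, abs_le]
    rcases hss p hp with h3 | h3 <;> rcases hss p' hp' with h4 | h4 <;> rw [h3, h4] <;> norm_num
  rw [abs_mul, abs_of_pos hd] at h2
  have h3 : 1 ≤ |g B| := Int.one_le_abs hgB
  nlinarith

end ToricPB
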