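import Pool.Agent.Lib.MP_3d51eb_gt.NK.Spec2

set_option autoImplicit false

/-!
# MP_3d51eb_gt, project NK: independence of the neck projections
-/

noncomputable section

namespace ToricPB

open Finset MvPolynomial

theorem tInE : StZo → StNk → StInE := by
  classical
  intro hZo hNk n K hK hn d D hG P hP F g h0
  set g' : Finset (Vec n) → ℤ := fun B => if B ∈ necks K then g B else 0 with hg'
  have hsub : necks K ⊆ IM K := fun B hB => ((hNk n K hK (by omega) d D hG B).1 hB).1
  have hd : ∀ B ∈ necks K, d B = 1 := fun B hB => ((hNk n K hK (by omega) d D hG B).1 hB).2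
  have key : ∀ ψ : Vec n → ℤ, cl K (op K d D F 0 g' ∅ 0 ψ) = 0 := by
    intro ψ
    have e1 : op K d D F 0 g' ∅ 0 ψ = fun w => F * ψ w -
        ∑ B ∈ necks K, g B * rop B 1 (D B) ψ w := by
      funext w
      have e2 : ∑ B ∈ IM K, g' B * rop B (d B) (D B) ψ w =
          ∑ B ∈ necks K, g B * rop B 1 (D B) ψ w := by
        rw [← Finset.sum_subset hsub (fun B _ hB => by rw [hg']; simp [hB])]
        exact Finset.sum_congr rfl (fun B hB => by rw [hg', hd B hB]; simp [hB])
      simp only [op, e2, zero_mul, add_zero]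
    have e3 : cl K (fun w => ∑ B ∈ necks K, g B * rop B 1 (D B) ψ w) =
        ∑ B ∈ necks K, g B • cl K (rop B 1 (D B) ψ) := by
      rw [cl_sum (K := K) (necks K) (fun B w => g B * rop B 1 (D B) ψ w)]
      exact Finset.sum_congr rfl (fun B _ => cl_smul _ _)
    rw [e1, cl_sub, cl_smul, e3]
    have h1 := congrArg (fun T : Module.End ℤ (H2 K) => ((T ⟨cl K ψ, cl_mem ψ⟩ : H2 K) : Coh K)) h0
    simp only [LinearMap.sub_apply, LinearMap.smul_apply, Module.End.one_apply,
      LinearMap.sum_apply, LinearMap.zero_apply, Submodule.coe_sub, Submodule.coe_smul,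
      Submodule.coe_sum, Submodule.coe_zero] at h1
    rw [← h1]
    congr 1
    exact Finset.sum_congr rfl (fun B hB => by rw [(hP B hB).2.2.1 ψ])
  obtain ⟨hF, hg⟩ := hZo n K hK hn d D hG F g' key
  refine ⟨hF, fun B hB => ?_⟩
  have := hg B (hsub hB)
  rw [hg'] at this
  simpa [hB] using this

end ToricPB
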