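import Pool.Agent.Lib.MP_3d51eb_gt.NK.Spec2

set_option autoImplicit false

/-!
# MP_3d51eb_gt, project NK: injectivity of the pull-backs, general form
-/

noncomputable section

namespace ToricPB

open Finset MvPolynomial

namespace Inj_nk

variable {n : ℕ} {K' : Finset (Finset (Vec n))} {B : Finset (Vec n)} {D : Vec n → Vec n}

private lemma cls_mon_out (h1 : ∀ v, v ∉ B → insert v B ∉ K') {v : Vec n} (hv : v ∉ B) :
    cls K' v * mon K' B = 0 := by
  rw [← mon_insert hv]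
  exact mon_eq_zero (h1 v hv)

private lemma cls_mon (h1 : ∀ v, v ∉ B → insert v B ∉ K') (hB : B ⊆ verts K')
    (hd : ∀ b ∈ B, pr (D b) b = 1) (ho : ∀ b ∈ B, ∀ b' ∈ B, b' ≠ b → pr (D b) b' = 0)
    (v : Vec n) : cls K' v * mon K' B = 0 := by
  by_cases hv : v ∈ B
  · have h2 : ∑ w ∈ verts K', pr (D v) w • (cls K' w * mon K' B) = 0 := by
      have h3 : (∑ w ∈ verts K', pr (D v) w • cls K' w) * mon K' B = 0 := by
        rw [lin_rel, zero_mul]
      rw [Finset.sum_mul] at h3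
      rw [← h3]
      exact Finset.sum_congr rfl (fun w _ => (smul_mul_assoc _ _ _).symm)
    rw [Finset.sum_eq_single v] at h2
    · rw [hd v hv, one_smul] at h2
      exact h2
    · intro w _ hwv
      by_cases hwB : w ∈ B
      · rw [ho v hv w hwB hwv, zero_smul]
      · rw [cls_mon_out h1 hwB, smul_zero]
    · intro hv'
      exact absurd (hB hv) hv'
  · exact cls_mon_out h1 hv

private lemma mul_mon (h1 : ∀ v, v ∉ B → insert v B ∉ K') (hB : B ⊆ verts K')
    (hd : ∀ b ∈ B, pr (D b) b = 1) (ho : ∀ b ∈ B, ∀ b' ∈ B, b' ≠ b → pr (D b) b' = 0)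
    (x : Coh K') : ∃ c : ℤ, x * mon K' B = c • mon K' B := by
  refine coh_induction (P := fun x => ∃ c : ℤ, x * mon K' B = c • mon K' B) ?_ ?_ ?_ ?_ x
  · intro c
    exact ⟨c, (zsmul_eq_mul _ _).symm⟩
  · intro v
    exact ⟨0, by rw [cls_mon h1 hB hd ho, zero_smul]⟩
  · rintro x y ⟨c, hc⟩ ⟨e, he⟩
    exact ⟨c + e, by rw [add_mul, hc, he, add_smul]⟩
  · rintro x y ⟨c, hc⟩ ⟨e, he⟩
    exact ⟨e * c, by rw [mul_assoc, he, mul_smul_comm, hc, mul_smul]⟩

end Inj_nk

theorem tInj : StInj := by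
  intro n K K' B D ι θ h1 hB hd ho hθ hnt
  rw [injective_iff_map_eq_zero]
  intro x hx
  have h3 := hθ x
  rw [hx, map_zero] at h3
  have h4 : x ∈ (Ideal.span {mon K' B} : Ideal (Coh K')) :=
    Ideal.Quotient.eq_zero_iff_mem.1 h3.symm
  obtain ⟨y, rfl⟩ := Ideal.mem_span_singleton'.1 h4
  obtain ⟨c, hc⟩ := Inj_nk.mul_mon h1 hB hd ho y
  rw [hc] at hx ⊢
  rw [map_zsmul] at hx
  rw [hnt c hx, zero_smul]

end ToricPB
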