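import Pool.Agent.Lib.MP_3d51eb_gt.NK.Spec

set_option autoImplicit false

/-!
# MP_3d51eb_gt, project NK: algebraic data of an independent missing facet (helper73)
-/

noncomputable section

namespace ToricPB

open Finset MvPolynomial

variable {n : ℕ}

namespace MA_nk

/-- The data at one element of `B`, up to sign. -/
private theorem key0 (hDual : StDual) (hWall : StWall) {K : Finset (Finset (Vec n))} (hK : IsFan K)
    {B : Finset (Vec n)} (hB : Mis K B) (hI : Ind B) {b : Vec n} (hb : b ∈ B) :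
    ∃ (u p q : Vec n) (c : Vec n → ℤ), Wall K (B.erase b) p q c ∧ (∀ v ∈ B.erase b, pr u v = 0) ∧
      pr u b ≠ 0 ∧ pr u p = 1 ∧ pr u q = -1 ∧
      ∀ y : Vec n, ∃ c' : Vec n → ℤ, (pr u b) • y = ∑ v ∈ B, c' v • v := by
  classical
  have hcard : (B.erase b).card + 1 = n := by rw [Finset.card_erase_add_one hb, hB.1]
  obtain ⟨p, q, c, hW⟩ := hWall n K hK (B.erase b) (hB.erase hb) hcard
  have hp : p ∉ B.erase b := hW.2.2.1
  have hpK : insert p (B.erase b) ∈ K := hW.2.2.2.2.2.1
  have hrel : p + q + ∑ v ∈ B.erase b, c v • v = 0 := hW.2.2.2.2.2.2.2.2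
  obtain ⟨-, h1, -, h3⟩ := hDual n (insert p (B.erase b)) (hK.smooth _ hpK)
  obtain ⟨h3, -⟩ := h3 (by rw [Finset.card_insert_of_notMem hp, hcard])
  obtain ⟨u, hup, hu⟩ := h1 p (Finset.mem_insert_self _ _)
  have hu0 : ∀ v ∈ B.erase b, pr u v = 0 := fun v hv =>
    hu v (Finset.mem_insert_of_mem hv) (ne_of_mem_of_not_mem hv hp)
  have hsum0 : ∀ e : Vec n → ℤ, pr u (∑ v ∈ B.erase b, e v • v) = 0 := by
    intro e
    rw [pr_sum]
    exact Finset.sum_eq_zero fun v hv => by rw [pr_smul, hu0 v hv, mul_zero]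
  have huq : pr u q = -1 := by
    have h4 := congrArg (pr u) hrel
    rw [pr_add, pr_add, hsum0, hup, pr_zero] at h4
    linarith
  obtain ⟨f, hf⟩ := h3 b
  rw [Finset.sum_insert hp] at hf
  have hub : pr u b = f p := by
    have h4 := congrArg (pr u) hf
    rw [pr_add, hsum0, pr_smul, hup] at h4
    linarith
  refine ⟨u, p, q, c, hW, hu0, ?_, hup, huq, fun y => ?_⟩
  · intro h0
    rw [hub] at h0
    rw [h0, zero_smul, zero_add] at hf
    have h5 : lin B (fun v => ((if v = b then (-1 : ℤ) else f v : ℤ) : ℝ)) = 0 := by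
      rw [lin_int, ← Finset.add_sum_erase _ _ hb, if_pos rfl]
      have h6 : ∑ v ∈ B.erase b, (if v = b then (-1 : ℤ) else f v) • v = ∑ v ∈ B.erase b, f v • v :=
        Finset.sum_congr rfl fun v hv => by rw [if_neg (Finset.ne_of_mem_erase hv)]
      rw [h6, ← hf]
      have h7 : (-1 : ℤ) • b + b = 0 := by rw [neg_smul, one_smul, neg_add_cancel]
      rw [h7, toR_zero]
    have h8 := hI _ h5 b hb
    simp at h8
  · obtain ⟨e, he⟩ := h3 y
    rw [Finset.sum_insert hp] at he
    refine ⟨fun v => if v = b then e p else f p * e v - e p * f v, ?_⟩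
    rw [← Finset.add_sum_erase _ _ hb]
    simp only [if_true]
    have h6 : ∑ v ∈ B.erase b, (if v = b then e p else f p * e v - e p * f v) • v =
        f p • ∑ v ∈ B.erase b, e v • v - e p • ∑ v ∈ B.erase b, f v • v := by
      rw [Finset.smul_sum, Finset.smul_sum, ← Finset.sum_sub_distrib]
      refine Finset.sum_congr rfl fun v hv => ?_
      rw [if_neg (Finset.ne_of_mem_erase hv), sub_smul, mul_smul, mul_smul]
    rw [h6, hub]
    have h7 : ∑ v ∈ B.erase b, f v • v = b - f p • p := by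
      conv_rhs => rw [hf]
      abel
    have h8 : ∑ v ∈ B.erase b, e v • v = y - e p • p := by
      rw [he]
      abel
    rw [h7, h8, smul_sub, smul_sub, smul_smul, smul_smul, mul_comm (e p) (f p)]
    abel

/-- The data at one element of `B`. -/
private theorem key1 (hDual : StDual) (hWall : StWall) {K : Finset (Finset (Vec n))} (hK : IsFan K)
    {B : Finset (Vec n)} (hB : Mis K B) (hI : Ind B) (b : Vec n) :
    ∃ u : Vec n, b ∈ B → ((∀ v ∈ B.erase b, pr u v = 0) ∧ 0 < pr u b ∧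
      (∀ p q c, Wall K (B.erase b) p q c → pr u p = 1 ∨ pr u p = -1) ∧
      ∀ y : Vec n, ∃ c' : Vec n → ℤ, (pr u b) • y = ∑ v ∈ B, c' v • v) := by
  by_cases hb : b ∈ B
  · obtain ⟨u, p, q, c, hW, h0, hne, hp, hq, hy⟩ := key0 hDual hWall hK hB hI hb
    have hun : ∀ p' q' c', Wall K (B.erase b) p' q' c' → p' = p ∨ p' = q := by
      intro p' q' c' hW'
      exact hW.2.2.2.2.2.2.2.1 p' hW'.2.2.1 hW'.2.2.2.2.2.1
    rcases lt_or_gt_of_ne hne with h | h
    · refine ⟨-u, fun _ => ⟨fun v hv => ?_, ?_, fun p' q' c' hW' => ?_, fun y => ?_⟩⟩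
      · rw [pr_neg_left, h0 v hv, neg_zero]
      · rw [pr_neg_left]
        omega
      · rcases hun p' q' c' hW' with rfl | rfl
        · right
          rw [pr_neg_left, hp]
        · left
          rw [pr_neg_left, hq, neg_neg]
      · obtain ⟨c', hc'⟩ := hy y
        refine ⟨fun v => -c' v, ?_⟩
        rw [pr_neg_left, neg_smul, hc', ← Finset.sum_neg_distrib]
        exact Finset.sum_congr rfl fun v _ => by rw [neg_smul]
    · refine ⟨u, fun _ => ⟨h0, h, fun p' q' c' hW' => ?_, hy⟩⟩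
      rcases hun p' q' c' hW' with rfl | rfl
      · exact Or.inl hp
      · exact Or.inr hq
  · exact ⟨0, fun h => absurd h hb⟩

end MA_nk

theorem tMA : StDual → StWall → StMA := by
  classical
  intro hDual hWall n K hK hn B hB hI
  choose D hD using MA_nk.key1 hDual hWall hK hB hI
  have hoff : ∀ b ∈ B, ∀ b' ∈ B, b' ≠ b → pr (D b) b' = 0 := fun b hb b' hb' hne =>
    (hD b hb).1 b' (Finset.mem_erase.2 ⟨hne, hb'⟩)
  have happ : ∀ b ∈ B, ∀ c : Vec n → ℤ, pr (D b) (∑ v ∈ B, c v • v) = c b * pr (D b) b := by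
    intro b hb c
    rw [pr_sum, Finset.sum_eq_single b]
    · rw [pr_smul]
    · intro v hv hne
      rw [pr_smul, hoff b hb v hv hne, mul_zero]
    · intro h
      exact absurd hb h
  have hdvd : ∀ b ∈ B, ∀ b' ∈ B, pr (D b') b' ∣ pr (D b) b := by
    intro b hb b' hb'
    obtain ⟨p, q, c, hW⟩ := hWall n K hK (B.erase b') (hB.erase hb')
      (by rw [Finset.card_erase_add_one hb', hB.1])
    obtain ⟨c', hc'⟩ := (hD b hb).2.2.2 p
    have h1 := congrArg (pr (D b')) hc'
    rw [pr_smul, happ b' hb'] at h1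
    rcases (hD b' hb').2.2.1 p q c hW with h | h
    · rw [h, mul_one] at h1
      exact ⟨c' b', by rw [h1, mul_comm]⟩
    · rw [h, mul_neg, mul_one] at h1
      exact ⟨-c' b', by linarith⟩
  obtain ⟨b0, hb0⟩ : B.Nonempty := by
    rw [← Finset.card_pos, hB.1]
    exact hn
  obtain ⟨d, hd⟩ : ∃ d : ℤ, d = pr (D b0) b0 := ⟨_, rfl⟩
  have hpos : 0 < d := by
    rw [hd]
    exact (hD b0 hb0).2.1
  have hdiag : ∀ b ∈ B, pr (D b) b = d := by
    intro b hb
    rw [hd]
    exact Int.dvd_antisymm (hD b hb).2.1.le (hD b0 hb0).2.1.le (hdvd b0 hb0 b hb) (hdvd b hb b0 hb0)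
  have hspan : ∀ v : Vec n, d • v = ∑ b ∈ B, pr (D b) v • b := by
    intro v
    obtain ⟨c, hc⟩ := (hD b0 hb0).2.2.2 v
    rw [← hd] at hc
    rw [hc]
    refine Finset.sum_congr rfl fun b hb => ?_
    have h1 := congrArg (pr (D b)) hc
    rw [pr_smul, happ b hb, hdiag b hb, mul_comm] at h1
    rw [mul_right_cancel₀ hpos.ne' h1]
  have hspanR : ∀ x : Fin n → ℝ, (d : ℝ) • x = lin B (fun b => dot (toR (D b)) x) := by
    intro x
    funext i
    have h1 : ∀ j : Fin n, (d : ℝ) * (if i = j then 1 else 0) = ∑ b ∈ B, (D b j : ℝ) * (b i : ℝ) := by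
      intro j
      have h2 := congrFun (hspan (Pi.single j 1)) i
      have h3 : ∀ b : Vec n, pr (D b) (Pi.single j 1) = D b j := by
        intro b
        simp [pr, Pi.single_apply]
      simp only [h3, Pi.smul_apply, smul_eq_mul, Finset.sum_apply, Pi.single_apply] at h2
      exact_mod_cast h2
    have h4 : (d : ℝ) * x i = ∑ j, ((d : ℝ) * (if i = j then 1 else 0)) * x j := by
      simp
    rw [Pi.smul_apply, smul_eq_mul, h4]
    simp only [h1, lin, Finset.sum_apply, Pi.smul_apply, smul_eq_mul, dot, toR, Finset.sum_mul]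
    rw [Finset.sum_comm]
    refine Finset.sum_congr rfl fun b _ => Finset.sum_congr rfl fun j _ => ?_
    ring
  have hdR : (0 : ℝ) < d := by exact_mod_cast hpos
  have hval : ∀ c : Vec n → ℝ, ∀ b ∈ B, dot (toR (D b)) (lin B c) = c b * d := by
    intro c b hb
    rw [dot_lin, Finset.sum_eq_single b]
    · rw [dot_toR, hdiag b hb]
    · intro v hv hne
      rw [dot_toR, hoff b hb v hv hne, Int.cast_zero, mul_zero]
    · intro h
      exact absurd hb h
  have hinv : ∀ x : Fin n → ℝ, x = lin B (fun b => (d : ℝ)⁻¹ * dot (toR (D b)) x) := by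
    intro x
    rw [lin_smul, ← hspanR, smul_smul, inv_mul_cancel₀ hdR.ne', one_smul]
  refine ⟨d, D, ⟨hB, hpos, hdiag, hoff, fun b hb => (hD b hb).2.2.1, hspan, hspanR, fun x => ?_,
    fun x => ?_⟩⟩
  · constructor
    · rintro ⟨c, hc, rfl⟩ b hb
      rw [hval c b hb]
      exact mul_pos (hc b hb) hdR
    · intro h
      exact ⟨_, fun v hv => mul_pos (inv_pos.2 hdR) (h v hv), hinv x⟩
  · constructor
    · rintro ⟨c, hc, rfl⟩ b hb
      rw [hval c b hb]
      exact mul_nonneg (hc b hb) hdR.le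
    · intro h
      exact ⟨_, fun v hv => mul_nonneg (inv_pos.2 hdR).le (h v hv), hinv x⟩

end ToricPB
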