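import Pool.Agent.Lib.MP_3d51eb_gt.NK.Spec

set_option autoImplicit false

/-!
# MP_3d51eb_gt, project NK: position of the other rays (module MI, helper71)
-/

noncomputable section

namespace ToricPB

open Finset MvPolynomial

namespace MI_nk

variable {n : ℕ} {K : Finset (Finset (Vec n))} {B : Finset (Vec n)} {d : ℤ} {D : Vec n → Vec n}

private lemma small (B : Finset (Vec n)) (f : Vec n → ℤ) :
    ∃ ε : ℝ, 0 < ε ∧ ∀ b ∈ B, -1 < ε * (f b : ℝ) := by
  have h0 : (0 : ℝ) ≤ ∑ b ∈ B, |(f b : ℝ)| := Finset.sum_nonneg (fun b _ => abs_nonneg _)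
  refine ⟨1 / (1 + ∑ b ∈ B, |(f b : ℝ)|), by positivity, fun b hb => ?_⟩
  have h1 : |(f b : ℝ)| ≤ ∑ b ∈ B, |(f b : ℝ)| :=
    Finset.single_le_sum (f := fun b => |(f b : ℝ)|) (fun b _ => abs_nonneg _) hb
  have h2 := neg_abs_le (f b : ℝ)
  rw [one_div, inv_mul_eq_div, lt_div_iff₀ (by linarith)]
  linarith

private lemma noB (hn : 2 ≤ n) (hB : MA K B d D) : ∀ b ∈ B, ¬ InRel B (toR b) := by
  intro b hb h
  have hc : 1 < B.card := by rw [hB.mis.1]; omega
  obtain ⟨b', hb', hne⟩ := Finset.exists_mem_ne hc b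
  have h1 := (hB.rel' b).1 h b' hb'
  rw [hB.off b' hb' b hb hne.symm] at h1
  exact lt_irrefl _ h1

private lemma bdry (hK : IsFan K) (hB : MA K B d D) :
    ∀ v ∈ verts K, InCone B (toR v) → v ∈ B ∨ InRel B (toR v) := by
  classical
  intro v hv hc
  by_contra hcon
  push Not at hcon
  obtain ⟨hvB, hr⟩ := hcon
  have hc' := (hB.cone' v).1 hc
  set t := B.filter (fun b => 0 < pr (D b) v) with ht
  have htB : t ⊂ B := by
    rw [Finset.ssubset_iff_subset_ne]
    refine ⟨Finset.filter_subset _ _, fun h => hr ?_⟩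
    rw [hB.rel']
    intro b hb
    rw [← h] at hb
    exact (Finset.mem_filter.1 hb).2
  have htK : t ∈ K := hB.mis.2.2 t htB
  have hd : (0 : ℝ) < (d : ℝ) := by exact_mod_cast hB.pos
  have hrel : InRel t (toR v) := by
    refine ⟨fun b => (pr (D b) v : ℝ) / (d : ℝ), fun b hb => ?_, ?_⟩
    · have h1 : (0 : ℝ) < (pr (D b) v : ℝ) := by exact_mod_cast (Finset.mem_filter.1 hb).2
      exact div_pos h1 hd
    · have h1 := hB.spanR (toR v)
      simp only [dot_toR] at h1
      have h2 : lin B (fun b => (pr (D b) v : ℝ) / (d : ℝ)) = toR v := by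
        have h3 : (fun b => (pr (D b) v : ℝ) / (d : ℝ)) = fun b => (d : ℝ)⁻¹ * (pr (D b) v : ℝ) := by
          funext b
          rw [div_eq_mul_inv, mul_comm]
        rw [h3, lin_smul, ← h1, smul_smul, inv_mul_cancel₀ hd.ne', one_smul]
      rw [← h2]
      refine lin_subset htB.1 _ (fun b hb hbt => ?_)
      have h3 : pr (D b) v = 0 := by
        refine le_antisymm (not_lt.1 fun h => hbt ?_) (hc' b hb)
        exact Finset.mem_filter.2 ⟨hb, h⟩
      rw [h3]
      simp
  have h4 : t = {v} := hK.uniq htK (hK.single hv) hrel (InRel.singleton v)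
  have h5 : v ∈ t := by rw [h4]; exact Finset.mem_singleton_self v
  exact hvB (htB.1 h5)

private lemma adj (hX : StX) (hK : IsFan K) (hB : MA K B d D) :
    ∀ v w, InRel B (toR v) → {v, w} ∈ K → w ∈ B ∨ InRel B (toR w) := by
  classical
  intro v w hv hvw
  by_cases hwv : w = v
  · right
    rw [hwv]
    exact hv
  obtain ⟨ε, hε, hf⟩ := small B (fun b => pr (D b) w)
  have h1 : InRel {v, w} (toR v + ε • toR w) := by
    refine ⟨fun u => if u = v then 1 else ε, fun u _ => ?_, ?_⟩
    · show 0 < (if u = v then (1 : ℝ) else ε)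
      split_ifs
      · exact one_pos
      · exact hε
    · have h2 : v ∉ ({w} : Finset (Vec n)) := by
        rw [Finset.mem_singleton]
        exact fun h => hwv h.symm
      rw [lin_insert h2, lin_singleton, if_pos rfl, if_neg hwv, one_smul]
  have h2 : InRel B (toR v + ε • toR w) := by
    rw [hB.rel]
    intro b hb
    rw [dot_add, dot_smul, dot_toR, dot_toR]
    have h3 : (1 : ℝ) ≤ (pr (D b) v : ℝ) := by
      have := (hB.rel' v).1 hv b hb
      exact_mod_cast this
    have h4 := hf b hb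
    linarith
  exact (hX n K hK B d D hB _ hvw _ h1 h2).1 w (by simp)

private lemma sideAux (hX : StX) (hK : IsFan K) (hn : 2 ≤ n) (hB : MA K B d D) {b : Vec n}
    (hb : b ∈ B) {r : Vec n} (hr : r ∉ B.erase b) (hrK : insert r (B.erase b) ∈ K)
    (h1 : pr (D b) r = 1) : InRel B (toR r) := by
  classical
  obtain ⟨ε, hε, hf⟩ := small B (fun b => pr (D b) r)
  have h2 : InRel (insert r (B.erase b)) (ε • toR r + lin (B.erase b) (fun _ => (1 : ℝ))) := by
    refine ⟨fun u => if u = r then ε else 1, fun u _ => ?_, ?_⟩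
    · show 0 < (if u = r then ε else (1 : ℝ))
      split_ifs
      · exact hε
      · exact one_pos
    · rw [lin_insert hr, if_pos rfl]
      congr 1
      refine lin_congr (fun v hv => ?_)
      rw [if_neg (ne_of_mem_of_not_mem hv hr)]
  have h3 : InRel B (ε • toR r + lin (B.erase b) (fun _ => (1 : ℝ))) := by
    rw [hB.rel]
    intro b' hb'
    rw [dot_add, dot_smul, dot_toR, dot_lin]
    simp only [dot_toR, one_mul]
    by_cases hbb : b' = b
    · subst hbb
      have h4 : ∑ v ∈ B.erase b', (pr (D b') v : ℝ) = 0 := by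
        refine Finset.sum_eq_zero (fun v hv => ?_)
        rw [hB.off b' hb' v (Finset.mem_of_mem_erase hv) (Finset.ne_of_mem_erase hv)]
        simp
      rw [h4, h1]
      simpa using hε
    · have h4 : ∑ v ∈ B.erase b, (pr (D b') v : ℝ) = (d : ℝ) := by
        rw [Finset.sum_eq_single b']
        · rw [hB.diag b' hb']
        · intro v hv hvb
          rw [hB.off b' hb' v (Finset.mem_of_mem_erase hv) hvb]
          simp
        · intro h
          exact absurd (Finset.mem_erase.2 ⟨hbb, hb'⟩) h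
      have h5 : (1 : ℝ) ≤ (d : ℝ) := by exact_mod_cast hB.pos
      have h6 := hf b' hb'
      rw [h4]
      linarith
  obtain ⟨v, hv, hvr⟩ := (hX n K hK B d D hB _ hrK _ h2 h3).2
  rcases Finset.mem_insert.1 hv with h | h
  · rw [← h]
    exact hvr
  · exact absurd hvr (noB hn hB v (Finset.mem_of_mem_erase h))

end MI_nk

open MI_nk in
/-- **StMI** -/
theorem tMI : StX → StMI := by
  intro hX n K hK hn B d D hB
  have hno := noB hn hB
  refine ⟨hB, hB.mis.sub hn, hno, bdry hK hB, adj hX hK hB, ?_⟩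
  intro b hb p q c hW
  have hw := hB.wall b hb p q c hW
  obtain ⟨-, -, hp, hq, -, hpK, hqK, -, hrel⟩ := hW
  have h1 : pr (D b) p + pr (D b) q = 0 := by
    have h2 := congrArg (pr (D b)) hrel
    rw [pr_add, pr_add, pr_sum, pr_zero] at h2
    have h3 : ∑ v ∈ B.erase b, pr (D b) (c v • v) = 0 := by
      refine Finset.sum_eq_zero (fun v hv => ?_)
      rw [pr_smul, hB.off b hb v (Finset.mem_of_mem_erase hv) (Finset.ne_of_mem_erase hv), mul_zero]
    rw [h3, add_zero] at h2
    exact h2
  rcases hw with h2 | h2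
  · left
    refine ⟨sideAux hX hK hn hB hb hp hpK h2, h2, fun h => ?_⟩
    have h3 := (hB.rel' q).1 h b hb
    omega
  · right
    have h3 : pr (D b) q = 1 := by omega
    refine ⟨sideAux hX hK hn hB hb hq hqK h3, h3, fun h => ?_⟩
    have h4 := (hB.rel' p).1 h b hb
    omega

end ToricPB
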