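import Pool.Agent.Lib.MP_3d51eb_gt.NK.Spec2

set_option autoImplicit false

/-!
# MP_3d51eb_gt, project NK, module Nd (helper26): the two parts of `H2` at a neck
-/

noncomputable section

namespace ToricPB

open Finset MvPolynomial

namespace Nd_nk

variable {n : ℕ}

lemma inCone_of_mem {B : Finset (Vec n)} {w : Vec n} (hw : w ∈ B) : InCone B (toR w) := by
  classical
  refine ⟨fun v => if v = w then 1 else 0, fun v _ => ?_, (lin_single hw).symm⟩
  show (0 : ℝ) ≤ if v = w then 1 else 0
  split_ifs <;> norm_num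

lemma inCone_of_rel {B : Finset (Vec n)} {x : Fin n → ℝ} (h : InRel B x) : InCone B x := by
  obtain ⟨c, hc, hx⟩ := h
  exact ⟨c, fun v hv => (hc v hv).le, hx⟩

end Nd_nk

theorem tNd : StNd := by
  classical
  intro n K hK B D hB
  have h1 : ∀ ψ : Vec n → ℤ, cl K (rop B 1 D ψ) ∈ inner K B := by
    intro ψ
    refine Submodule.sum_mem _ (fun v hv => ?_)
    by_cases h : InRel B (toR v)
    · exact Submodule.smul_mem _ _ (Submodule.subset_span ⟨v, hv, h, rfl⟩)
    · have h0 : rop B 1 D ψ v = 0 := by
        simp only [rop]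
        rw [if_neg h]
      rw [h0, zero_smul]
      exact Submodule.zero_mem _
  have h2 : ∀ ψ : Vec n → ℤ, cl K (fun v => ψ v - rop B 1 D ψ v) ∈ outer K B := by
    intro ψ
    rw [← cl_sub_pr (fun v => ψ v - rop B 1 D ψ v) (∑ b ∈ B, ψ b • D b)]
    refine Submodule.sum_mem _ (fun v hv => ?_)
    by_cases h : InCone B (toR v)
    · have hm : pr (∑ b ∈ B, ψ b • D b) v = ∑ b ∈ B, pr (D b) v * ψ b := by
        rw [pr_sum_left]
        exact Finset.sum_congr rfl (fun b _ => by rw [pr_smul_left]; ring)
      have h0 : ψ v - rop B 1 D ψ v - pr (∑ b ∈ B, ψ b • D b) v = 0 := by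
        by_cases hr : InRel B (toR v)
        · have hrop : rop B 1 D ψ v = 1 * ψ v - ∑ b ∈ B, pr (D b) v * ψ b := by
            simp only [rop]
            rw [if_pos hr]
          rw [hrop, hm]
          ring
        · have hvB : v ∈ B := (hB.bdry v hv h).resolve_right hr
          have hrop : rop B 1 D ψ v = 0 := by
            simp only [rop]
            rw [if_neg hr]
          rw [hrop, hm, Finset.sum_eq_single_of_mem v hvB]
          · rw [hB.diag v hvB]
            ring
          · intro b hb hbv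
            rw [hB.off b hb v hvB (Ne.symm hbv), zero_mul]
      show (ψ v - rop B 1 D ψ v - pr (∑ b ∈ B, ψ b • D b) v) • cls K v ∈ outer K B
      rw [h0, zero_smul]
      exact Submodule.zero_mem _
    · exact Submodule.smul_mem _ _ (Submodule.subset_span ⟨v, hv, h, rfl⟩)
  refine ⟨h1, h2, ?_, ?_⟩
  · intro y hy
    refine Submodule.span_induction (p := fun y _ => ∀ z ∈ outer K B, y * z = 0) ?_ ?_ ?_ ?_ hy
    · rintro _ ⟨v, hv, hvr, rfl⟩ z hz
      refine Submodule.span_induction (p := fun z _ => cls K v * z = 0) ?_ ?_ ?_ ?_ hz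
      · rintro _ ⟨w, hw, hwc, rfl⟩
        refine cls_mul_eq_zero (fun h => hwc (h ▸ Nd_nk.inCone_of_rel hvr)) (fun h => hwc ?_)
        rcases hB.adj v w hvr h with h | h
        · exact Nd_nk.inCone_of_mem h
        · exact Nd_nk.inCone_of_rel h
      · rw [mul_zero]
      · intro x y _ _ hx hy
        rw [mul_add, hx, hy, add_zero]
      · intro c x _ hx
        rw [mul_smul_comm, hx, smul_zero]
    · intro z _
      rw [zero_mul]
    · intro x y _ _ hx hy z hz
      rw [add_mul, hx z hz, hy z hz, add_zero]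
    · intro c x _ hx z hz
      rw [smul_mul_assoc, hx z hz, smul_zero]
  · refine le_antisymm (sup_le ?_ ?_) ?_
    · refine Submodule.span_le.2 ?_
      rintro _ ⟨v, -, -, rfl⟩
      exact cls_mem v
    · refine Submodule.span_le.2 ?_
      rintro _ ⟨v, -, -, rfl⟩
      exact cls_mem v
    · intro y hy
      obtain ⟨ψ, rfl⟩ := exists_cl hy
      have h3 : cl K ψ = cl K (rop B 1 D ψ) + cl K (fun v => ψ v - rop B 1 D ψ v) := by
        rw [← cl_add]
        exact cl_congr (fun v _ => by ring)
      rw [h3]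
      exact Submodule.add_mem_sup (h1 ψ) (h2 ψ)

end ToricPB
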