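import Pool.Agent.Lib.MP_3d51eb_gt.NK.Spec

set_option autoImplicit false

/-!
# Nest1: nesting (1)
-/

noncomputable section

namespace ToricPB

open Finset MvPolynomial

theorem tNest1 : StNest1 := by
  intro n K hK hn B hB B' d' D' hB' b hb hbi x hx
  obtain ⟨c, hc, rfl⟩ := hx
  rw [hB'.rel]
  intro β hβ
  rw [dot_lin]
  simp only [dot_toR]
  have hnn : ∀ v ∈ B, 0 ≤ pr (D' β) v := by
    intro v hv
    rcases hB'.adj b v hbi (hB.pair hn hb hv) with h | h
    · by_cases h1 : v = β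
      · rw [h1, hB'.diag β hβ]
        exact hB'.pos.le
      · rw [hB'.off β hβ v h h1]
    · exact ((hB'.toMA.rel' v).1 h β hβ).le
  have hpos : 0 < pr (D' β) b := (hB'.toMA.rel' b).1 hbi β hβ
  refine Finset.sum_pos' (fun v hv => ?_) ⟨b, hb, ?_⟩
  · exact mul_nonneg (hc v hv).le (by exact_mod_cast hnn v hv)
  · exact mul_pos (hc b hb) (by exact_mod_cast hpos)

end ToricPB
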