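import Pool.Agent.Lib.MP_3d51eb_gt.NK.Spec2

set_option autoImplicit false

/-!
# MP_3d51eb_gt, project NK: necks are the missing facets of index one (author helper53)
-/

noncomputable section

namespace ToricPB

open Finset MvPolynomial

theorem tNk : StDual → StUniOf → StWall → StNk := by
  intro hD hU hW n K hK hn d D hG B
  constructor
  · intro hB
    obtain ⟨hs, hc, hu, hnK, hsub⟩ := mem_necks.1 hB
    obtain ⟨-, -, hind, hspan⟩ := hD n B hu
    have hIM : B ∈ IM K := mem_IM.2 ⟨hs, ⟨hc, hnK, hsub⟩, hind⟩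
    have hMI := hG B hIM
    refine ⟨hIM, ?_⟩
    have hne : B.Nonempty := by
      rw [← Finset.card_pos, hc]
      omega
    obtain ⟨b, hb⟩ := hne
    have he : B.erase b ∈ K := hMI.mis.erase hb
    have hce : (B.erase b).card + 1 = n := by
      rw [Finset.card_erase_add_one hb, hc]
    obtain ⟨p, q, c, hw⟩ := hW n K hK _ he hce
    have h1 := hMI.wall b hb p q c hw
    obtain ⟨e, he'⟩ := (hspan hc).1 p
    have h2 : pr (D B b) p = e b * d B := by
      conv_lhs => rw [he']
      rw [pr_sum, Finset.sum_eq_single b]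
      · rw [pr_smul, hMI.diag b hb]
      · intro v hv hvb
        rw [pr_smul, hMI.off b hb v hv hvb, mul_zero]
      · intro h
        exact absurd hb h
    rw [h2] at h1
    have h3 : d B ∣ 1 := by
      rcases h1 with h | h
      · exact ⟨e b, by rw [mul_comm]; exact h.symm⟩
      · exact ⟨-e b, by rw [mul_neg, mul_comm, h]; ring⟩
    have h4 := Int.le_of_dvd one_pos h3
    have h5 := hMI.pos
    omega
  · rintro ⟨hB, hd⟩
    obtain ⟨hs, hm, -⟩ := mem_IM.1 hB
    have hMI := hG B hB
    refine mem_necks.2 ⟨hs, hm.1, ?_, hm.2.1, hm.2.2⟩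
    refine hU n B hm.1 (fun y => ⟨fun b => pr (D B b) y, ?_⟩)
    have h := hMI.span y
    rw [hd, one_smul] at h
    exact h

end ToricPB
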