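import Pool.Agent.Lib.MP_3d51eb_gt.NK.Spec

set_option autoImplicit false

/-!
# MP_3d51eb_gt, project NK: the operator formula (from the formula on the generators)
-/

noncomputable section

namespace ToricPB

open Finset

namespace Op_nk

variable {n : ℕ} {K : Finset (Finset (Vec n))}

lemma sum_del (ψ : Vec n → ℤ) {w : Vec n} (hw : w ∈ verts K) :
    ∑ v ∈ verts K, ψ v * del v w = ψ w := by
  classical
  rw [Finset.sum_eq_single w]
  · simp [del]
  · intro v _ hvw
    rw [del, if_neg (Ne.symm hvw), mul_zero]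
  · intro h
    exact absurd hw h

lemma sum_rop (ψ : Vec n → ℤ) {B : Finset (Vec n)} (hB : B ⊆ verts K) (d : ℤ)
    (D : Vec n → Vec n) {w : Vec n} (hw : w ∈ verts K) :
    ∑ v ∈ verts K, ψ v * rop B d D (del v) w = rop B d D ψ w := by
  have h1 := rop_sum (verts K) B d D (fun v w => ψ v * del v w)
  have h2 := rop_congr (K := K) hB d D (ψ := fun w => ∑ v ∈ verts K, ψ v * del v w) (χ := ψ)
    (fun w hw => sum_del ψ hw) w hw
  rw [← h2]
  have h3 := congrFun h1 w
  rw [h3]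
  refine Finset.sum_congr rfl (fun v _ => ?_)
  rw [rop_smul]

lemma sum_ind (ψ : Vec n → ℤ) {C : Finset (Vec n)} (hC : C ⊆ verts K) :
    ∑ v ∈ verts K, ψ v * (if v ∈ C then (1 : ℤ) else 0) = ∑ c ∈ C, ψ c := by
  classical
  have h : ∀ v ∈ verts K, ψ v * (if v ∈ C then (1 : ℤ) else 0) = if v ∈ C then ψ v else 0 := by
    intro v _
    split_ifs <;> ring
  rw [Finset.sum_congr rfl h, Finset.sum_ite_mem, Finset.inter_eq_right.2 hC]

end Op_nk

theorem tOp : StOpG → StOp := by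
  intro hG n K hK hn d D hgood a ha
  obtain ⟨F, κ, g, C, h, hκ, hf⟩ := hG n K hK hn d D hgood a ha
  refine ⟨F, κ, g, C, h, hκ, fun ψ => ?_⟩
  have h1 : ∑ v ∈ verts K, ψ v • a v = cl K (fun w => ∑ v ∈ verts K, ψ v * (F * del v w -
      ∑ B ∈ IM K, g B * rop B (d B) (D B) (del v) w +
        κ * (if v ∈ C then 1 else 0) * hp h w)) := by
    rw [cl_sum (verts K) (fun v w => ψ v * (F * del v w -
      ∑ B ∈ IM K, g B * rop B (d B) (D B) (del v) w + κ * (if v ∈ C then 1 else 0) * hp h w))]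
    refine Finset.sum_congr rfl (fun v hv => ?_)
    rw [cl_smul, ← hf v hv]
  rw [h1]
  refine cl_congr (fun w hw => ?_)
  have e1 : ∀ v ∈ verts K, ψ v * (F * del v w -
      ∑ B ∈ IM K, g B * rop B (d B) (D B) (del v) w + κ * (if v ∈ C then 1 else 0) * hp h w) =
      F * (ψ v * del v w) - ∑ B ∈ IM K, g B * (ψ v * rop B (d B) (D B) (del v) w) +
        κ * (ψ v * (if v ∈ C then 1 else 0)) * hp h w := by
    intro v _
    have e2 : ∑ B ∈ IM K, g B * (ψ v * rop B (d B) (D B) (del v) w) =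
        ψ v * ∑ B ∈ IM K, g B * rop B (d B) (D B) (del v) w := by
      rw [Finset.mul_sum]
      exact Finset.sum_congr rfl (fun B _ => by ring)
    rw [e2]
    ring
  rw [Finset.sum_congr rfl e1, Finset.sum_add_distrib, Finset.sum_sub_distrib, ← Finset.mul_sum,
    Op_nk.sum_del ψ hw, Finset.sum_comm]
  have e3 : ∑ B ∈ IM K, ∑ v ∈ verts K, g B * (ψ v * rop B (d B) (D B) (del v) w) =
      ∑ B ∈ IM K, g B * rop B (d B) (D B) ψ w := by
    refine Finset.sum_congr rfl (fun B hB => ?_)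
    rw [← Finset.mul_sum, Op_nk.sum_rop ψ (mem_IM.1 hB).1 (d B) (D B) hw]
  rw [e3, op]
  congr 1
  rw [← Finset.sum_mul, ← Finset.mul_sum]
  rcases hκ with h0 | hC
  · rw [h0]; ring
  · rw [Op_nk.sum_ind ψ (hC.mis.sub (by omega))]

end ToricPB
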