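import Pool.Agent.Lib.MP_3d51eb_gt.NK.Spec2

set_option autoImplicit false

/-!
# MP_3d51eb_gt, project NK, module OpE: idempotents are combinations of neck projections
-/

noncomputable section

namespace ToricPB

open Finset MvPolynomial

/-- an element of `H2 K` in coordinates -/
private lemma OpE_nk.coord {n : ℕ} {K : Finset (Finset (Vec n))} (ψ : Vec n → ℤ) :
    (⟨cl K ψ, cl_mem ψ⟩ : H2 K) = ∑ v ∈ verts K, ψ v • (⟨cls K v, cls_mem v⟩ : H2 K) := by
  apply Subtype.ext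
  rw [AddSubmonoidClass.coe_finsetSum]
  rfl

/-- an endomorphism of `H2 K` in coordinates -/
private lemma OpE_nk.apply {n : ℕ} {K : Finset (Finset (Vec n))} (T : Module.End ℤ (H2 K))
    (ψ : Vec n → ℤ) :
    ((T ⟨cl K ψ, cl_mem ψ⟩ : H2 K) : Coh K) =
      ∑ v ∈ verts K, ψ v • ((T ⟨cls K v, cls_mem v⟩ : H2 K) : Coh K) := by
  rw [OpE_nk.coord, map_sum, AddSubmonoidClass.coe_finsetSum]
  refine Finset.sum_congr rfl (fun v _ => ?_)
  rw [map_smul]
  rfl

private lemma OpE_nk.selfAdj {n : ℕ} {K : Finset (Finset (Vec n))} {T : Module.End ℤ (H2 K)}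
    (hT : SA T) : SelfAdj K (fun v => ((T ⟨cls K v, cls_mem v⟩ : H2 K) : Coh K)) where
  mem := fun v => (T ⟨cls K v, cls_mem v⟩).2
  sa := fun v w => hT ⟨cls K v, cls_mem v⟩ ⟨cls K w, cls_mem w⟩
  rel := by
    intro m
    have h1 := OpE_nk.apply T (pr m)
    have h2 : (⟨cl K (pr m), cl_mem (pr m)⟩ : H2 K) = 0 := Subtype.ext (cl_pr m)
    rw [h2, map_zero] at h1
    exact h1.symm

theorem tOpE : StOp → StId → StNk → StOpE := by
  intro hOp hId hNk n K hK hn d D hG P hP T hT hSA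
  obtain ⟨F, κ, g, C, h, hκ, hop⟩ := hOp n K hK hn d D hG _ (OpE_nk.selfAdj hSA)
  have hTc : ∀ ψ : Vec n → ℤ, T ⟨cl K ψ, cl_mem ψ⟩ =
      ⟨cl K (op K d D F κ g C h ψ), cl_mem _⟩ := by
    intro ψ
    apply Subtype.ext
    rw [OpE_nk.apply]
    exact hop ψ
  have hid : ∀ ψ : Vec n → ℤ, cl K (op K d D F κ g C h (op K d D F κ g C h ψ)) =
      cl K (op K d D F κ g C h ψ) := by
    intro ψ
    have h1 : T (T ⟨cl K ψ, cl_mem ψ⟩) = T ⟨cl K ψ, cl_mem ψ⟩ := by
      rw [← Module.End.mul_apply, hT]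
    rw [hTc, hTc] at h1
    exact congrArg Subtype.val h1
  obtain ⟨hκ0, hd⟩ := hId n K hK hn d D hG F κ g C h hκ hid
  have hNk' := hNk n K hK (by omega) d D hG
  refine ⟨F, g, LinearMap.ext ?_⟩
  rintro ⟨y, hy⟩
  obtain ⟨ψ, rfl⟩ := exists_cl hy
  rw [hTc]
  apply Subtype.ext
  have hR : (((F • (1 : Module.End ℤ (H2 K)) - ∑ B ∈ necks K, g B • P B) ⟨cl K ψ, hy⟩ : H2 K)
      : Coh K) = F • cl K ψ - ∑ B ∈ necks K, g B • cl K (rop B 1 (D B) ψ) := by
    rw [LinearMap.sub_apply, LinearMap.smul_apply, LinearMap.sum_apply,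
      AddSubgroupClass.coe_sub, AddSubmonoidClass.coe_finsetSum]
    have h1 : ∀ B ∈ necks K, (((g B • P B) ⟨cl K ψ, hy⟩ : H2 K) : Coh K) =
        g B • cl K (rop B 1 (D B) ψ) := by
      intro B hB
      rw [← (hP B hB).2.2.1 ψ]
      rfl
    rw [Finset.sum_congr rfl h1]
    rfl
  rw [hR]
  have hL : cl K (op K d D F κ g C h ψ) =
      F • cl K ψ - ∑ B ∈ IM K, g B • cl K (rop B (d B) (D B) ψ) := by
    have h1 : (op K d D F κ g C h ψ) =
        fun w => F * ψ w - ∑ B ∈ IM K, g B * rop B (d B) (D B) ψ w := by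
      funext w
      simp only [op, hκ0, zero_mul, add_zero]
    rw [h1, cl_sub, cl_smul, cl_sum]
    congr 1
    exact Finset.sum_congr rfl (fun B _ => cl_smul _ _)
  show cl K (op K d D F κ g C h ψ) = _
  rw [hL]
  have hsub : necks K ⊆ IM K := fun B hB => ((hNk' B).1 hB).1
  rw [← Finset.sum_subset hsub (fun B hB hB' => by
    have h0 : g B = 0 := by
      by_contra hne
      exact hB' ((hNk' B).2 ⟨hB, hd B hB hne⟩)
    rw [h0, zero_smul])]
  congr 1
  refine Finset.sum_congr rfl (fun B hB => ?_)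
  rw [((hNk' B).1 hB).2]

end ToricPB
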