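import Pool.Agent.Lib.MP_3d51eb_gt.NK.Spec

set_option autoImplicit false

/-!
# MP_3d51eb_gt, project NK, module OpG: the operator formula on the generators
-/

noncomputable section

namespace ToricPB

open Finset MvPolynomial

namespace OpG_nk

variable {n : ℕ}

/-- a linear form which vanishes on a wall has opposite values at the two completing rays -/
lemma wall_pr {K : Finset (Finset (Vec n))} {τ : Finset (Vec n)} {p q : Vec n} {b : Vec n → ℤ}
    (hW : Wall K τ p q b) {m : Vec n} (h : ∀ v ∈ τ, pr m v = 0) : pr m q = -pr m p := by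
  have h1 := bend_pr hW m
  rw [bend, Finset.sum_eq_zero (fun v hv => by rw [h v hv, mul_zero])] at h1
  linarith

lemma wall_card {K : Finset (Finset (Vec n))} {τ : Finset (Vec n)} {p q : Vec n} {b : Vec n → ℤ}
    (hW : Wall K τ p q b) {v : Vec n} (hv : v ∉ τ) : (insert v τ).card = n := by
  rw [Finset.card_insert_of_notMem hv]
  exact hW.2.1

lemma wall_verts {K : Finset (Finset (Vec n))} {τ : Finset (Vec n)} {p q : Vec n} {b : Vec n → ℤ}
    (hW : Wall K τ p q b) : p ∈ verts K ∧ q ∈ verts K ∧ ∀ v ∈ τ, v ∈ verts K := by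
  obtain ⟨hτ, -, -, -, -, hpK, hqK, -, -⟩ := hW
  exact ⟨mem_verts_of_mem hpK (Finset.mem_insert_self _ _),
    mem_verts_of_mem hqK (Finset.mem_insert_self _ _), fun v hv => mem_verts_of_mem hτ hv⟩

/-- a maximal cone which contains a wall is one of its two completions -/
lemma wall_sup {K : Finset (Finset (Vec n))} {τ : Finset (Vec n)} {p q : Vec n} {b : Vec n → ℤ}
    (hW : Wall K τ p q b) {σ : Finset (Vec n)} (hσ : σ ∈ K) (hτσ : τ ⊆ σ) (hc : σ.card = n) :
    σ = insert p τ ∨ σ = insert q τ := by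
  classical
  obtain ⟨-, hcd, -, -, -, -, -, hu, -⟩ := hW
  obtain ⟨r, hr, hrτ⟩ : ∃ r ∈ σ, r ∉ τ := by
    by_contra hcon
    push Not at hcon
    have h1 := Finset.card_le_card (show σ ⊆ τ from fun x hx => hcon x hx)
    omega
  have hins : insert r τ = σ := by
    refine Finset.eq_of_subset_of_card_le (Finset.insert_subset hr hτσ) ?_
    rw [Finset.card_insert_of_notMem hrτ]
    omega
  rcases hu r hrτ (by rw [hins]; exact hσ) with h | h
  · exact Or.inl (by rw [← hins, h])
  · exact Or.inr (by rw [← hins, h])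

end OpG_nk

open OpG_nk

theorem tOpG : StDual → StWall → StConn → StLin → StNear → StG → StCd → StTh1 → StTh2 → StTh3 →
    StOpG := by
  classical
  intro hDual hWall hConn hLin hNear hG hCd hTh1 hTh2 hTh3 n K hK hn d D hGood a ha
  obtain ⟨g, hg1, hg2⟩ := hG n K hK (by omega) a ha
  obtain ⟨κ, C, h, hCho, hor⟩ : ∃ (κ : ℤ) (C : Finset (Vec n)) (h : Vec n),
      Cho K g κ C h ∧ (κ = 0 ∨ CD K C h) := by
    by_cases hex : ∃ C', Mis K C' ∧ ¬ Ind C'
    · obtain ⟨C, hC1, hC2⟩ := hex
      obtain ⟨h, hh⟩ := hCd n K hK (by omega) C hC1 hC2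
      exact ⟨g C, C, h, Or.inl ⟨hh, rfl⟩, Or.inr hh⟩
    · refine ⟨0, ∅, 0, Or.inr ⟨rfl, rfl, fun C' hC' => ?_⟩, Or.inl rfl⟩
      by_contra hI
      exact hex ⟨C', hC', hI⟩
  have hψ : ∀ v, ∃ ψ : Vec n → ℤ, a v = cl K ψ := fun v => exists_cl (ha.mem v)
  choose ψ hψ using hψ
  have hb : ∀ v ∈ verts K, ∀ τ p q b, Wall K τ p q b → v ∉ τ →
      bend (Th K d D g κ C h v (ψ v)) τ p q b = fF K d g κ C (insert v τ) :=
    fun v hv τ p q b hW hvτ => hTh1 n K hK d D hGood g κ C h hCho v hv (ψ v) τ p q b hW hvτ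
      (hg1 v (ψ v) (hψ v) τ p q b hW hvτ)
  have hz : ∀ s : Finset (Vec n), s.card = n → s ∉ K → fF K d g κ C s = 0 :=
    hTh2 n K hK hn d g κ C h hCho hg2
  have h3 : ∀ m : Vec n, ∀ τ p q b, Wall K τ p q b →
      ∑ v ∈ verts K, pr m v * bend (Th K d D g κ C h v (ψ v)) τ p q b = 0 :=
    hTh3 n K hK hn d D hGood a ha g κ C h hCho ψ (fun v _ => hψ v)
  -- (4) the values at the two completions of a wall
  have h4 : ∀ τ p q b, Wall K τ p q b →
      fF K d g κ C (insert p τ) = fF K d g κ C (insert q τ) := by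
    intro τ p q b hW
    obtain ⟨hτ, hcd, hp, hq, hpq, hpK, hqK, hu, -⟩ := id hW
    obtain ⟨m, hm1, hm2⟩ := (hDual n (insert p τ) (hK.smooth _ hpK)).2.1 p
      (Finset.mem_insert_self p τ)
    have hm0 : ∀ v ∈ τ, pr m v = 0 := fun v hv =>
      hm2 v (Finset.mem_insert_of_mem hv) (ne_of_mem_of_not_mem hv hp)
    have hmq : pr m q = -1 := by rw [wall_pr hW hm0, hm1]
    obtain ⟨hpv, hqv, -⟩ := wall_verts hW
    have hs := h3 m τ p q b hW
    have hsub : ({p, q} : Finset (Vec n)) ⊆ verts K := by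
      intro x hx
      rcases Finset.mem_insert.1 hx with hx | hx
      · rw [hx]; exact hpv
      · rw [Finset.mem_singleton.1 hx]; exact hqv
    rw [← Finset.sum_subset hsub, Finset.sum_pair hpq, hm1, hmq, hb p hpv τ p q b hW hp,
      hb q hqv τ p q b hW hq] at hs
    · linarith
    · intro v hv hvn
      by_cases hvτ : v ∈ τ
      · rw [hm0 v hvτ, zero_mul]
      · rw [hb v hv τ p q b hW hvτ, hz _ (wall_card hW hvτ), mul_zero]
        intro hvK
        apply hvn
        rcases hu v hvτ hvK with h' | h'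
        · rw [h']; exact Finset.mem_insert_self _ _
        · rw [h']; exact Finset.mem_insert_of_mem (Finset.mem_singleton_self _)
  -- (5) one value on all maximal cones
  obtain ⟨F, hF⟩ : ∃ F : ℤ, ∀ σ ∈ K, σ.card = n → fF K d g κ C σ = F := by
    by_cases hex : ∃ σ0 ∈ K, σ0.card = n
    · obtain ⟨σ0, hσ0, hc0⟩ := hex
      refine ⟨fF K d g κ C σ0, fun σ hσ hc => ?_⟩
      refine hConn n K hK (by omega) Set.univ convex_univ isOpen_univ ℤ (fF K d g κ C) ?_ σ hσ σ0
        hσ0 hc hc0 ⟨_, Set.mem_univ _, InRel.one σ⟩ ⟨_, Set.mem_univ _, InRel.one σ0⟩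
      intro τ hτ hcd _ σ1 hσ1 σ2 hσ2 hs1 hs2 hc1 hc2
      obtain ⟨p, q, b, hW⟩ := hWall n K hK τ hτ hcd
      have e := h4 τ p q b hW
      rcases wall_sup hW hσ1 hs1 hc1 with h1 | h1 <;> rcases wall_sup hW hσ2 hs2 hc2 with h2 | h2 <;>
        rw [h1, h2]
      · exact e
      · exact e.symm
    · exact ⟨0, fun σ hσ hc => absurd ⟨σ, hσ, hc⟩ hex⟩
  -- (6) the bends of the differences
  have h6a : ∀ v ∈ verts K, ∀ τ p q b, Wall K τ p q b → v ∉ τ →
      bend (fun w => Th K d D g κ C h v (ψ v) w - F * del v w) τ p q b = 0 := by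
    intro v hv τ p q b hW hvτ
    rw [bend_sub, bend_smul, hb v hv τ p q b hW hvτ, bend_del hW hvτ]
    by_cases hK' : insert v τ ∈ K
    · rw [if_pos hK', hF _ hK' (wall_card hW hvτ)]
      ring
    · rw [if_neg hK', hz _ (wall_card hW hvτ) hK']
      ring
  have h6 : ∀ v ∈ verts K, ∀ τ p q b, Wall K τ p q b →
      bend (fun w => Th K d D g κ C h v (ψ v) w - F * del v w) τ p q b = 0 := by
    intro v hv τ p q b hW
    by_cases hvτ : v ∈ τ
    swap
    · exact h6a v hv τ p q b hW hvτ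
    obtain ⟨m, hm1, hm2⟩ := (hDual n τ (hK.smooth _ hW.1)).2.1 v hvτ
    obtain ⟨hpv, hqv, hτv⟩ := wall_verts hW
    have hd : ∀ x ∈ verts K, (fun x => ∑ w ∈ verts K, pr m w * del w x) x = pr m x := by
      intro x hx
      show ∑ w ∈ verts K, pr m w * del w x = pr m x
      rw [Finset.sum_eq_single x]
      · rw [del, if_pos rfl, mul_one]
      · intro w _ hwx
        rw [del, if_neg (Ne.symm hwx), mul_zero]
      · exact fun hx' => absurd hx hx'
    have hs1 : ∑ w ∈ verts K, pr m w * bend (del w) τ p q b = 0 := by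
      have e1 : bend (fun x => ∑ w ∈ verts K, pr m w * del w x) τ p q b = bend (pr m) τ p q b :=
        bend_congr (hd p hpv) (hd q hqv) (fun x hx => hd x (hτv x hx))
      rw [bend_pr hW, bend_sum (verts K) (fun w x => pr m w * del w x)] at e1
      rw [← e1]
      exact Finset.sum_congr rfl (fun w _ => (bend_smul _ _ _ _ _ _).symm)
    have hs2 : ∑ w ∈ verts K, pr m w *
        bend (fun x => Th K d D g κ C h w (ψ w) x - F * del w x) τ p q b = 0 := by
      have e2 : ∀ w ∈ verts K, pr m w *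
          bend (fun x => Th K d D g κ C h w (ψ w) x - F * del w x) τ p q b =
          pr m w * bend (Th K d D g κ C h w (ψ w)) τ p q b - F * (pr m w * bend (del w) τ p q b) := by
        intro w _
        rw [bend_sub, bend_smul]
        ring
      rw [Finset.sum_congr rfl e2, Finset.sum_sub_distrib, h3 m τ p q b hW, ← Finset.mul_sum, hs1]
      ring
    rw [Finset.sum_eq_single v, hm1, one_mul] at hs2
    · exact hs2
    · intro w hw hwv
      by_cases hwτ : w ∈ τ
      · rw [hm2 w hwτ hwv, zero_mul]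
      · rw [h6a w hw τ p q b hW hwτ, mul_zero]
    · exact fun hv' => absurd hv hv'
  -- (7) linearity
  refine ⟨F, κ, g, C, h, hor, fun v hv => ?_⟩
  obtain ⟨m, hm⟩ := hLin n K hK (by omega) Set.univ convex_univ isOpen_univ
    (fun w => Th K d D g κ C h v (ψ v) w - F * del v w)
    (fun τ p q b hW hb' => absurd (h6 v hv τ p q b hW) hb')
  have hm' : ∀ w ∈ verts K, (fun w => Th K d D g κ C h v (ψ v) w - F * del v w) w = pr m w := by
    intro w hw
    obtain ⟨σ, hσ, hwσ, hcard, x', hx', hin⟩ := hNear n K hK Set.univ isOpen_univ {w}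
      (hK.single hw) (toR w) (Set.mem_univ _) (InRel.singleton w)
    exact hm σ hσ hcard ⟨x', hx', hin⟩ w (hwσ (Finset.mem_singleton_self w))
  have h0 : cl K (fun w => Th K d D g κ C h v (ψ v) w - F * del v w) = 0 := by
    rw [cl_congr hm']
    exact cl_pr m
  rw [hψ v]
  have e : ψ v = fun w => (Th K d D g κ C h v (ψ v) w - F * del v w) +
      (F * del v w - ∑ B ∈ IM K, g B * rop B (d B) (D B) (del v) w +
        κ * (if v ∈ C then 1 else 0) * hp h w) := by
    funext w
    rw [Th]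
    ring
  conv_lhs => rw [e]
  rw [cl_add, h0, zero_add]

end ToricPB
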