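import Pool.Agent.Lib.MP_3d51eb_gt.NK.Spec

set_option autoImplicit false

/-!
# MP_3d51eb_gt, project NK, module Pair: pairs of rays inside and on a missing facet
-/

noncomputable section

namespace ToricPB

open Finset MvPolynomial

theorem tPair : StWall → StNest1 → StNest2 → StSh → StPair := by
  classical
  intro hWall hN1 hN2 hSh n K hK hn d D hG B hB
  have hMI := hG B hB
  have hBc : B.card = n := hMI.mis.1
  have hBne : B.Nonempty := by
    rw [← Finset.card_pos, hBc]
    omega
  obtain ⟨b, hb⟩ := hBne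
  -- an interior ray
  have hτ : B.erase b ∈ K := hMI.mis.erase hb
  have hτc : (B.erase b).card + 1 = n := by
    rw [Finset.card_erase_add_one hb, hBc]
  obtain ⟨p0, q0, c0, hW⟩ := hWall n K hK _ hτ hτc
  have hpV : p0 ∈ verts K := mem_verts_of_mem hW.2.2.2.2.2.1 (Finset.mem_insert_self _ _)
  have hqV : q0 ∈ verts K := mem_verts_of_mem hW.2.2.2.2.2.2.1 (Finset.mem_insert_self _ _)
  have hS : ((verts K).filter (fun v => InRel B (toR v))).Nonempty := by
    rcases hMI.side b hb p0 q0 c0 hW with h | h
    · exact ⟨p0, Finset.mem_filter.2 ⟨hpV, h.1⟩⟩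
    · exact ⟨q0, Finset.mem_filter.2 ⟨hqV, h.1⟩⟩
  obtain ⟨p, hpS, hpmin⟩ := Finset.exists_min_image _ (fun v => (sh K v).card) hS
  obtain ⟨hp, hpB⟩ := Finset.mem_filter.1 hpS
  obtain ⟨p', hp'B, hp'max⟩ := Finset.exists_max_image B (fun v => (sh K v).card) ⟨b, hb⟩
  have hBp : B ∈ sh K p := mem_sh.2 ⟨hB, hpB⟩
  refine ⟨p, hp, p', hMI.sub hp'B, ?_, ?_⟩
  · intro h
    exact hMI.noB p' hp'B (mem_sh.1 h).2
  · apply Finset.Subset.antisymm
    · intro B'' hB''
      by_cases hne : B'' = B
      · rw [hne]
        exact Finset.mem_insert_self _ _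
      · obtain ⟨hI'', hR''⟩ := mem_sh.1 hB''
        have hMI'' := hG B'' hI''
        apply Finset.mem_insert_of_mem
        rcases hN2 n K hK hn B _ _ hMI B'' _ _ hMI'' (Ne.symm hne) (toR p) hpB hR'' with
          ⟨w, hw, hwB⟩ | ⟨w, hw, hwB⟩
        · exfalso
          have h1 : w ∈ (verts K).filter (fun v => InRel B (toR v)) :=
            Finset.mem_filter.2 ⟨hMI''.sub hw, hwB⟩
          have h2 := Finset.card_lt_card (hSh n K hK hn d D hG p B'' hB'' w hw)
          have h3 := hpmin w h1
          omega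
        · by_contra hcon
          have h1 : sh K p' ⊆ sh K w := by
            intro B' hB'
            obtain ⟨hI', hR'⟩ := mem_sh.1 hB'
            have hMI' := hG B' hI'
            have hne' : B' ≠ B'' := by
              intro h
              rw [h] at hB'
              exact hcon hB'
            have h2 : InRel B' (toR p) :=
              hN1 n K hK hn B hMI.mis B' _ _ hMI' p' hp'B hR' (toR p) hpB
            rcases hN2 n K hK hn B' _ _ hMI' B'' _ _ hMI'' hne' (toR p) h2 hR'' with
              ⟨v, hv, hvB⟩ | ⟨v, hv, hvB⟩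
            · exact mem_sh.2 ⟨hI', hN1 n K hK hn B'' hMI''.mis B' _ _ hMI' v hv hvB (toR w) hwB⟩
            · exfalso
              exact hcon (mem_sh.2 ⟨hI'',
                hN1 n K hK hn B' hMI'.mis B'' _ _ hMI'' v hv hvB (toR p') hR'⟩)
          have h2 : sh K p' ⊂ sh K w := by
            rw [Finset.ssubset_iff_of_subset h1]
            exact ⟨B'', mem_sh.2 ⟨hI'', hwB⟩, hcon⟩
          have h3 := Finset.card_lt_card h2
          have h4 := hp'max w hw
          omega
    · intro B'' hB''
      rcases Finset.mem_insert.1 hB'' with h | h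
      · rw [h]; exact hBp
      · exact (hSh n K hK hn d D hG p B hBp p' hp'B).1 h

end ToricPB
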