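import Pool.Agent.Lib.MP_3d51eb_gt.NK.Spec2

set_option autoImplicit false

/-!
# MP_3d51eb_gt, project NK: the projection of a neck
-/

noncomputable section

namespace ToricPB

open Finset MvPolynomial

theorem tPb : StNd → StEnd → StPb := by
  intro hNd hEnd n K hK hn B D hM
  obtain ⟨h1, h2, hO, hS⟩ := hNd n K hK B D hM
  obtain ⟨T, hTT, hSA, hV, hW⟩ := hEnd n K hK hn _ _ hS hO
  refine ⟨T, hTT, hSA, fun ψ => ?_, hV, hW⟩
  have hy : (⟨cl K ψ, cl_mem ψ⟩ : H2 K) = ⟨cl K (rop B 1 D ψ), cl_mem _⟩ +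
      ⟨cl K (fun v => ψ v - rop B 1 D ψ v), cl_mem _⟩ := by
    apply Subtype.ext
    change cl K ψ = cl K (rop B 1 D ψ) + cl K (fun v => ψ v - rop B 1 D ψ v)
    rw [← cl_add]
    have h3 : (fun v => rop B 1 D ψ v + (ψ v - rop B 1 D ψ v)) = ψ := by
      funext v
      ring
    rw [h3]
  have e1 : T ⟨cl K (rop B 1 D ψ), cl_mem _⟩ = ⟨cl K (rop B 1 D ψ), cl_mem _⟩ :=
    (hV _).1 (h1 ψ)
  have e2 : T ⟨cl K (fun v => ψ v - rop B 1 D ψ v), cl_mem _⟩ = 0 := (hW _).1 (h2 ψ)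
  rw [hy, map_add, e1, e2, add_zero]

end ToricPB
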