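import Pool.Agent.Lib.MP_3d51eb_gt.NK.Spec

set_option autoImplicit false

/-!
# MP_3d51eb_gt, project NK: bends of `rop` (helper58)
-/

noncomputable section

namespace ToricPB

open Finset MvPolynomial

namespace Rb_nk

variable {n : ℕ} {K : Finset (Finset (Vec n))} {B : Finset (Vec n)} {d : ℤ} {D : Vec n → Vec n}

theorem sum_del (B : Finset (Vec n)) (D : Vec n → Vec n) (v w : Vec n) :
    ∑ b ∈ B, pr (D b) w * del v b = if v ∈ B then pr (D v) w else 0 := by
  simp [del]

theorem rop_in {v w : Vec n} (hw : InRel B (toR w)) :
    rop B d D (del v) w = d * del v w - if v ∈ B then pr (D v) w else 0 := by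
  rw [rop, if_pos hw, sum_del]

theorem rop_out {v w : Vec n} (hw : ¬ InRel B (toR w)) : rop B d D (del v) w = 0 := by
  rw [rop, if_neg hw]

theorem del_ne {v w : Vec n} (h : w ≠ v) : del v w = 0 := by
  rw [del, if_neg h]

theorem bend_zero {f : Vec n → ℤ} {τ : Finset (Vec n)} {p q : Vec n} {b : Vec n → ℤ}
    (hp : f p = 0) (hq : f q = 0) (h : ∀ v ∈ τ, f v = 0) : bend f τ p q b = 0 := by
  rw [bend, hp, hq, Finset.sum_eq_zero fun v hv => by rw [h v hv, mul_zero]]
  rfl

theorem pair_mem (hK : IsFan K) {s : Finset (Vec n)} (hs : s ∈ K) {v w : Vec n} (hv : v ∈ s)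
    (hw : w ∈ s) : {v, w} ∈ K := by
  refine hK.down s hs _ fun x hx => ?_
  rcases Finset.mem_insert.1 hx with h | h
  · rw [h]; exact hv
  · rw [Finset.mem_singleton.1 h]; exact hw

end Rb_nk

open Rb_nk in
theorem tRb : StRb := by
  intro n K hK B d D hB v hv τ p q b hW hvτ
  have hpK : insert p τ ∈ K := hW.2.2.2.2.2.1
  have hqK : insert q τ ∈ K := hW.2.2.2.2.2.2.1
  by_cases hvI : InRel B (toR v)
  · -- CASE I
    have hvB : v ∉ B := fun h => hB.noB v h hvI
    have hf : rop B d D (del v) = fun w => d * del v w := by
      funext w
      by_cases hw : InRel B (toR w)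
      · rw [rop_in hw, if_neg hvB, sub_zero]
      · have hne : w ≠ v := fun h => hw (h ▸ hvI)
        rw [rop_out hw, del_ne hne, mul_zero]
    have hb : bend (rop B d D (del v)) τ p q b = d * if insert v τ ∈ K then 1 else 0 := by
      rw [hf, bend_smul, bend_del hW hvτ]
    refine ⟨fun h => ?_, fun h => ?_, fun h _ => ?_⟩
    · rw [hb, if_pos h.1, mul_one]
    · exact absurd (h ▸ Finset.mem_insert_self v τ) hvB
    · rw [hb, if_neg fun h1 => h ⟨h1, v, Finset.mem_insert_self v τ, hvI⟩, mul_zero]
  · by_cases hvB : v ∈ B
    · by_cases h1 : ∃ w0 ∈ τ, InRel B (toR w0)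
      · -- CASE II.1
        obtain ⟨w0, hw0, hw0I⟩ := h1
        have hg : ∀ w, {w0, w} ∈ K → rop B d D (del v) w = d * del v w - pr (D v) w := by
          intro w hw
          by_cases hwI : InRel B (toR w)
          · rw [rop_in hwI, if_pos hvB]
          · have hwB : w ∈ B := (hB.adj w0 w hw0I hw).resolve_right hwI
            rw [rop_out hwI]
            by_cases hwv : w = v
            · rw [hwv, hB.diag v hvB, del, if_pos rfl, mul_one, sub_self]
            · rw [del_ne hwv, hB.off v hvB w hwB hwv, mul_zero, sub_zero]
        have hb : bend (rop B d D (del v)) τ p q b = d * if insert v τ ∈ K then 1 else 0 := by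
          have h2 : bend (rop B d D (del v)) τ p q b =
              bend (fun w => d * del v w - pr (D v) w) τ p q b := by
            apply bend_congr
            · exact hg p (pair_mem hK hpK (Finset.mem_insert_of_mem hw0)
                (Finset.mem_insert_self p τ))
            · exact hg q (pair_mem hK hqK (Finset.mem_insert_of_mem hw0)
                (Finset.mem_insert_self q τ))
            · intro w hw
              exact hg w (pair_mem hK hW.1 hw0 hw)
          have h3 := bend_sub (fun w => d * del v w) (pr (D v)) τ p q b
          rw [h2, h3, bend_smul, bend_del hW hvτ, bend_pr hW, sub_zero]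
        refine ⟨fun h => ?_, fun h => ?_, fun h _ => ?_⟩
        · rw [hb, if_pos h.1, mul_one]
        · exact absurd hw0I (hB.noB w0 (h ▸ Finset.mem_insert_of_mem hw0))
        · rw [hb, if_neg fun h1 => h ⟨h1, w0, Finset.mem_insert_of_mem hw0, hw0I⟩, mul_zero]
      · have h1' : ∀ w ∈ τ, ¬ InRel B (toR w) := fun w hw hI => h1 ⟨w, hw, hI⟩
        by_cases h2 : ∃ w0 ∈ τ, w0 ∉ B
        · -- CASE II.2
          obtain ⟨w0, hw0, hw0B⟩ := h2
          have hp : ¬ InRel B (toR p) := by
            intro hI
            rcases hB.adj p w0 hI (pair_mem hK hpK (Finset.mem_insert_self p τ)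
              (Finset.mem_insert_of_mem hw0)) with h | h
            · exact hw0B h
            · exact h1' w0 hw0 h
          have hq : ¬ InRel B (toR q) := by
            intro hI
            rcases hB.adj q w0 hI (pair_mem hK hqK (Finset.mem_insert_self q τ)
              (Finset.mem_insert_of_mem hw0)) with h | h
            · exact hw0B h
            · exact h1' w0 hw0 h
          have hb : bend (rop B d D (del v)) τ p q b = 0 :=
            bend_zero (rop_out hp) (rop_out hq) fun w hw => rop_out (h1' w hw)
          refine ⟨fun h => ?_, fun h => ?_, fun h _ => hb⟩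
          · obtain ⟨w, hw, hwI⟩ := h.2
            rcases Finset.mem_insert.1 hw with h3 | h3
            · exact absurd (h3 ▸ hwI) hvI
            · exact absurd hwI (h1' w h3)
          · exact absurd (h ▸ Finset.mem_insert_of_mem hw0) hw0B
        · -- CASE II.3
          have hτB : τ ⊆ B := fun w hw => by
            by_contra hwB
            exact h2 ⟨w, hw, hwB⟩
          have hτ : τ = B.erase v := by
            apply Finset.eq_of_subset_of_card_le
            · intro w hw
              exact Finset.mem_erase.2 ⟨fun h => hvτ (h ▸ hw), hτB hw⟩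
            · have h3 := hW.2.1
              have h4 := hB.mis.1
              rw [Finset.card_erase_of_mem hvB]
              omega
          have hins : insert v τ = B := by rw [hτ, Finset.insert_erase hvB]
          have hsd := hB.side v hvB p q b (hτ ▸ hW)
          have hb : bend (rop B d D (del v)) τ p q b = -1 := by
            have h5 : ∑ w ∈ τ, b w * rop B d D (del v) w = 0 :=
              Finset.sum_eq_zero fun w hw => by rw [rop_out (h1' w hw), mul_zero]
            rw [bend, h5]
            rcases hsd with ⟨hpI, hp1, hqI⟩ | ⟨hqI, hq1, hpI⟩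
            · have hne : p ≠ v := fun h => hvI (h ▸ hpI)
              rw [rop_in hpI, if_pos hvB, hp1, rop_out hqI, del_ne hne]
              ring
            · have hne : q ≠ v := fun h => hvI (h ▸ hqI)
              rw [rop_in hqI, if_pos hvB, hq1, rop_out hpI, del_ne hne]
              ring
          refine ⟨fun h => ?_, fun _ => hb, fun _ h => absurd hins h⟩
          exact absurd (hins ▸ h.1) hB.mis.2.1
    · -- CASE III
      have hf : ∀ w, rop B d D (del v) w = 0 := by
        intro w
        by_cases hw : InRel B (toR w)
        · have hne : w ≠ v := fun h => hvI (h ▸ hw)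
          rw [rop_in hw, if_neg hvB, del_ne hne, mul_zero, sub_zero]
        · exact rop_out hw
      have hb : bend (rop B d D (del v)) τ p q b = 0 :=
        bend_zero (hf p) (hf q) fun w _ => hf w
      refine ⟨fun h => ?_, fun h => ?_, fun h _ => hb⟩
      · obtain ⟨w, hw, hwI⟩ := h.2
        rcases Finset.mem_insert.1 hw with h3 | h3
        · exact absurd (h3 ▸ hwI) hvI
        · rcases hB.adj w v hwI (pair_mem hK h.1 hw (Finset.mem_insert_self v τ)) with h4 | h4
          · exact absurd h4 hvB
          · exact absurd h4 hvI
      · exact absurd (h ▸ Finset.mem_insert_self v τ) hvB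

end ToricPB
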