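import Pool.Agent.Lib.MP_3d51eb_gt.NK.Spec2

set_option autoImplicit false

/-!
# MP_3d51eb_gt, project NK: ranges of sums of orthogonal idempotents
-/

noncomputable section

namespace ToricPB

open Finset MvPolynomial

namespace Rg_nk

variable {n : ℕ} {K : Finset (Finset (Vec n))} {r : ℕ} {e : Fin r → Module.End ℤ (H2 K)}

theorem sum_apply' (I : Finset (Fin r)) (y : H2 K) : (∑ i ∈ I, e i) y = ∑ i ∈ I, e i y := by
  rw [LinearMap.sum_apply]

theorem sum_mul_of_mem (h1 : ∀ i, e i * e i = e i) (h2 : ∀ i j, i ≠ j → e i * e j = 0) (I : Finset (Fin r))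
    {i : Fin r} (hi : i ∈ I) : (∑ j ∈ I, e j) * e i = e i := by
  rw [Finset.sum_mul, Finset.sum_eq_single i]
  · exact h1 i
  · intro j _ hj
    exact h2 j i hj
  · intro h
    exact absurd hi h

theorem key (h1 : ∀ i, e i * e i = e i) (h2 : ∀ i j, i ≠ j → e i * e j = 0) (I : Finset (Fin r))
    (U : Submodule ℤ (Coh K)) (hU : U ≤ H2 K) (h : ∀ y : H2 K, (y : Coh K) ∈ U ↔ (∑ i ∈ I, e i) y = y) :
    U = ⨆ i ∈ I, rg (e i) := by
  refine le_antisymm ?_ ?_
  · intro y hy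
    have hyH : y ∈ H2 K := hU hy
    have e1 : (∑ i ∈ I, e i) ⟨y, hyH⟩ = ⟨y, hyH⟩ := (h ⟨y, hyH⟩).1 hy
    rw [sum_apply'] at e1
    have e2 : ∑ i ∈ I, ((e i ⟨y, hyH⟩ : H2 K) : Coh K) = y := by
      have e3 := congrArg (fun z : H2 K => (z : Coh K)) e1
      simp only [Submodule.coe_sum] at e3
      exact e3
    rw [← e2]
    refine Submodule.sum_mem _ fun i hi => ?_
    refine Submodule.mem_iSup_of_mem i (Submodule.mem_iSup_of_mem hi ?_)
    exact ⟨e i ⟨y, hyH⟩, ⟨⟨y, hyH⟩, rfl⟩, rfl⟩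
  · refine iSup₂_le fun i hi => ?_
    rintro x ⟨w, ⟨z, rfl⟩, rfl⟩
    refine (h (e i z)).2 ?_
    have e1 := congrArg (fun T : Module.End ℤ (H2 K) => T z) (sum_mul_of_mem h1 h2 I hi)
    exact e1

end Rg_nk

theorem tRg : StRg := by
  intro n K r e h1 h2 h3 I V W hV hW hv hw
  refine ⟨Rg_nk.key h1 h2 I V hV hv, Rg_nk.key h1 h2 Iᶜ W hW fun y => ?_⟩
  rw [hw y]
  have e1 : (∑ i ∈ I, e i) + ∑ i ∈ Iᶜ, e i = 1 := by
    rw [← h3]
    exact Finset.sum_add_sum_compl I e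
  have e2 : (∑ i ∈ I, e i) y + (∑ i ∈ Iᶜ, e i) y = y := by
    have e3 := congrArg (fun T : Module.End ℤ (H2 K) => T y) e1
    exact e3
  constructor
  · intro h
    rw [h, zero_add] at e2
    exact e2
  · intro h
    rw [h] at e2
    exact add_eq_right.1 e2

end ToricPB
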