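import Pool.Agent.Lib.MP_3d51eb_gt.NK.Spec2

set_option autoImplicit false

/-!
# MP_3d51eb_gt, project NK: separation by necks
-/

noncomputable section

namespace ToricPB

open Finset MvPolynomial

theorem tSepE : StTf → StOpE → StSepE := by
  classical
  intro hTf hOp n K hK hn d D hG P hP r e he hne horth I hI i j hij
  by_contra hcon
  push Not at hcon
  obtain ⟨F, g, hT⟩ := hOp n K hK hn d D hG P hP (e i) (he i).1 (he i).2
  have hPe : ∀ B ∈ necks K, ∀ l, P B * e l = if l ∈ I B then e l else 0 := by
    intro B hB l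
    rw [hI B hB, Finset.sum_mul]
    have h1 : ∀ k ∈ I B, e k * e l = if k = l then e l else 0 := by
      intro k _
      by_cases h : k = l
      · rw [if_pos h, h, (he l).1]
      · rw [if_neg h, horth k l h]
    rw [Finset.sum_congr rfl h1, Finset.sum_ite_eq']
  have hmul : ∀ l, e i * e l =
      (F - ∑ B ∈ necks K, if l ∈ I B then g B else 0) • e l := by
    intro l
    conv_lhs => rw [hT]
    rw [sub_mul, smul_mul_assoc, one_mul, Finset.sum_mul, sub_smul, Finset.sum_smul]
    congr 1
    refine Finset.sum_congr rfl (fun B hB => ?_)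
    rw [smul_mul_assoc, hPe B hB l]
    by_cases h : l ∈ I B
    · rw [if_pos h, if_pos h]
    · rw [if_neg h, if_neg h, smul_zero, zero_smul]
  have hc : (F - ∑ B ∈ necks K, if j ∈ I B then g B else 0) =
      F - ∑ B ∈ necks K, if i ∈ I B then g B else 0 := by
    congr 1
    refine Finset.sum_congr rfl (fun B hB => ?_)
    by_cases h : i ∈ I B
    · rw [if_pos h, if_pos ((hcon B hB).mp h)]
    · rw [if_neg h, if_neg (fun h' => h ((hcon B hB).mpr h'))]
  have hi := hmul i
  have hj := hmul j
  rw [horth i j hij, hc] at hj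
  rw [(he i).1] at hi
  have hz : (F - ∑ B ∈ necks K, if i ∈ I B then g B else 0) = 0 := by
    by_contra hN
    refine hne j (LinearMap.ext (fun y => ?_))
    have h1 : (F - ∑ B ∈ necks K, if i ∈ I B then g B else 0) • (e j y) = 0 := by
      have := congrArg (fun T : Module.End ℤ (H2 K) => T y) hj
      exact this.symm
    have h2 := congrArg (Subtype.val) h1
    exact Subtype.ext (hTf n K hK (by omega) (e j y : Coh K) (e j y).2 _ hN h2)
  rw [hz, zero_smul] at hi
  exact hne i hi

end ToricPB
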