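import Pool.Agent.Lib.MP_3d51eb_gt.NK.Spec

set_option autoImplicit false

/-!
# MP_3d51eb_gt, project NK: shallow rays
-/

noncomputable section

namespace ToricPB

open Finset MvPolynomial

variable {n : ℕ}

private lemma Shal_nk_neg {s : Finset (Vec n)} {c : Vec n → ℝ} {m : Vec n}
    (hc : ∀ v ∈ s, 0 < c v) (h : dot (toR m) (lin s c) < 0) : ∃ v ∈ s, pr m v < 0 := by
  by_contra hcon
  push Not at hcon
  rw [dot_lin] at h
  have h0 : 0 ≤ ∑ v ∈ s, c v * dot (toR m) (toR v) :=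
    Finset.sum_nonneg fun v hv => mul_nonneg (hc v hv).le (by
      rw [dot_toR]
      exact_mod_cast hcon v hv)
  linarith

theorem tShal : StSh → StShal := by
  intro hSh n K hK hn d D hG m hm
  classical
  have hm0 : toR m ≠ 0 := fun h => hm (toR_inj (h.trans toR_zero.symm))
  -- a ray with `pr m v < 0`
  obtain ⟨κ, ⟨hκ, c, hc, hx⟩, -⟩ := hK.cover (-toR m)
  have hneg : dot (toR m) (lin κ c) < 0 := by
    rw [← hx]
    have h1 := dot_self_pos hm0
    have h2 : dot (toR m) (-toR m) = - dot (toR m) (toR m) := by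
      simp only [dot, Pi.neg_apply, mul_neg, Finset.sum_neg_distrib]
    rw [h2]
    linarith
  obtain ⟨v₀, hv₀, hpr₀⟩ := Shal_nk_neg hc hneg
  have hne : ((verts K).filter (fun v => pr m v < 0)).Nonempty :=
    ⟨v₀, Finset.mem_filter.2 ⟨Finset.mem_biUnion.2 ⟨κ, hκ, hv₀⟩, hpr₀⟩⟩
  obtain ⟨v, hv, hmin⟩ := Finset.exists_min_image _ (fun v => (sh K v).card) hne
  obtain ⟨hvK, hvm⟩ := Finset.mem_filter.1 hv
  refine ⟨v, hvK, ?_, hvm⟩
  refine Finset.eq_empty_of_forall_notMem fun B hB => ?_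
  obtain ⟨hBI, c', hc', hx'⟩ := mem_sh.1 hB
  have hneg' : dot (toR m) (lin B c') < 0 := by
    rw [← hx', dot_toR]
    exact_mod_cast hvm
  obtain ⟨b, hb, hbm⟩ := Shal_nk_neg hc' hneg'
  have h1 := hmin b (Finset.mem_filter.2 ⟨(mem_IM.1 hBI).1 hb, hbm⟩)
  have h2 := Finset.card_lt_card (hSh n K hK hn d D hG v B hB b hb)
  exact absurd h1 (not_le.2 h2)

end ToricPB
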