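import Pool.Agent.Lib.MP_3d51eb_gt.NK.Spec2

set_option autoImplicit false

/-!
# MP_3d51eb_gt, project NK, module Sides (helper97): the sides of a neck
-/

noncomputable section

namespace ToricPB

open Finset MvPolynomial

theorem tSides : StGood → StNk → StCutF → StCutH → StCutI → StCut2 → StCorH → StCorI → StCor2 →
    StSides := by
  intro hGood hNk hCutF hCutH hCutI hCut2 hCorH hCorI hCor2 n K hK hn B hB
  obtain ⟨d, D, hG⟩ := hGood n K hK hn
  obtain ⟨hIM, hd⟩ := (hNk n K hK hn d D hG B).1 hB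
  have hMI : MI K B 1 (D B) := by
    have h := hG B hIM
    rw [hd] at h
    exact h
  have hU : Uni B := (mem_necks.1 hB).2.2.1
  obtain ⟨ι, hι⟩ := hCutH n K hK B (D B) hMI
  obtain ⟨κ, hκ⟩ := hCorH n K hK B (D B) hMI
  exact ⟨hCutF n K hK B (D B) hMI hU,
    ⟨ι, hCutI n K hK hn B (D B) hMI hU ι hι, hCut2 n K hK B (D B) hMI ι hι⟩,
    κ, hCorI n K hK hn B (D B) hMI hU κ hκ, hCor2 n K hK B (D B) hMI κ hκ⟩

end ToricPB
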