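import Pool.Agent.Lib.MP_3d51eb_gt.NK.Spec

set_option autoImplicit false

/-!
# MP_3d51eb_gt, project NK, module Tf: no torsion in the second cohomology
-/

noncomputable section

namespace ToricPB

open Finset MvPolynomial

namespace Tf_nk

/-- a piecewise linear function without bends has class zero -/
lemma cl_eq_zero (hNear : StNear) (hLin : StLin) {n : ℕ} {K : Finset (Finset (Vec n))}
    (hK : IsFan K) (hn : 1 ≤ n) (ψ : Vec n → ℤ)
    (hb : ∀ τ p q b, Wall K τ p q b → bend ψ τ p q b = 0) : cl K ψ = 0 := by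
  obtain ⟨m, hm⟩ := hLin n K hK hn Set.univ convex_univ isOpen_univ ψ
    (fun τ p q b hW hb' => absurd (hb τ p q b hW) hb')
  have hψm : ∀ v ∈ verts K, ψ v = pr m v := by
    intro v hv
    obtain ⟨σ, hσ, hvσ, hcard, x', hx', hin⟩ := hNear n K hK Set.univ isOpen_univ {v}
      (hK.single hv) (toR v) (Set.mem_univ _) (InRel.singleton v)
    exact hm σ hσ hcard ⟨x', hx', hin⟩ v (hvσ (Finset.mem_singleton_self v))
  rw [cl_congr hψm]
  exact cl_pr m

end Tf_nk

theorem tTf : StNear → StLin → StMul → StDeg → StTf := by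
  classical
  intro hNear hLin hMul hDeg n K hK hn y hy N hN hNy
  obtain ⟨ψ, rfl⟩ := exists_cl hy
  refine Tf_nk.cl_eq_zero hNear hLin hK (by omega) ψ (fun τ p q b hW => ?_)
  have h1 := (hMul n K hK τ p q b hW).1 ψ
  obtain ⟨-, hcard, hp, -, -, hpτ, -, -, -⟩ := hW
  have h2 : (N * bend ψ τ p q b) • mon K (insert p τ) = 0 := by
    rw [mul_smul, ← h1, ← smul_mul_assoc, hNy, zero_mul]
  have h3 := hDeg n K hK (insert p τ) hpτ
    (by rw [Finset.card_insert_of_notMem hp, hcard]) _ h2
  exact (mul_eq_zero.1 h3).resolve_left hN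

end ToricPB
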