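import Pool.Agent.Lib.MP_3d51eb_gt.NK.Spec

set_option autoImplicit false

/-!
# MP_3d51eb_gt, project NK, module Th1: bends of the corrected functions
-/

noncomputable section

namespace ToricPB

open Finset MvPolynomial

namespace Th1_nk

variable {n : ℕ}

lemma bend_Th (K : Finset (Finset (Vec n))) (d : Finset (Vec n) → ℤ)
    (D : Finset (Vec n) → Vec n → Vec n) (g : Finset (Vec n) → ℤ) (κ : ℤ) (C : Finset (Vec n))
    (h v : Vec n) (χ : Vec n → ℤ) (τ : Finset (Vec n)) (p q : Vec n) (b : Vec n → ℤ) :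
    bend (Th K d D g κ C h v χ) τ p q b = bend χ τ p q b +
      ∑ B ∈ IM K, g B * bend (rop B (d B) (D B) (del v)) τ p q b -
      κ * (if v ∈ C then 1 else 0) * bend (hp h) τ p q b := by
  have h1 : bend (Th K d D g κ C h v χ) τ p q b =
      bend (fun w => χ w + ∑ B ∈ IM K, g B * rop B (d B) (D B) (del v) w) τ p q b -
      bend (fun w => κ * (if v ∈ C then 1 else 0) * hp h w) τ p q b := by
    rw [← bend_sub]
    rfl
  rw [h1, bend_smul, bend_add, bend_sum]
  congr 2
  exact Finset.sum_congr rfl (fun B _ => bend_smul _ _ _ _ _ _)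

end Th1_nk

theorem tTh1 : StRb → StCb → StTh1 := by
  intro hRb hCb n K hK d D hG g κ C h hCho v hv χ τ p q b hW hvτ hχ
  classical
  rw [Th1_nk.bend_Th, hχ, fF]
  congr 1
  · congr 1
    refine Finset.sum_congr rfl (fun B hB => ?_)
    congr 1
    obtain ⟨h1, h2, h3⟩ := hRb n K hK B (d B) (D B) (hG B hB) v hv τ p q b hW hvτ
    by_cases hc : insert v τ ∈ K ∧ ∃ w ∈ insert v τ, InRel B (toR w)
    · rw [if_pos hc, h1 hc]
    · rw [if_neg hc]
      by_cases hc2 : insert v τ = B
      · rw [if_pos hc2, h2 hc2]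
      · rw [if_neg hc2, h3 hc hc2]
  · rcases hCho with ⟨hCD, -⟩ | ⟨-, hκ, -⟩
    · rw [hCb n K hK C h hCD τ p q b hW, mul_assoc]
      congr 1
      by_cases hc : insert v τ = C
      · rw [if_pos hc, ← hc, if_pos (Finset.mem_insert_self _ _),
          if_pos (Finset.subset_insert _ _), mul_one]
      · rw [if_neg hc]
        by_cases hvC : v ∈ C
        · by_cases hτC : τ ⊆ C
          · exfalso
            apply hc
            refine Finset.eq_of_subset_of_card_le (Finset.insert_subset hvC hτC) ?_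
            rw [Finset.card_insert_of_notMem hvτ, hW.2.1, hCD.mis.1]
          · rw [if_neg hτC, mul_zero]
        · rw [if_neg hvC, zero_mul]
    · rw [hκ]
      simp

end ToricPB
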