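import Pool.Agent.Lib.MP_3d51eb_gt.NK.Spec

set_option autoImplicit false

/-!
# MP_3d51eb_gt, project NK, module Th2 (helper97): vanishing of `fF` outside `K`
-/

noncomputable section

namespace ToricPB

open Finset MvPolynomial

namespace Th2_nk

variable {n : ℕ}

lemma not_ind {K : Finset (Finset (Vec n))} {C : Finset (Vec n)} {h : Vec n} (hn : 1 ≤ n)
    (hC : CD K C h) : ¬ Ind C := by
  intro hI
  have h1 : lin C (fun _ => ((1 : ℤ) : ℝ)) = 0 := by
    rw [lin_int C (fun _ => 1)]
    have h2 : ∑ v ∈ C, (1 : ℤ) • v = 0 := by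
      simp only [one_smul]
      exact hC.sum
    rw [h2, toR_zero]
  have hne : C.Nonempty := by
    rw [← Finset.card_pos, hC.mis.1]
    omega
  obtain ⟨c, hc⟩ := hne
  have h3 := hI _ h1 c hc
  norm_num at h3

lemma sum_eq {K : Finset (Finset (Vec n))} (d : Finset (Vec n) → ℤ) (g : Finset (Vec n) → ℤ)
    (κ : ℤ) (C : Finset (Vec n)) {s : Finset (Vec n)} (hs : s ∉ K) :
    fF K d g κ C s = g s + (if s ∈ IM K then -g s else 0) - κ * (if s = C then 1 else 0) := by
  classical
  unfold fF
  have h1 : ∀ B ∈ IM K, g B * (if s ∈ K ∧ ∃ w ∈ s, InRel B (toR w) then d B else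
      if s = B then -1 else 0) = if s = B then -g B else 0 := by
    intro B _
    rw [if_neg (fun h => hs h.1)]
    split_ifs
    · ring
    · ring
  rw [Finset.sum_congr rfl h1, Finset.sum_ite_eq]

end Th2_nk

open Th2_nk in
theorem tTh2 : StCd → StCu → StTh2 := by
  classical
  intro hCd hCu n K hK hn d g κ C h hcho hg s hs hsK
  rw [sum_eq d g κ C hsK]
  by_cases hgs : g s = 0
  · have hk : κ * (if s = C then 1 else 0) = 0 := by
      by_cases hsC : s = C
      · rcases hcho with ⟨-, hκ⟩ | ⟨-, hκ, -⟩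
        · rw [hκ, ← hsC, hgs, zero_mul]
        · rw [hκ, zero_mul]
      · rw [if_neg hsC, mul_zero]
    rw [hgs, hk]
    simp
  · obtain ⟨-, her⟩ := hg s hgs
    have hmis : Mis K s := by
      refine ⟨hs, hsK, fun t ht => ?_⟩
      obtain ⟨w, hw, hwt⟩ := Finset.exists_of_ssubset ht
      refine hK.down _ (her w hw) t (fun x hx => ?_)
      rw [Finset.mem_erase]
      exact ⟨fun e => hwt (e ▸ hx), ht.1 hx⟩
    by_cases hind : Ind s
    · have hk : κ * (if s = C then 1 else 0) = 0 := by
        rcases hcho with ⟨hCD, -⟩ | ⟨-, hκ, -⟩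
        · rw [if_neg, mul_zero]
          intro e
          rw [← e] at hCD
          exact not_ind (by omega) hCD hind
        · rw [hκ, zero_mul]
      rw [if_pos (mem_IM.2 ⟨hmis.sub (by omega), hmis, hind⟩), hk]
      ring
    · rw [if_neg (fun hm => hind (mem_IM.1 hm).2.2)]
      rcases hcho with ⟨hCD, hκ⟩ | ⟨-, -, hall⟩
      · obtain ⟨h', hCD'⟩ := hCd n K hK (by omega) s hmis hind
        have e : s = C := hCu n K hn s h' C h hCD' hCD
        rw [if_pos e, hκ, e]
        ring
      · exact absurd (hall s hmis) hind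

end ToricPB
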