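import Pool.Agent.Lib.MP_3d51eb_gt.NK.Spec

set_option autoImplicit false

/-!
# MP_3d51eb_gt, project NK: linear relations (module Th3)
-/

noncomputable section

namespace ToricPB

open Finset MvPolynomial

namespace Th3_nk

variable {n : ℕ}

theorem sum_del {K : Finset (Finset (Vec n))} (f : Vec n → ℤ) {w : Vec n} (hw : w ∈ verts K) :
    ∑ v ∈ verts K, f v * del v w = f w := by
  rw [Finset.sum_eq_single w]
  · simp [del]
  · intro v _ hv
    rw [del, if_neg (Ne.symm hv), mul_zero]
  · intro h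
    exact absurd hw h

/-- the contribution of an independent missing facet -/
theorem sum_rop {K : Finset (Finset (Vec n))} {B : Finset (Vec n)} {d : ℤ} {D : Vec n → Vec n}
    (hB : MI K B d D) (m : Vec n) {w : Vec n} (hw : w ∈ verts K) :
    ∑ v ∈ verts K, pr m v * rop B d D (del v) w = 0 := by
  have h1 : ∑ v ∈ verts K, pr m v * rop B d D (del v) w =
      rop B d D (fun u => ∑ v ∈ verts K, pr m v * del v u) w := by
    rw [rop_sum]
    refine Finset.sum_congr rfl fun v _ => ?_
    rw [rop_smul]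
  rw [h1, rop_congr hB.sub d D (fun u hu => sum_del (pr m) hu) w hw, rop_pr hB.toMA]

/-- the contribution of the dependent missing facet -/
theorem sum_C {K : Finset (Finset (Vec n))} {g : Finset (Vec n) → ℤ} {κ : ℤ}
    {C : Finset (Vec n)} {h : Vec n} (hn : 2 ≤ n) (hC : Cho K g κ C h) (m : Vec n) :
    κ * ∑ v ∈ verts K, pr m v * (if v ∈ C then 1 else 0) = 0 := by
  rcases hC with ⟨hC, -⟩ | ⟨-, h0, -⟩
  · have h1 : ∑ v ∈ verts K, pr m v * (if v ∈ C then 1 else 0) = ∑ c ∈ C, pr m c := by
      have h2 : ∀ v ∈ verts K, pr m v * (if v ∈ C then 1 else 0) = if v ∈ C then pr m v else 0 := by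
        intro v _
        split_ifs <;> simp
      rw [Finset.sum_congr rfl h2, ← Finset.sum_filter]
      refine Finset.sum_congr ?_ fun _ _ => rfl
      ext v
      simp only [Finset.mem_filter]
      exact ⟨fun hv => hv.2, fun hv => ⟨hC.mis.sub hn hv, hv⟩⟩
    rw [h1, ← pr_sum, hC.sum, pr_zero, mul_zero]
  · rw [h0, zero_mul]

end Th3_nk

open Th3_nk

theorem tTh3 : StClz → StTh3 := by
  intro hclz n K hK hn d D hG a hs g κ C h hC ψ hψ m τ p q b hW
  have hn2 : 2 ≤ n := by omega
  -- the function `A`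
  have hA : cl K (fun w => ∑ v ∈ verts K, pr m v * ψ v w) = 0 := by
    rw [cl_sum]
    rw [← hs.rel m]
    refine Finset.sum_congr rfl fun v hv => ?_
    rw [cl_smul, hψ v hv]
  obtain ⟨m', hm'⟩ := hclz n K hK hn2 _ hA
  -- the corrected function
  have hT : ∀ w ∈ verts K, ∑ v ∈ verts K, pr m v * Th K d D g κ C h v (ψ v) w = pr m' w := by
    intro w hw
    rw [← hm' w hw]
    have h1 : ∀ v, pr m v * Th K d D g κ C h v (ψ v) w = pr m v * ψ v w +
        ∑ B ∈ IM K, g B * (pr m v * rop B (d B) (D B) (del v) w) -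
        (pr m v * (if v ∈ C then 1 else 0)) * (κ * hp h w) := by
      intro v
      have h2 : ∑ B ∈ IM K, g B * (pr m v * rop B (d B) (D B) (del v) w) =
          pr m v * ∑ B ∈ IM K, g B * rop B (d B) (D B) (del v) w := by
        rw [Finset.mul_sum]
        exact Finset.sum_congr rfl fun B _ => by ring
      rw [h2]
      unfold Th
      ring
    rw [Finset.sum_congr rfl fun v _ => h1 v, Finset.sum_sub_distrib, Finset.sum_add_distrib,
      Finset.sum_comm, ← Finset.sum_mul]
    have h3 : ∑ B ∈ IM K, ∑ v ∈ verts K, g B * (pr m v * rop B (d B) (D B) (del v) w) = 0 := by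
      refine Finset.sum_eq_zero fun B hB => ?_
      rw [← Finset.mul_sum, sum_rop (hG B hB) m hw, mul_zero]
    have h4 : (∑ v ∈ verts K, pr m v * (if v ∈ C then 1 else 0)) * (κ * hp h w) = 0 := by
      have h5 := sum_C hn2 hC m
      calc (∑ v ∈ verts K, pr m v * (if v ∈ C then 1 else 0)) * (κ * hp h w)
          = (κ * ∑ v ∈ verts K, pr m v * (if v ∈ C then 1 else 0)) * hp h w := by ring
        _ = 0 := by rw [h5, zero_mul]
    rw [h3, h4, add_zero, sub_zero]
  have h6 : ∑ v ∈ verts K, pr m v * bend (Th K d D g κ C h v (ψ v)) τ p q b =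
      bend (fun w => ∑ v ∈ verts K, pr m v * Th K d D g κ C h v (ψ v) w) τ p q b := by
    rw [bend_sum]
    refine Finset.sum_congr rfl fun v _ => ?_
    rw [bend_smul]
  have hp' : p ∈ verts K := mem_verts_of_mem hW.2.2.2.2.2.1 (Finset.mem_insert_self p τ)
  have hq' : q ∈ verts K := mem_verts_of_mem hW.2.2.2.2.2.2.1 (Finset.mem_insert_self q τ)
  rw [h6, bend_congr (χ := pr m') (hT p hp') (hT q hq')
    (fun v hv => hT v (mem_verts_of_mem hW.1 hv)), bend_pr hW]

end ToricPB
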