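import Pool.Agent.Lib.MP_3d51eb_gt.NK.Spec

set_option autoImplicit false

/-!
# MP_3d51eb_gt, project NK: triangular structure of `op` (helper67)
-/

noncomputable section

namespace ToricPB

open Finset MvPolynomial

namespace Tri_nk

variable {n : ℕ}

/-- the last sum vanishes -/
lemma kap_zero (hCsh : StCsh) {K : Finset (Finset (Vec n))} (hK : IsFan K) (hn : 3 ≤ n)
    {d : Finset (Vec n) → ℤ} {D : Finset (Vec n) → Vec n → Vec n} (hG : Good K d D)
    {κ : ℤ} {C : Finset (Vec n)} {h : Vec n} (hC : κ = 0 ∨ CD K C h) {p : Vec n}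
    (hp : sh K p ≠ ∅) {ψ : Vec n → ℤ} (hψ : ∀ v ∈ verts K, ¬ sh K p ⊆ sh K v → ψ v = 0) :
    κ * (∑ c ∈ C, ψ c) = 0 := by
  rcases hC with h0 | h0
  · rw [h0, zero_mul]
  · rw [Finset.sum_eq_zero, mul_zero]
    intro c hc
    refine hψ c (h0.mis.sub (by omega) hc) ?_
    rw [hCsh n K hK hn d D hG C h h0 c hc]
    intro h1
    exact hp (Finset.subset_empty.1 h1)

/-- a ray in `B ∈ sh K v` is not above `p` if `v` is `p` or not above `p` -/
lemma not_sub (hSh : StSh) {K : Finset (Finset (Vec n))} (hK : IsFan K) (hn : 3 ≤ n)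
    {d : Finset (Vec n) → ℤ} {D : Finset (Vec n) → Vec n → Vec n} (hG : Good K d D)
    {p v : Vec n} (hv : v = p ∨ ¬ sh K p ⊆ sh K v) {B : Finset (Vec n)} (hB : B ∈ sh K v)
    {b : Vec n} (hb : b ∈ B) : b ∈ verts K ∧ ¬ sh K p ⊆ sh K b := by
  have h1 := hSh n K hK hn d D hG v B hB b hb
  refine ⟨(mem_IM.1 (mem_sh.1 hB).1).1 hb, fun h2 => ?_⟩
  rcases hv with hv | hv
  · subst hv
    exact h1.2 h2
  · exact hv (h2.trans h1.1)

/-- the value of the sum over the missing facets -/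
lemma sum_rop (hSh : StSh) {K : Finset (Finset (Vec n))} (hK : IsFan K) (hn : 3 ≤ n)
    {d : Finset (Vec n) → ℤ} {D : Finset (Vec n) → Vec n → Vec n} (hG : Good K d D)
    (g : Finset (Vec n) → ℤ) {p v : Vec n} (hv : v = p ∨ ¬ sh K p ⊆ sh K v)
    {ψ : Vec n → ℤ} (hψ : ∀ v ∈ verts K, ¬ sh K p ⊆ sh K v → ψ v = 0) :
    ∑ B ∈ IM K, g B * rop B (d B) (D B) ψ v = (∑ B ∈ sh K v, g B * d B) * ψ v := by
  classical
  have e1 : ∑ B ∈ IM K, g B * rop B (d B) (D B) ψ v =
      ∑ B ∈ IM K, if InRel B (toR v) then g B * d B * ψ v else 0 := by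
    refine Finset.sum_congr rfl fun B hB => ?_
    simp only [rop]
    by_cases h : InRel B (toR v)
    · rw [if_pos h, if_pos h, Finset.sum_eq_zero, sub_zero, mul_assoc]
      intro b hb
      obtain ⟨h1, h2⟩ := not_sub hSh hK hn hG hv (mem_sh.2 ⟨hB, h⟩) hb
      rw [hψ b h1 h2, mul_zero]
    · rw [if_neg h, if_neg h, mul_zero]
  rw [e1, ← Finset.sum_filter, ← Finset.sum_mul]
  have e2 : (IM K).filter (fun B => InRel B (toR v)) = sh K v := by
    ext B
    rw [Finset.mem_filter, mem_sh]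
  rw [e2]

lemma pr_self_zero {m : Vec n} (h : pr m m = 0) : m = 0 := by
  funext i
  have h1 : ∀ j ∈ (Finset.univ : Finset (Fin n)), 0 ≤ m j * m j := fun j _ => mul_self_nonneg _
  have h2 := (Finset.sum_eq_zero_iff_of_nonneg h1).1 h i (Finset.mem_univ i)
  exact mul_self_eq_zero.1 h2

end Tri_nk

theorem tTri : StSh → StCsh → StTri := by
  classical
  intro hSh hCsh n K hK hn d D hG F κ g C h hC
  refine ⟨fun ψ r _ hr => ?_, fun p hp hp0 ψ hψ => ⟨?_, fun v hv hpv => ?_⟩, fun p hp hp0 m hm => ?_⟩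
  · have e : ∑ B ∈ IM K, g B * rop B (d B) (D B) ψ r = 0 := by
      refine Finset.sum_eq_zero fun B hB => ?_
      have h1 : ¬ InRel B (toR r) := by
        intro h2
        have h3 : B ∈ sh K r := mem_sh.2 ⟨hB, h2⟩
        rw [hr] at h3
        exact absurd h3 (Finset.notMem_empty B)
      simp only [rop]
      rw [if_neg h1, mul_zero]
    simp only [op]
    rw [e, sub_zero]
  · simp only [op]
    rw [Tri_nk.sum_rop hSh hK hn hG g (Or.inl rfl) hψ, Tri_nk.kap_zero hCsh hK hn hG hC hp0 hψ]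
    simp only [ss]
    ring
  · simp only [op]
    rw [Tri_nk.sum_rop hSh hK hn hG g (Or.inr hpv) hψ, Tri_nk.kap_zero hCsh hK hn hG hC hp0 hψ,
      hψ v hv hpv]
    ring
  · obtain ⟨B, hB⟩ := Finset.nonempty_iff_ne_empty.2 hp0
    obtain ⟨hB1, hB2⟩ := mem_sh.1 hB
    have hMI := hG B hB1
    have h1 : ∀ b ∈ B, pr m b = 0 := by
      intro b hb
      refine hm b (hMI.sub hb) fun h2 => ?_
      exact hMI.noB b hb (mem_sh.1 (h2 hB)).2
    have h2 := congrArg (pr m) (hMI.span m)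
    rw [pr_smul, pr_sum, Finset.sum_eq_zero] at h2
    · rcases mul_eq_zero.1 h2 with h3 | h3
      · exact absurd h3 (ne_of_gt hMI.pos)
      · exact Tri_nk.pr_self_zero h3
    · intro b hb
      rw [pr_smul, h1 b hb, mul_zero]

end ToricPB
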