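import Pool.Agent.Lib.MP_3d51eb_gt.NK.Spec

set_option autoImplicit false

/-!
# MP_3d51eb_gt, project NK: Lemma X (faces which meet the interior of the cone of a missing facet)
-/

noncomputable section

namespace ToricPB

open Finset

namespace X_nk

variable {n : ℕ} {K : Finset (Finset (Vec n))}

/-- `D b` vanishes on the faces of `B` which do not contain `b`. -/
lemma dot_face {B : Finset (Vec n)} {d : ℤ} {D : Vec n → Vec n} (hB : MA K B d D)
    {t : Finset (Vec n)} (ht : t ⊆ B) {b : Vec n} (hb : b ∈ B) (hbt : b ∉ t) {x : Fin n → ℝ}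
    (hx : InRel t x) : dot (toR (D b)) x = 0 := by
  obtain ⟨c, _, rfl⟩ := hx
  rw [dot_lin]
  refine Finset.sum_eq_zero fun v hv => ?_
  rw [dot_toR, hB.off b hb v (ht hv) (fun h => hbt (h ▸ hv)), Int.cast_zero, mul_zero]

/-- A point in the interior of the cone of `B` is not in the relative interior of a proper face. -/
lemma not_face {B : Finset (Vec n)} {d : ℤ} {D : Vec n → Vec n} (hB : MA K B d D)
    {t : Finset (Vec n)} (ht : t ⊂ B) {x : Fin n → ℝ} (hx : InRel t x) : ¬ InRel B x := by
  intro hxB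
  obtain ⟨b, hb, hbt⟩ := Finset.exists_of_ssubset ht
  have h1 := (hB.rel x).1 hxB b hb
  rw [dot_face hB ht.subset hb hbt hx] at h1
  exact lt_irrefl _ h1

/-- the segment from a point of the relative interior of `t` to `v ∈ t` -/
lemma seg {t : Finset (Vec n)} {x : Fin n → ℝ} (hx : InRel t x) {v : Vec n} (hv : v ∈ t) {s : ℝ}
    (h0 : 0 < s) (h1 : s < 1) : InRel t ((1 - s) • x + s • toR v) := by
  classical
  obtain ⟨c, hc, rfl⟩ := hx
  refine ⟨fun w => (1 - s) * c w + s * (if w = v then (1 : ℝ) else 0), fun w hw => ?_, ?_⟩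
  · have h2 : 0 < (1 - s) * c w := mul_pos (by linarith) (hc w hw)
    have h3 : 0 ≤ s * (if w = v then (1 : ℝ) else 0) := by
      refine mul_nonneg h0.le ?_
      split_ifs
      · exact zero_le_one
      · exact le_refl _
    show 0 < (1 - s) * c w + s * (if w = v then (1 : ℝ) else 0)
    linarith
  · rw [lin_add, lin_smul, lin_smul, lin_single hv]

/-- step (1) -/
lemma step1 (hE : StExit) (hK : IsFan K) {B : Finset (Vec n)} {d : ℤ} {D : Vec n → Vec n}
    (hB : MA K B d D) {t : Finset (Vec n)} (htK : t ∈ K) {x : Fin n → ℝ} (hxt : InRel t x)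
    (hxB : InRel B x) {v : Vec n} (hv : v ∈ t) : InCone B (toR v) := by
  by_contra h
  obtain ⟨s, hs0, hs1, t', ht'K, ht'B, hz⟩ := hE n K B d D hB x (toR v) hxB h
  have h1 := hK.uniq htK ht'K (seg hxt hv hs0 hs1) hz
  rw [h1] at hxt
  exact not_face hB ht'B hxt hxB

/-- step (2) -/
lemma step2 (hK : IsFan K) {B : Finset (Vec n)} {d : ℤ} {D : Vec n → Vec n}
    (hB : MA K B d D) {v : Vec n} (hv : v ∈ verts K) (hc : InCone B (toR v))
    (hr : ¬ InRel B (toR v)) : v ∈ B := by
  classical
  have hc' := (hB.cone' v).1 hc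
  set t : Finset (Vec n) := B.filter (fun b => 0 < pr (D b) v) with ht
  have htB : t ⊂ B := by
    rw [Finset.ssubset_iff_subset_ne]
    refine ⟨Finset.filter_subset _ _, fun h => hr ?_⟩
    rw [hB.rel']
    intro b hb
    rw [← h, ht, Finset.mem_filter] at hb
    exact hb.2
  have htK : t ∈ K := hB.mis.2.2 t htB
  have hd : (0 : ℝ) < (d : ℝ) := by exact_mod_cast hB.pos
  have hin : InRel t (toR v) := by
    refine ⟨fun b => ((d : ℝ)⁻¹) * (pr (D b) v : ℝ), fun b hb => ?_, ?_⟩
    · rw [ht, Finset.mem_filter] at hb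
      exact mul_pos (inv_pos.2 hd) (by exact_mod_cast hb.2)
    · have h1 := hB.spanR (toR v)
      have h2 : lin B (fun b => dot (toR (D b)) (toR v)) = lin t (fun b => (pr (D b) v : ℝ)) := by
        rw [← lin_subset htB.subset (fun b => (pr (D b) v : ℝ)) ?_]
        · exact lin_congr fun b _ => dot_toR _ _
        · intro b hb hbt
          have h3 := hc' b hb
          have h4 : ¬ 0 < pr (D b) v := fun h => hbt (by rw [ht, Finset.mem_filter]; exact ⟨hb, h⟩)
          have h5 : pr (D b) v = 0 := by omega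
          rw [h5, Int.cast_zero]
      rw [lin_smul, ← h2, ← h1, smul_smul, inv_mul_cancel₀ hd.ne', one_smul]
  have h6 := hK.uniq (hK.single hv) htK (InRel.singleton v) hin
  have h7 : v ∈ t := by
    rw [← h6]
    exact Finset.mem_singleton_self v
  exact htB.subset h7

end X_nk

/-- **Lemma X.** -/
theorem tX : StExit → StX := by
  intro hE n K hK B d D hB t htK x hxt hxB
  have h1 : ∀ v ∈ t, v ∈ B ∨ InRel B (toR v) := by
    intro v hv
    by_cases h : InRel B (toR v)
    · exact Or.inr h
    · exact Or.inl (X_nk.step2 hK hB (mem_verts_of_mem htK hv)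
        (X_nk.step1 hE hK hB htK hxt hxB hv) h)
  refine ⟨h1, ?_⟩
  by_contra hcon
  push Not at hcon
  have h2 : t ⊂ B := by
    rw [Finset.ssubset_iff_subset_ne]
    refine ⟨fun v hv => (h1 v hv).resolve_right (hcon v hv), fun h => ?_⟩
    rw [h] at htK
    exact hB.mis.2.1 htK
  exact X_nk.not_face hB h2 hxt hxB

end ToricPB
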