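import Pool.Agent.Lib.MP_3d51eb_gt.NK.Spec

set_option autoImplicit false

/-!
# MP_3d51eb_gt, project NK, module Zo: the zero operator
-/

noncomputable section

namespace ToricPB

open Finset MvPolynomial

theorem tZo : StClz → StShal → StPair → StTri → StZo := by
  classical
  intro hClz hShal hPair hTri n K hK hn d D hG F g hQ
  obtain ⟨hT1, hT2, hT3⟩ := hTri n K hK hn d D hG F 0 g ∅ 0 (Or.inl rfl)
  have hlin : ∀ ψ : Vec n → ℤ, ∃ m : Vec n, ∀ v ∈ verts K, op K d D F 0 g ∅ 0 ψ v = pr m v :=
    fun ψ => hClz n K hK (by omega) _ (hQ ψ)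
  -- `F = 0`
  have hF : F = 0 := by
    have h1 : (fun _ => 1 : Vec n) ≠ 0 := by
      intro h
      have := congrFun h ⟨0, by omega⟩
      simp at this
    obtain ⟨r0, hr0, hs0, -⟩ := hShal n K hK hn d D hG _ h1
    obtain ⟨m, hm⟩ := hlin (del r0)
    have hv : ∀ r ∈ verts K, sh K r = ∅ → pr m r = F * del r0 r := by
      intro r hr hs
      rw [← hm r hr, hT1 (del r0) r hr hs]
      ring
    have hd : ∀ r, 0 ≤ del r0 r := by
      intro r
      unfold del
      split_ifs <;> norm_num
    have hm0 : m = 0 := by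
      by_contra hne
      obtain ⟨r, hr, hs, hneg⟩ := hShal n K hK hn d D hG m hne
      obtain ⟨r', hr', hs', hpos⟩ := hShal n K hK hn d D hG (-m) (neg_ne_zero.2 hne)
      rw [hv r hr hs] at hneg
      rw [pr_neg_left, hv r' hr' hs'] at hpos
      have h2 := hd r
      have h3 := hd r'
      rcases le_or_gt 0 F with hF | hF
      · have := mul_nonneg hF h2
        linarith
      · have := mul_nonneg (neg_pos.2 hF).le h3
        linarith
    have h4 := hv r0 hr0 hs0
    rw [hm0, pr_zero_left, del, if_pos rfl, mul_one] at h4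
    exact h4.symm
  refine ⟨hF, ?_⟩
  -- the diagonal entries
  have hss : ∀ p ∈ verts K, ss K d F g p = 0 := by
    intro p hp
    by_cases hsp : sh K p = ∅
    · rw [ss, hsp, Finset.sum_empty, hF, sub_zero]
    · obtain ⟨m, hm⟩ := hlin (del p)
      obtain ⟨h5, h6⟩ := hT2 p hp hsp (del p) (by
        intro v _ hnv
        unfold del
        rw [if_neg]
        rintro rfl
        exact hnv (Finset.Subset.refl _))
      have hm0 : m = 0 := hT3 p hp hsp m (by
        intro v hv hnv
        rw [← hm v hv]
        exact h6 v hv hnv)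
      have h7 := hm p hp
      rw [h5, hm0, pr_zero_left, del, if_pos rfl, mul_one] at h7
      exact h7
  intro B hB
  obtain ⟨p, hp, p', hp', hBp', hins⟩ := hPair n K hK hn d D hG B hB
  have h8 := hss p hp
  have h9 := hss p' hp'
  rw [ss, hins, Finset.sum_insert hBp'] at h8
  rw [ss] at h9
  have h10 : g B * d B = 0 := by linarith
  have h11 := (hG B hB).pos
  exact (mul_eq_zero.1 h10).resolve_right h11.ne'

end ToricPB
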