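import Pool.Agent.Lib.MP_3d51eb_gt.PB.All
import Pool.Agent.Lib.MP_3d51eb_gt.NK.Clz
import Pool.Agent.Lib.MP_3d51eb_gt.NK.ZZ
import Pool.Agent.Lib.MP_3d51eb_gt.NK.Tf
import Pool.Agent.Lib.MP_3d51eb_gt.NK.MA
import Pool.Agent.Lib.MP_3d51eb_gt.NK.Exit
import Pool.Agent.Lib.MP_3d51eb_gt.NK.X
import Pool.Agent.Lib.MP_3d51eb_gt.NK.MI
import Pool.Agent.Lib.MP_3d51eb_gt.NK.Good
import Pool.Agent.Lib.MP_3d51eb_gt.NK.Nest1
import Pool.Agent.Lib.MP_3d51eb_gt.NK.Nest2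
import Pool.Agent.Lib.MP_3d51eb_gt.NK.Cd
import Pool.Agent.Lib.MP_3d51eb_gt.NK.Cu
import Pool.Agent.Lib.MP_3d51eb_gt.NK.Cb
import Pool.Agent.Lib.MP_3d51eb_gt.NK.Rb
import Pool.Agent.Lib.MP_3d51eb_gt.NK.G
import Pool.Agent.Lib.MP_3d51eb_gt.NK.Th1
import Pool.Agent.Lib.MP_3d51eb_gt.NK.Th2
import Pool.Agent.Lib.MP_3d51eb_gt.NK.Th3
import Pool.Agent.Lib.MP_3d51eb_gt.NK.OpG
import Pool.Agent.Lib.MP_3d51eb_gt.NK.Op
import Pool.Agent.Lib.MP_3d51eb_gt.NK.Sh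
import Pool.Agent.Lib.MP_3d51eb_gt.NK.Shal
import Pool.Agent.Lib.MP_3d51eb_gt.NK.Pair
import Pool.Agent.Lib.MP_3d51eb_gt.NK.Csh
import Pool.Agent.Lib.MP_3d51eb_gt.NK.Tri
import Pool.Agent.Lib.MP_3d51eb_gt.NK.Id
import Pool.Agent.Lib.MP_3d51eb_gt.NK.Zo
import Pool.Agent.Lib.MP_3d51eb_gt.NK.Nk
import Pool.Agent.Lib.MP_3d51eb_gt.NK.Nd
import Pool.Agent.Lib.MP_3d51eb_gt.NK.End
import Pool.Agent.Lib.MP_3d51eb_gt.NK.Pb
import Pool.Agent.Lib.MP_3d51eb_gt.NK.Comm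
import Pool.Agent.Lib.MP_3d51eb_gt.NK.OpE
import Pool.Agent.Lib.MP_3d51eb_gt.NK.InE
import Pool.Agent.Lib.MP_3d51eb_gt.NK.Bool
import Pool.Agent.Lib.MP_3d51eb_gt.NK.Frame
import Pool.Agent.Lib.MP_3d51eb_gt.NK.Rg
import Pool.Agent.Lib.MP_3d51eb_gt.NK.SepE
import Pool.Agent.Lib.MP_3d51eb_gt.NK.Fin
import Pool.Agent.Lib.MP_3d51eb_gt.NK.CutF
import Pool.Agent.Lib.MP_3d51eb_gt.NK.CutH
import Pool.Agent.Lib.MP_3d51eb_gt.NK.CutM
import Pool.Agent.Lib.MP_3d51eb_gt.NK.CutP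
import Pool.Agent.Lib.MP_3d51eb_gt.NK.Inj
import Pool.Agent.Lib.MP_3d51eb_gt.NK.CutI
import Pool.Agent.Lib.MP_3d51eb_gt.NK.Cut2
import Pool.Agent.Lib.MP_3d51eb_gt.NK.CorH
import Pool.Agent.Lib.MP_3d51eb_gt.NK.CorP
import Pool.Agent.Lib.MP_3d51eb_gt.NK.CorI
import Pool.Agent.Lib.MP_3d51eb_gt.NK.Cor2
import Pool.Agent.Lib.MP_3d51eb_gt.NK.Sides

set_option autoImplicit false

/-! # project NK: assembly -/

namespace ToricPB

theorem aClz : StClz := tClz aNear aLin aMul aDeg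
theorem aZZ : StZZ := tZZ aNear aLin aMul aDeg
theorem aTf : StTf := tTf aNear aLin aMul aDeg
theorem aMA : StMA := tMA aDual aWall
theorem aExit : StExit := tExit
theorem aX : StX := tX aExit
theorem aMI : StMI := tMI aX
theorem aGood : StGood := tGood aMA aMI
theorem aNest1 : StNest1 := tNest1
theorem aNest2 : StNest2 := tNest2 aExit aX
theorem aCd : StCd := tCd aDual aWall
theorem aCu : StCu := tCu
theorem aCb : StCb := tCb
theorem aRb : StRb := tRb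
theorem aG : StG := tG aNear aMul aPt aDeg
theorem aTh1 : StTh1 := tTh1 aRb aCb
theorem aTh2 : StTh2 := tTh2 aCd aCu
theorem aTh3 : StTh3 := tTh3 aClz
theorem aOpG : StOpG := tOpG aDual aWall aConn aLin aNear aG aCd aTh1 aTh2 aTh3
theorem aOp : StOp := tOp aOpG
theorem aSh : StSh := tSh aNest1
theorem aShal : StShal := tShal aSh
theorem aPair : StPair := tPair aWall aNest1 aNest2 aSh
theorem aCsh : StCsh := tCsh
theorem aTri : StTri := tTri aSh aCsh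
theorem aId : StId := tId aClz aWall aShal aPair aCsh aTri
theorem aZo : StZo := tZo aClz aShal aPair aTri
theorem aNk : StNk := tNk aDual aUniOf aWall
theorem aNd : StNd := tNd
theorem aEnd : StEnd := tEnd aZero aDeg
theorem aPb : StPb := tPb aNd aEnd
theorem aComm : StComm := tComm aZZ
theorem aOpE : StOpE := tOpE aOp aId aNk
theorem aInE : StInE := tInE aZo aNk
theorem aBool : StBool := tBool
theorem aFrame : StFrame := tFrame aBool aTf aComm aOpE aInE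
theorem aRg : StRg := tRg
theorem aSepE : StSepE := tSepE aTf aOpE
theorem aFin : StFin := tFin aGood aNk aPb aEnd aInE aFrame aRg aSepE
theorem aCutF : StCutF := tCutF aX
theorem aCutH : StCutH := tCutH aNd
theorem aCutM : StCutM := tCutM aNd
theorem aCutP : StCutP := tCutP aWall aPt aCutF aCutM
theorem aInj : StInj := tInj
theorem aCutI : StCutI := tCutI aDeg aCutP aInj
theorem aCut2 : StCut2 := tCut2 aNd
theorem aCorH : StCorH := tCorH aNd
theorem aCorP : StCorP := tCorP aNd aCutH aCutP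
theorem aCorI : StCorI := tCorI aDeg aCorP aInj
theorem aCor2 : StCor2 := tCor2 aNd
theorem aSides : StSides := tSides aGood aNk aCutF aCutH aCutI aCut2 aCorH aCorI aCor2

end ToricPB
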