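import Pool.Agent.Lib.MP_3d51eb_gt.PB.Defs

set_option autoImplicit false

/-!
# MP_3d51eb_gt, project NK: necks of a fan and orthogonal decompositions of the second cohomology

Definitions for the final statement (fans and their cohomology rings are in `PB/Defs.lean`).
-/

noncomputable section

namespace ToricPB

open Finset MvPolynomial

variable {n : ℕ}

/-- `x` lies in the closed cone generated by `s` -/
def InCone (s : Finset (Vec n)) (x : Fin n → ℝ) : Prop :=
  ∃ c : Vec n → ℝ, (∀ v ∈ s, 0 ≤ c v) ∧ x = lin s c

/-- A neck of the fan `K`: a set `B` of `n` vectors which is a basis of the lattice and not (the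
generator set of) a cone of `K`, but all its proper subsets are cones of `K`. -/
def IsNeck (K : Finset (Finset (Vec n))) (B : Finset (Vec n)) : Prop :=
  B.card = n ∧ Uni B ∧ B ∉ K ∧ ∀ s, s ⊂ B → s ∈ K

open Classical in
/-- the necks of `K` (for `n ≥ 2` the elements of a neck are rays) -/
def necks (K : Finset (Finset (Vec n))) : Finset (Finset (Vec n)) :=
  (verts K).powerset.filter (IsNeck K)

/-- the span of the classes of the rays in the interior of the cone of `B` -/
def inner (K : Finset (Finset (Vec n))) (B : Finset (Vec n)) : Submodule ℤ (Coh K) :=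
  Submodule.span ℤ {y | ∃ v ∈ verts K, InRel B (toR v) ∧ y = cls K v}

/-- the span of the classes of the rays outside the cone of `B` -/
def outer (K : Finset (Finset (Vec n))) (B : Finset (Vec n)) : Submodule ℤ (Coh K) :=
  Submodule.span ℤ {y | ∃ v ∈ verts K, ¬ InCone B (toR v) ∧ y = cls K v}

/-- all products of elements of `V` with elements of `W` are zero -/
def Orth {K : Finset (Finset (Vec n))} (V W : Submodule ℤ (Coh K)) : Prop :=
  ∀ y ∈ V, ∀ z ∈ W, y * z = 0

open Classical in
/-- the outside of the neck `B`, closed with the cone of `B` -/
def cut (K : Finset (Finset (Vec n))) (B : Finset (Vec n)) : Finset (Finset (Vec n)) :=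
  insert B (K.filter (fun t => ∀ v ∈ t, ¬ InRel B (toR v)))

open Classical in
/-- the inside of the neck `B`, closed with `B` (a simplicial sphere with a characteristic
function; its ring `Coh` is defined as for a fan) -/
def core (K : Finset (Finset (Vec n))) (B : Finset (Vec n)) : Finset (Finset (Vec n)) :=
  insert B (K.filter (fun t => ∀ v ∈ t, v ∈ B ∨ InRel B (toR v)))

end ToricPB
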