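import Pool.Agent.Lib.MP_3d51eb_gt.PB.Spec3
import Pool.Agent.Lib.MP_3d51eb_gt.NK.Defs

set_option autoImplicit false

/-!
# MP_3d51eb_gt, project NK: auxiliary definitions and basic lemmas
-/

noncomputable section

namespace ToricPB

open Finset MvPolynomial

variable {n : ℕ}

/-! ## missing facets -/

/-- missing facet -/
def Mis (K : Finset (Finset (Vec n))) (B : Finset (Vec n)) : Prop :=
  B.card = n ∧ B ∉ K ∧ ∀ s, s ⊂ B → s ∈ K

/-- linearly independent over the reals -/
def Ind (B : Finset (Vec n)) : Prop :=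
  ∀ c : Vec n → ℝ, lin B c = 0 → ∀ v ∈ B, c v = 0

open Classical in
/-- the independent missing facets -/
def IM (K : Finset (Finset (Vec n))) : Finset (Finset (Vec n)) :=
  (verts K).powerset.filter (fun B => Mis K B ∧ Ind B)

/-- Algebraic data of an independent missing facet `B`: `d` is the index of the lattice generated
by `B`, and `D b` is the integral linear form with `D b = 0` on `B.erase b` which takes the values
`1` and `-1` on the two rays which complete the wall `B.erase b`. -/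
structure MA (K : Finset (Finset (Vec n))) (B : Finset (Vec n)) (d : ℤ) (D : Vec n → Vec n) :
    Prop where
  mis : Mis K B
  pos : 0 < d
  diag : ∀ b ∈ B, pr (D b) b = d
  off : ∀ b ∈ B, ∀ b' ∈ B, b' ≠ b → pr (D b) b' = 0
  wall : ∀ b ∈ B, ∀ p q c, Wall K (B.erase b) p q c → pr (D b) p = 1 ∨ pr (D b) p = -1
  span : ∀ v : Vec n, d • v = ∑ b ∈ B, pr (D b) v • b
  spanR : ∀ x : Fin n → ℝ, (d : ℝ) • x = lin B (fun b => dot (toR (D b)) x)
  rel : ∀ x : Fin n → ℝ, InRel B x ↔ ∀ b ∈ B, 0 < dot (toR (D b)) x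
  cone : ∀ x : Fin n → ℝ, InCone B x ↔ ∀ b ∈ B, 0 ≤ dot (toR (D b)) x

/-- All data of an independent missing facet: `MA` and the position of the other rays. -/
structure MI (K : Finset (Finset (Vec n))) (B : Finset (Vec n)) (d : ℤ) (D : Vec n → Vec n) :
    Prop extends MA K B d D where
  sub : B ⊆ verts K
  noB : ∀ b ∈ B, ¬ InRel B (toR b)
  bdry : ∀ v ∈ verts K, InCone B (toR v) → v ∈ B ∨ InRel B (toR v)
  adj : ∀ v w, InRel B (toR v) → {v, w} ∈ K → w ∈ B ∨ InRel B (toR w)
  side : ∀ b ∈ B, ∀ p q c, Wall K (B.erase b) p q c →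
    (InRel B (toR p) ∧ pr (D b) p = 1 ∧ ¬ InRel B (toR q)) ∨
    (InRel B (toR q) ∧ pr (D b) q = 1 ∧ ¬ InRel B (toR p))

/-- a choice of the data for all independent missing facets -/
def Good (K : Finset (Finset (Vec n))) (d : Finset (Vec n) → ℤ)
    (D : Finset (Vec n) → Vec n → Vec n) : Prop :=
  ∀ B ∈ IM K, MI K B (d B) (D B)

/-- Dependent missing facet: `h` is a primitive integral form which vanishes on `C`. -/
structure CD (K : Finset (Finset (Vec n))) (C : Finset (Vec n)) (h : Vec n) : Prop where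
  mis : Mis K C
  sum : ∑ c ∈ C, c = 0
  van : ∀ c ∈ C, pr h c = 0
  ray : ∀ v ∈ verts K, pr h v = 0 → v ∈ C
  adj : ∀ v w, {v, w} ∈ K → 0 < pr h v → 0 ≤ pr h w
  adj' : ∀ v w, {v, w} ∈ K → pr h v < 0 → pr h w ≤ 0
  side : ∀ c ∈ C, ∀ p q b, Wall K (C.erase c) p q b →
    (pr h p = 1 ∧ pr h q = -1) ∨ (pr h p = -1 ∧ pr h q = 1)

/-! ## functions on the rays and operators -/

/-- characteristic function -/
def del (v : Vec n) : Vec n → ℤ := fun w => if w = v then 1 else 0

/-- positive part of a linear form -/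
def hp (h : Vec n) : Vec n → ℤ := fun v => max (pr h v) 0

open Classical in
/-- `d` times the part of `ψ` inside the cone of `B` -/
def rop (B : Finset (Vec n)) (d : ℤ) (D : Vec n → Vec n) (ψ : Vec n → ℤ) : Vec n → ℤ :=
  fun v => if InRel B (toR v) then d * ψ v - ∑ b ∈ B, pr (D b) v * ψ b else 0

/-- the general self-adjoint operator, on functions -/
def op (K : Finset (Finset (Vec n))) (d : Finset (Vec n) → ℤ) (D : Finset (Vec n) → Vec n → Vec n)
    (F κ : ℤ) (g : Finset (Vec n) → ℤ) (C : Finset (Vec n)) (h : Vec n) (ψ : Vec n → ℤ) :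
    Vec n → ℤ :=
  fun w => F * ψ w - ∑ B ∈ IM K, g B * rop B (d B) (D B) ψ w + κ * (∑ c ∈ C, ψ c) * hp h w

open Classical in
/-- the independent missing facets whose cone contains `v` in its interior -/
def sh (K : Finset (Finset (Vec n))) (v : Vec n) : Finset (Finset (Vec n)) :=
  (IM K).filter (fun B => InRel B (toR v))

/-- the diagonal entry of `op` at `p` -/
def ss (K : Finset (Finset (Vec n))) (d : Finset (Vec n) → ℤ) (F : ℤ) (g : Finset (Vec n) → ℤ)
    (p : Vec n) : ℤ := F - ∑ B ∈ sh K p, g B * d B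

/-- the images `a v` of the classes `cls K v` under a self-adjoint operator on `H2 K` -/
structure SelfAdj (K : Finset (Finset (Vec n))) (a : Vec n → Coh K) : Prop where
  mem : ∀ v, a v ∈ H2 K
  sa : ∀ v w, a v * cls K w = cls K v * a w
  rel : ∀ m : Vec n, ∑ v ∈ verts K, pr m v • a v = 0

/-- the choice of the dependent missing facet `C` and of the coefficient `κ` -/
def Cho (K : Finset (Finset (Vec n))) (g : Finset (Vec n) → ℤ) (κ : ℤ) (C : Finset (Vec n))
    (h : Vec n) : Prop :=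
  (CD K C h ∧ κ = g C) ∨ (C = ∅ ∧ κ = 0 ∧ ∀ C', Mis K C' → Ind C')

/-- correction of the function `χ` which represents `a v` -/
def Th (K : Finset (Finset (Vec n))) (d : Finset (Vec n) → ℤ) (D : Finset (Vec n) → Vec n → Vec n)
    (g : Finset (Vec n) → ℤ) (κ : ℤ) (C : Finset (Vec n)) (h : Vec n) (v : Vec n)
    (χ : Vec n → ℤ) : Vec n → ℤ :=
  fun w => χ w + ∑ B ∈ IM K, g B * rop B (d B) (D B) (del v) w -
    κ * (if v ∈ C then 1 else 0) * hp h w

open Classical in
/-- the bends of the corrected functions -/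
def fF (K : Finset (Finset (Vec n))) (d : Finset (Vec n) → ℤ) (g : Finset (Vec n) → ℤ) (κ : ℤ)
    (C : Finset (Vec n)) (s : Finset (Vec n)) : ℤ :=
  g s + ∑ B ∈ IM K, g B * (if s ∈ K ∧ ∃ w ∈ s, InRel B (toR w) then d B else
    if s = B then -1 else 0) - κ * (if s = C then 1 else 0)

/-- self-adjoint endomorphism of the second cohomology -/
def SA {K : Finset (Finset (Vec n))} (T : Module.End ℤ (H2 K)) : Prop :=
  ∀ y z : H2 K, (T y : Coh K) * (z : Coh K) = (y : Coh K) * (T z : Coh K)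

/-- `P` is the projection to `inner K B` along `outer K B` -/
def IsPB (K : Finset (Finset (Vec n))) (B : Finset (Vec n)) (D : Vec n → Vec n)
    (P : Module.End ℤ (H2 K)) : Prop :=
  P * P = P ∧ SA P ∧ (∀ ψ : Vec n → ℤ, (P ⟨cl K ψ, cl_mem ψ⟩ : Coh K) = cl K (rop B 1 D ψ)) ∧
  (∀ y : H2 K, (y : Coh K) ∈ inner K B ↔ P y = y) ∧
  (∀ y : H2 K, (y : Coh K) ∈ outer K B ↔ P y = 0)

/-! ## bends -/

lemma bend_add (ψ χ : Vec n → ℤ) (τ : Finset (Vec n)) (p q : Vec n) (b : Vec n → ℤ) :
    bend (fun v => ψ v + χ v) τ p q b = bend ψ τ p q b + bend χ τ p q b := by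
  simp only [bend, mul_add, Finset.sum_add_distrib]
  ring

lemma bend_sub (ψ χ : Vec n → ℤ) (τ : Finset (Vec n)) (p q : Vec n) (b : Vec n → ℤ) :
    bend (fun v => ψ v - χ v) τ p q b = bend ψ τ p q b - bend χ τ p q b := by
  simp only [bend, mul_sub, Finset.sum_sub_distrib]
  ring

lemma bend_smul (c : ℤ) (ψ : Vec n → ℤ) (τ : Finset (Vec n)) (p q : Vec n) (b : Vec n → ℤ) :
    bend (fun v => c * ψ v) τ p q b = c * bend ψ τ p q b := by
  simp only [bend, mul_add, Finset.mul_sum]
  congr 1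
  exact Finset.sum_congr rfl (fun v _ => by ring)

lemma bend_sum {ι : Type} (s : Finset ι) (f : ι → Vec n → ℤ) (τ : Finset (Vec n)) (p q : Vec n)
    (b : Vec n → ℤ) :
    bend (fun v => ∑ i ∈ s, f i v) τ p q b = ∑ i ∈ s, bend (f i) τ p q b := by
  classical
  induction s using Finset.induction_on with
  | empty => simp [bend]
  | insert i s hi ih =>
    rw [Finset.sum_insert hi, ← ih, ← bend_add]
    simp only [Finset.sum_insert hi]

lemma bend_congr {ψ χ : Vec n → ℤ} {τ : Finset (Vec n)} {p q : Vec n} {b : Vec n → ℤ}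
    (hp : ψ p = χ p) (hq : ψ q = χ q) (h : ∀ v ∈ τ, ψ v = χ v) :
    bend ψ τ p q b = bend χ τ p q b := by
  simp only [bend]
  rw [hp, hq, Finset.sum_congr rfl (fun v hv => by rw [h v hv])]

lemma bend_pr {K : Finset (Finset (Vec n))} {τ : Finset (Vec n)} {p q : Vec n} {b : Vec n → ℤ}
    (hW : Wall K τ p q b) (m : Vec n) : bend (pr m) τ p q b = 0 := by
  have h := hW.2.2.2.2.2.2.2.2
  have h2 : pr m (p + q + ∑ v ∈ τ, b v • v) = 0 := by rw [h, pr_zero]
  rw [pr_add, pr_add, pr_sum] at h2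
  simp only [pr_smul] at h2
  exact h2

lemma bend_del {K : Finset (Finset (Vec n))} {τ : Finset (Vec n)} {p q : Vec n} {b : Vec n → ℤ}
    (hW : Wall K τ p q b) {v : Vec n} (hv : v ∉ τ) :
    bend (del v) τ p q b = if insert v τ ∈ K then 1 else 0 := by
  obtain ⟨-, -, hp, hq, hpq, hpK, hqK, hu, -⟩ := hW
  have h0 : ∑ w ∈ τ, b w * del v w = 0 := by
    refine Finset.sum_eq_zero (fun w hw => ?_)
    rw [del, if_neg (ne_of_mem_of_not_mem hw hv), mul_zero]
  simp only [bend, h0, add_zero]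
  by_cases h1 : v = p
  · subst h1
    rw [if_pos hpK, del, del, if_pos rfl, if_neg (Ne.symm hpq), add_zero]
  · by_cases h2 : v = q
    · subst h2
      rw [if_pos hqK, del, del, if_pos rfl, if_neg hpq, zero_add]
    · rw [if_neg (fun h => (hu v hv h).elim h1 h2), del, del, if_neg (Ne.symm h1),
        if_neg (Ne.symm h2), add_zero]

/-! ## functions and classes -/

lemma cl_sum {K : Finset (Finset (Vec n))} {ι : Type} (s : Finset ι) (f : ι → Vec n → ℤ) :
    cl K (fun v => ∑ i ∈ s, f i v) = ∑ i ∈ s, cl K (f i) := by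
  classical
  induction s using Finset.induction_on with
  | empty => simp [cl]
  | insert i s hi ih =>
    rw [Finset.sum_insert hi, ← ih, ← cl_add]
    simp only [Finset.sum_insert hi]

lemma cl_del {K : Finset (Finset (Vec n))} {v : Vec n} (hv : v ∈ verts K) :
    cl K (del v) = cls K v := cl_single hv

lemma rop_add (B : Finset (Vec n)) (d : ℤ) (D : Vec n → Vec n) (ψ χ : Vec n → ℤ) :
    rop B d D (fun v => ψ v + χ v) = fun v => rop B d D ψ v + rop B d D χ v := by
  classical
  funext v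
  simp only [rop]
  split_ifs
  · simp only [mul_add, Finset.sum_add_distrib]
    ring
  · ring

lemma rop_smul (B : Finset (Vec n)) (d : ℤ) (D : Vec n → Vec n) (c : ℤ) (ψ : Vec n → ℤ) :
    rop B d D (fun v => c * ψ v) = fun v => c * rop B d D ψ v := by
  classical
  funext v
  simp only [rop]
  split_ifs
  · rw [mul_sub, Finset.mul_sum]
    congr 1
    · ring
    · exact Finset.sum_congr rfl (fun b _ => by ring)
  · ring

lemma rop_sub (B : Finset (Vec n)) (d : ℤ) (D : Vec n → Vec n) (ψ χ : Vec n → ℤ) :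
    rop B d D (fun v => ψ v - χ v) = fun v => rop B d D ψ v - rop B d D χ v := by
  have h1 := rop_add B d D ψ (fun v => (-1) * χ v)
  have h2 := rop_smul B d D (-1) χ
  have h3 : (fun v => ψ v - χ v) = fun v => ψ v + (-1) * χ v := by
    funext v; ring
  rw [h3, h1]
  funext v
  rw [h2]
  ring

lemma rop_sum {ι : Type} (s : Finset ι) (B : Finset (Vec n)) (d : ℤ) (D : Vec n → Vec n)
    (f : ι → Vec n → ℤ) :
    rop B d D (fun v => ∑ i ∈ s, f i v) = fun v => ∑ i ∈ s, rop B d D (f i) v := by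
  classical
  induction s using Finset.induction_on with
  | empty =>
    funext v
    simp [rop]
  | insert i s hi ih =>
    have h3 : (fun v => ∑ j ∈ insert i s, f j v) = fun v => f i v + ∑ j ∈ s, f j v := by
      funext v; rw [Finset.sum_insert hi]
    rw [h3, rop_add]
    funext v
    rw [ih, Finset.sum_insert hi]

lemma rop_congr {K : Finset (Finset (Vec n))} {B : Finset (Vec n)} (hB : B ⊆ verts K) (d : ℤ)
    (D : Vec n → Vec n) {ψ χ : Vec n → ℤ} (h : ∀ v ∈ verts K, ψ v = χ v) :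
    ∀ v ∈ verts K, rop B d D ψ v = rop B d D χ v := by
  classical
  intro v hv
  simp only [rop]
  rw [h v hv, Finset.sum_congr rfl (fun b hb => by rw [h b (hB hb)])]

/-- linear functions have no inner part -/
lemma rop_pr {K : Finset (Finset (Vec n))} {B : Finset (Vec n)} {d : ℤ} {D : Vec n → Vec n}
    (hB : MA K B d D) (m : Vec n) : rop B d D (pr m) = fun _ => 0 := by
  classical
  funext v
  simp only [rop]
  split_ifs
  · have h := congrArg (pr m) (hB.span v)
    rw [pr_smul, pr_sum] at h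
    simp only [pr_smul] at h
    rw [h, sub_self]
  · rfl

lemma MA.rel' {K : Finset (Finset (Vec n))} {B : Finset (Vec n)} {d : ℤ} {D : Vec n → Vec n}
    (hB : MA K B d D) (v : Vec n) : InRel B (toR v) ↔ ∀ b ∈ B, 0 < pr (D b) v := by
  rw [hB.rel]
  simp only [dot_toR]
  exact ⟨fun h b hb => by exact_mod_cast h b hb, fun h b hb => by exact_mod_cast h b hb⟩

lemma MA.cone' {K : Finset (Finset (Vec n))} {B : Finset (Vec n)} {d : ℤ} {D : Vec n → Vec n}
    (hB : MA K B d D) (v : Vec n) : InCone B (toR v) ↔ ∀ b ∈ B, 0 ≤ pr (D b) v := by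
  rw [hB.cone]
  simp only [dot_toR]
  exact ⟨fun h b hb => by exact_mod_cast h b hb, fun h b hb => by exact_mod_cast h b hb⟩

lemma mem_IM {K : Finset (Finset (Vec n))} {B : Finset (Vec n)} :
    B ∈ IM K ↔ B ⊆ verts K ∧ Mis K B ∧ Ind B := by
  simp [IM]

lemma mem_necks {K : Finset (Finset (Vec n))} {B : Finset (Vec n)} :
    B ∈ necks K ↔ B ⊆ verts K ∧ IsNeck K B := by
  simp [necks]

lemma mem_sh {K : Finset (Finset (Vec n))} {B : Finset (Vec n)} {v : Vec n} :
    B ∈ sh K v ↔ B ∈ IM K ∧ InRel B (toR v) := by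
  simp [sh]

lemma mem_cut {K : Finset (Finset (Vec n))} {B t : Finset (Vec n)} :
    t ∈ cut K B ↔ t = B ∨ t ∈ K ∧ ∀ v ∈ t, ¬ InRel B (toR v) := by
  simp [cut]

lemma mem_core {K : Finset (Finset (Vec n))} {B t : Finset (Vec n)} :
    t ∈ core K B ↔ t = B ∨ t ∈ K ∧ ∀ v ∈ t, v ∈ B ∨ InRel B (toR v) := by
  simp [core]

lemma Mis.sub {K : Finset (Finset (Vec n))} {B : Finset (Vec n)} (hB : Mis K B) (hn : 2 ≤ n) :
    B ⊆ verts K := by
  intro v hv
  refine mem_verts_of_single (hB.2.2 _ ?_)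
  rw [Finset.ssubset_iff_subset_ne]
  refine ⟨by simpa using hv, fun h => ?_⟩
  have h1 := hB.1
  rw [← h, Finset.card_singleton] at h1
  omega

/-- two elements of a missing facet are adjacent (`n ≥ 3`) -/
lemma Mis.pair {K : Finset (Finset (Vec n))} {B : Finset (Vec n)} (hB : Mis K B) (hn : 3 ≤ n)
    {v w : Vec n} (hv : v ∈ B) (hw : w ∈ B) : {v, w} ∈ K := by
  refine hB.2.2 _ ?_
  rw [Finset.ssubset_iff_subset_ne]
  refine ⟨by
    intro x hx
    rcases Finset.mem_insert.1 hx with h | h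
    · rw [h]; exact hv
    · rw [Finset.mem_singleton.1 h]; exact hw, fun h => ?_⟩
  have h1 := hB.1
  have h2 := Finset.card_le_two (a := v) (b := w)
  rw [h, h1] at h2
  omega

lemma Mis.erase {K : Finset (Finset (Vec n))} {B : Finset (Vec n)} (hB : Mis K B) {b : Vec n}
    (hb : b ∈ B) : B.erase b ∈ K := hB.2.2 _ (Finset.erase_ssubset hb)

end ToricPB
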