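import Pool.Agent.Lib.MP_3d51eb_gt.NK.Spec2

set_option autoImplicit false

/-!
# MP_3d51eb_gt, project NK, module Comm: self-adjoint endomorphisms commute
-/

noncomputable section

namespace ToricPB

open Finset MvPolynomial

theorem tComm : StZZ → StComm := by
  intro hZZ n K hK hn T S hT hS
  refine LinearMap.ext (fun y => Subtype.ext ?_)
  rw [Module.End.mul_apply, Module.End.mul_apply, ← sub_eq_zero]
  refine hZZ n K hK hn _ (Submodule.sub_mem _ (T (S y)).2 (S (T y)).2) (fun v w => ?_)
  have key : ∀ z w : H2 K,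
      ((T (S y) : Coh K) * (z : Coh K)) * (w : Coh K) =
      ((S (T y) : Coh K) * (z : Coh K)) * (w : Coh K) := by
    intro z w
    calc ((T (S y) : Coh K) * (z : Coh K)) * (w : Coh K)
        = ((S y : Coh K) * (T z : Coh K)) * (w : Coh K) := by rw [hT (S y) z]
      _ = (T z : Coh K) * ((S y : Coh K) * (w : Coh K)) := by ring
      _ = (T z : Coh K) * ((y : Coh K) * (S w : Coh K)) := by rw [hS y w]
      _ = ((y : Coh K) * (T z : Coh K)) * (S w : Coh K) := by ring
      _ = ((T y : Coh K) * (z : Coh K)) * (S w : Coh K) := by rw [hT y z]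
      _ = (z : Coh K) * ((T y : Coh K) * (S w : Coh K)) := by ring
      _ = (z : Coh K) * ((S (T y) : Coh K) * (w : Coh K)) := by rw [hS (T y) w]
      _ = ((S (T y) : Coh K) * (z : Coh K)) * (w : Coh K) := by ring
  have h := key ⟨cls K v, cls_mem v⟩ ⟨cls K w, cls_mem w⟩
  rw [sub_mul, sub_mul, sub_eq_zero]
  exact h

end ToricPB
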