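import Pool.Agent.Lib.MP_3d51eb_gt.NK.Spec2

set_option autoImplicit false

/-!
# MP_3d51eb_gt, project NK: the point class upstairs
-/

noncomputable section

namespace ToricPB

open Finset MvPolynomial

theorem tCutP : StWall → StPt → StCutF → StCutM → StCutP := by
  classical
  intro hWall hPt hCutF hCutM n K hK hn B D hMI hU ι hι
  have hBne : B.Nonempty := by
    rw [← Finset.card_pos, hMI.mis.1]
    omega
  obtain ⟨b, hb⟩ := hBne
  have hτ : B.erase b ∈ K := hMI.mis.erase hb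
  have hτc : (B.erase b).card + 1 = n := by
    rw [Finset.card_erase_add_one hb, hMI.mis.1]
  obtain ⟨p, q, c, hW⟩ := hWall n K hK _ hτ hτc
  obtain ⟨r, hr, hrτ, hrK⟩ : ∃ r, ¬ InRel B (toR r) ∧ r ∉ B.erase b ∧ insert r (B.erase b) ∈ K := by
    rcases hMI.side b hb p q c hW with ⟨_, _, h⟩ | ⟨_, _, h⟩
    · exact ⟨q, h, hW.2.2.2.1, hW.2.2.2.2.2.2.1⟩
    · exact ⟨p, h, hW.2.2.1, hW.2.2.2.2.2.1⟩
  have hrB : r ∉ B := by
    intro h
    have h1 : r = b := by
      by_contra hne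
      exact hrτ (Finset.mem_erase.2 ⟨hne, h⟩)
    subst h1
    rw [Finset.insert_erase hb] at hrK
    exact hMI.mis.2.1 hrK
  have hσc : (insert r (B.erase b)).card = n := by
    rw [Finset.card_insert_of_notMem hrτ, hτc]
  have hnot : ∀ v ∈ insert r (B.erase b), ¬ InRel B (toR v) := by
    intro v hv
    rcases Finset.mem_insert.1 hv with rfl | hv
    · exact hr
    · exact hMI.noB v (Finset.mem_of_mem_erase hv)
  have hσ' : insert r (B.erase b) ∈ cut K B := mem_cut.2 (Or.inr ⟨hrK, hnot⟩)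
  have hB' : B ∈ cut K B := mem_cut.2 (Or.inl rfl)
  refine ⟨insert r (B.erase b), hrK, hσc, ?_⟩
  rw [hPt n (cut K B) (hCutF n K hK B D hMI hU) (by omega) B hB' _ hσ' hMI.mis.1 hσc]
  refine hCutM n K hK B D hMI ι hι _ ?_ hnot ⟨r, Finset.mem_insert_self _ _, hrB⟩
  intro v hv
  exact Finset.mem_biUnion.2 ⟨_, hrK, hv⟩

end ToricPB
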