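import Pool.Agent.Lib.MP_3d51eb_gt.NK.Defs

set_option autoImplicit false

/-!
# MP_3d51eb_gt, project NK: the predicates of the final statement
-/

noncomputable section

namespace ToricPB

open Finset

variable {n : ℕ}

/-- the sum of the pieces `E i`, `i ∈ J` -/
def gsum {K : Finset (Finset (Vec n))} {r : ℕ} (E : Fin r → Submodule ℤ (Coh K))
    (J : Finset (Fin r)) : Submodule ℤ (Coh K) := ⨆ i ∈ J, E i

/-- The `E i` are the pieces of the finest orthogonal decomposition of the second cohomology: they
are not zero, pairwise orthogonal, their sum is `H2 K`, and every orthogonal decomposition of `H2 K`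
into two submodules is a grouping of the `E i`. -/
structure Finest (K : Finset (Finset (Vec n))) {r : ℕ} (E : Fin r → Submodule ℤ (Coh K)) :
    Prop where
  ne : ∀ i, E i ≠ ⊥
  orth : ∀ i j, i ≠ j → Orth (E i) (E j)
  sum : gsum E univ = H2 K
  group : ∀ V W : Submodule ℤ (Coh K), V ⊔ W = H2 K → Orth V W →
    ∃ J : Finset (Fin r), V = gsum E J ∧ W = gsum E Jᶜ

/-- For every neck `B`, `I B` is the set of the pieces inside of `B`, the other pieces are outside;
both sets are not empty, and any two pieces are separated by a neck. -/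
structure NeckGroups (K : Finset (Finset (Vec n))) {r : ℕ} (E : Fin r → Submodule ℤ (Coh K))
    (I : Finset (Vec n) → Finset (Fin r)) : Prop where
  inside : ∀ B ∈ necks K, (I B).Nonempty ∧ inner K B = gsum E (I B)
  outside : ∀ B ∈ necks K, (I B)ᶜ.Nonempty ∧ outer K B = gsum E (I B)ᶜ
  sep : ∀ i j, i ≠ j → ∃ B ∈ necks K, ¬ (i ∈ I B ↔ j ∈ I B)

/-- the ring of `K'` embeds in the ring of `K` such that the image of the second cohomology of `K'`
is `S` -/
def Emb (K' K : Finset (Finset (Vec n))) (S : Submodule ℤ (Coh K)) : Prop :=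
  ∃ ι : Coh K' →+* Coh K, Function.Injective ι ∧ ∀ y, y ∈ S ↔ ∃ z ∈ H2 K', ι z = y

end ToricPB
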