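import Pool.Agent.Lib.MP_3d51eb_gt.NK.Spec

set_option autoImplicit false

/-!
# Nest2: nesting (2)
-/

noncomputable section

namespace ToricPB

open Finset MvPolynomial

theorem tNest2 : StExit → StX → StNest2 := by
  intro hE hX n K hK hn B d D hB B' d' D' hB' hne x hx hx'
  obtain ⟨w, hw, hwB⟩ : ∃ w ∈ B', w ∉ B := by
    by_contra h
    push Not at h
    have h1 : B' ⊆ B := h
    exact hne (Finset.eq_of_subset_of_card_le h1 (by rw [hB.mis.1, hB'.mis.1])).symm
  by_cases hwi : InRel B (toR w)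
  · exact Or.inl ⟨w, hw, hwi⟩
  right
  have hwc : ¬ InCone B (toR w) := fun h => by
    rcases hB.bdry w (hB'.sub hw) h with h | h
    · exact hwB h
    · exact hwi h
  obtain ⟨s, hs0, hs1, t, htK, htB, htz⟩ := hE n K B d D hB.toMA x (toR w) hx hwc
  have hz : InRel B' ((1 - s) • x + s • toR w) := by
    rw [hB'.rel]
    intro β hβ
    have h1 := (hB'.rel x).1 hx' β hβ
    have h2 : 0 ≤ dot (toR (D' β)) (toR w) := by
      rw [dot_toR]
      by_cases h : w = β
      · rw [h, hB'.diag β hβ]
        exact_mod_cast hB'.pos.le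
      · rw [hB'.off β hβ w hw h]
        simp
    have h3 : dot (toR (D' β)) ((1 - s) • x + s • toR w) =
        (1 - s) * dot (toR (D' β)) x + s * dot (toR (D' β)) (toR w) := by
      rw [dot_add, dot_smul, dot_smul]
    rw [h3]
    have h4 : 0 < (1 - s) * dot (toR (D' β)) x := mul_pos (by linarith) h1
    have h5 : 0 ≤ s * dot (toR (D' β)) (toR w) := mul_nonneg hs0.le h2
    linarith
  obtain ⟨-, v, hv, hvi⟩ := hX n K hK B' d' D' hB'.toMA t htK _ htz hz
  exact ⟨v, htB.1 hv, hvi⟩

end ToricPB
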