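import Pool.Agent.Lib.MP_3d51eb_gt.NK.Spec

set_option autoImplicit false

/-!
# MP_3d51eb_gt, project NK: strict monotonicity of `sh`
-/

noncomputable section

namespace ToricPB

open Finset MvPolynomial

theorem tSh : StNest1 → StSh := by
  classical
  intro hN n K hK hn d D hG v B hB b hb
  have hB1 : B ∈ IM K := (Finset.mem_filter.mp hB).1
  have hB2 : InRel B (toR v) := (Finset.mem_filter.mp hB).2
  have hMI := hG B hB1
  rw [Finset.ssubset_iff_of_subset]
  · exact ⟨B, hB, fun h => hMI.noB b hb (Finset.mem_filter.mp h).2⟩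
  · intro B' hB'
    have h1 : B' ∈ IM K := (Finset.mem_filter.mp hB').1
    have h2 : InRel B' (toR b) := (Finset.mem_filter.mp hB').2
    exact Finset.mem_filter.mpr ⟨h1, hN n K hK hn B hMI.mis B' (d B') (D B') (hG B' h1) b hb h2
      (toR v) hB2⟩

end ToricPB
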