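import Pool.Agent.Lib.MP_3d51eb_gt.NK.Bas

set_option autoImplicit false

/-!
# MP_3d51eb_gt, project NK: necks (statements, part 1: geometry of missing facets, operators)

THEOREM N. Let `n ≥ 3` and let `T` be a self-adjoint endomorphism of `H2 K` (`K` a complete
nonsingular fan), e.g. the projection of an orthogonal decomposition. Then `T` is an integral
combination of the identity, of the projections `rop B` of the independent missing facets `B`, and
of one nilpotent operator. Every module `theorem tX : StY -> .. -> StX`; complete proofs in the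
docstrings. Notation: `Wall K τ p q b`, `bend`, `NT`, `cl`, `mon` are in `PB/Bas.lean`; `Mis`, `Ind`,
`IM`, `MA`, `MI`, `Good`, `CD`, `rop`, `op`, `sh`, `ss`, `SelfAdj` in `NK/Bas.lean`.
-/

noncomputable section

namespace ToricPB

open Finset MvPolynomial

/-! ## A. geometry of missing facets -/

/-- VANISHING CLASSES ARE LINEAR. If `cl K χ = 0`, every wall `τ` has
`0 = cl K χ * mon K τ = bend χ • mon K (insert p τ)` (`StMul`), so `bend χ τ p q b = 0` (`StDeg`,
`NT`). `StLin` with `Ω = univ`: `m` with `χ v = pr m v` for `v` in maximal cones; every ray is in a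
maximal cone (`StNear` with `Ω = univ`, `κ = {v}`, `InRel.singleton`). (Compare `PB/Top.lean`.) -/
def StClz : Prop := ∀ (n : ℕ) (K : Finset (Finset (Vec n))), IsFan K → 2 ≤ n →
  ∀ χ : Vec n → ℤ, cl K χ = 0 → ∃ m : Vec n, ∀ v ∈ verts K, χ v = pr m v

/-- NONDEGENERACY WITH TWO FACTORS. `y = cl K ψ`. Every wall has `τ.card = n - 1 ≥ 2`, so `mon K τ`
is a multiple of `cls K v * cls K w` for two elements `v ≠ w` of `τ`, and
`0 = y * mon K τ = bend ψ • mon K (insert p τ)`, `bend ψ = 0`. Then as in `StClz`,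
`y = cl K ψ = cl K (pr m) = 0` (`cl_congr`, `cl_pr`). -/
def StZZ : Prop := ∀ (n : ℕ) (K : Finset (Finset (Vec n))), IsFan K → 3 ≤ n →
  ∀ y ∈ H2 K, (∀ v w, y * cls K v * cls K w = 0) → y = 0

/-- NO TORSION in `H2 K`. `y = cl K ψ`, `N • y = cl K (N ψ) = 0`, so (`StClz`) all bends of `N ψ`
vanish (`bend_pr`, `bend_congr`; or directly `StMul` and `StDeg`), so all bends of `ψ` vanish, and
`y = 0` as in `StZZ` (`StLin`, `StNear`). -/
def StTf : Prop := ∀ (n : ℕ) (K : Finset (Finset (Vec n))), IsFan K → 2 ≤ n →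
  ∀ y ∈ H2 K, ∀ N : ℤ, N ≠ 0 → N • y = 0 → y = 0

/-- ALGEBRAIC DATA OF AN INDEPENDENT MISSING FACET. Let `b ∈ B`, `τ = B.erase b ∈ K`,
`τ.card + 1 = n`, so `Wall K τ p q c` (`StWall`). `StDual` for `insert p τ`: a form `u` with
`pr u p = 1`, `pr u v = 0` for `v ∈ τ` (`p ∉ τ`); the wall relation gives `pr u q = -1`.
`pr u b ≠ 0`: `b = ∑ v ∈ insert p τ, e v • v` with integers `e` (`StDual`, last part), `e p = pr u b`
(apply `pr u`); if it were `0`, then `b` is a combination of `τ`, contradicting `Ind B`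
(`lin_int`, `lin_insert`). Let `D b = u` or `-u` such that `pr (D b) b > 0`; put
`d_b = pr (D b) b`. `wall`: for another completion `Wall K τ p' q' c'`: `p' = p` or `p' = q` by the
uniqueness clause of `Wall`. `d_b` IS THE SAME FOR ALL `b`: every `y : Vec n` is
`∑ v ∈ τ, e v • v + e p • p`, and `b = ∑ v ∈ τ, f v • v ± d_b • p`, so `d_b • y` is an integral
combination of `B`: `d_b • y = ∑ v ∈ B, c v • v`. Let `b' ∈ B`; take for `y` the ray `p'` with
`pr (D b') p' = ± 1` (from the wall `B.erase b'`): `± d_b = pr (D b') (d_b • y) = c b' * d_b'`. So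
`d_b' ∣ d_b` for all `b, b'`, both positive: equal; this is `d`. `spanR`: the map
`x ↦ (dot (toR (D b)) x)_{b ∈ B}` is injective: `B` is independent with `n` elements, so it spans the
real space (`LinearIndependent` with `n` elements, e.g. via `Fintype.card` and
`finrank`): `x = lin B e`, and `dot (toR (D b)) x = d * e b` (`dot_lin`, `dot_toR`). This gives
`spanR` and `rel`, `cone` (the coefficients are unique, `Ind B`); `span` is the integral
statement (`toR_inj`, `toR_smul`, `lin_int`). `n ≥ 1`, so `B` is not empty (needed to define `d`). -/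
def StMA : Prop := ∀ (n : ℕ) (K : Finset (Finset (Vec n))), IsFan K → 1 ≤ n →
  ∀ B, Mis K B → Ind B → ∃ d D, MA K B d D

/-- EXIT POINT. Let `x` be in the interior of the cone of `B` and `y` not in the closed cone. Some
`dot (toR (D b)) y < 0` (`MA.cone`). Among these `b` choose one, `b0`, which minimizes
`s_b = dot (toR (D b)) x / (dot (toR (D b)) x - dot (toR (D b)) y)` (in `(0, 1)`); `s = s_b0`,
`z = (1 - s) • x + s • y`: `dot (toR (D b)) z ≥ 0` for all `b ∈ B`, `= 0` for `b0`. With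
`t = B.filter (0 < dot (toR (D ·)) z)`: `t ⊂ B` (not `b0`), `t ∈ K` (`Mis`), and `InRel t z` by
`spanR` (divide by `d`; `lin_subset`). -/
def StExit : Prop := ∀ (n : ℕ) (K : Finset (Finset (Vec n))) (B : Finset (Vec n)) (d : ℤ)
  (D : Vec n → Vec n), MA K B d D → ∀ x y : Fin n → ℝ, InRel B x → ¬ InCone B y →
    ∃ s : ℝ, 0 < s ∧ s < 1 ∧ ∃ t ∈ K, t ⊂ B ∧ InRel t ((1 - s) • x + s • y)

/-- LEMMA X. Let `x` be in the relative interior of `t ∈ K` and in the interior of the cone of `B`.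
(1) every `v ∈ t` is in the closed cone: otherwise `StExit` for `x` and `toR v`: the exit point `z`
is in the relative interior of `t' ∈ K`, `t' ⊂ B`, and also in the relative interior of `t` (its
coefficients are `(1 - s) c w + s δ_v w > 0`), so `t = t'` (`IsFan.uniq`), and `InRel t' x`; but
`InRel B x` gives `dot (toR (D b)) x > 0` for a `b ∈ B \ t'`, while `dot (toR (D b))` vanishes on
`t'` (`off`, `dot_lin`): contradiction. (2) a ray `v` of `K` in the closed cone and not in the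
interior is in `B`: `t' = B.filter (0 < pr (D ·) v)` is `≠ B`, so in `K`, `InRel t' (toR v)`
(`spanR`), `{v} ∈ K` (`IsFan.single`), so `t' = {v}`. (3) some `v ∈ t` is interior: otherwise
`t ⊆ B` by (1), (2), `t ≠ B` as `B ∉ K`, so there is `b ∈ B \ t` and `dot (toR (D b)) x = 0`:
contradiction. -/
def StX : Prop := ∀ (n : ℕ) (K : Finset (Finset (Vec n))), IsFan K → ∀ B d D, MA K B d D →
  ∀ t ∈ K, ∀ x, InRel t x → InRel B x →
    (∀ v ∈ t, v ∈ B ∨ InRel B (toR v)) ∧ ∃ v ∈ t, InRel B (toR v)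

/-- POSITION OF THE OTHER RAYS. `sub`: `Mis.sub`. `noB`: `pr (D b') b = 0` for another `b' ∈ B`
(`n ≥ 2`), `MA.rel'`. `bdry`: step (2) of `StX` (repeat it). `adj`: if `w = v` clear. Otherwise
consider `x = toR v + ε • toR w`, `ε > 0` small: in the relative interior of `{v, w}` and, as
`dot (toR (D b)) (toR v) > 0` for all `b`, in the interior of the cone of `B` (`MA.rel`; finitely
many `b`); apply `StX` to `t = {v, w}`. `side`: `pr (D b) p = ± 1` (`MA.wall`), and the wall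
relation gives `pr (D b) q = - pr (D b) p`. Let `r ∈ {p, q}` be the one with value `1`. The point
`x = lin (B.erase b) 1 + ε • toR r` is in the relative interior of `insert r (B.erase b) ∈ K`, and
for small `ε > 0` in the interior of the cone of `B` (`dot (toR (D b')) x = d + ε pr (D b') r` for
`b' ≠ b`, `= ε` for `b' = b`). `StX`: some element of `insert r (B.erase b)` is interior; it is not
in `B` (`noB`), so it is `r`. The other one has value `-1 < 0` at `D b`, so it is not interior. -/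
def StMI : Prop := ∀ (n : ℕ) (K : Finset (Finset (Vec n))), IsFan K → 2 ≤ n → ∀ B d D,
  MA K B d D → MI K B d D

/-- CHOICE OF DATA. `StMA`, `StMI`, `Classical.choose` (`0` for other sets). -/
def StGood : Prop := ∀ (n : ℕ) (K : Finset (Finset (Vec n))), IsFan K → 2 ≤ n →
  ∃ d D, Good K d D

/-- NESTING (1). If an element `b` of `B` is in the interior of the cone of `B'`, then the interior
of the cone of `B` is contained in the interior of the cone of `B'`. Proof: for `b'' ∈ B`,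
`{b, b''} ∈ K` (`Mis.pair`), so `b'' ∈ B'` or `InRel B' (toR b'')` (`MI.adj`), and
`pr (D' β) b'' ≥ 0` for every `β ∈ B'` (`diag`, `off`, `pos` or `rel'`); `pr (D' β) b > 0`. If
`x = lin B c`, `c > 0`, then `dot (toR (D' β)) x = ∑ c b'' * pr (D' β) b'' > 0`; `MA.rel`. -/
def StNest1 : Prop := ∀ (n : ℕ) (K : Finset (Finset (Vec n))), IsFan K → 3 ≤ n → ∀ B, Mis K B →
  ∀ B' d' D', MI K B' d' D' → ∀ b ∈ B, InRel B' (toR b) → ∀ x, InRel B x → InRel B' x

/-- NESTING (2). `B ≠ B'` with `n` elements each, so there is `w ∈ B'`, `w ∉ B`; assume not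
`InRel B (toR w)` (else done). Then `w` is not in the closed cone of `B` (`MI.bdry`,
`w ∈ verts K` by `MI.sub`). `StExit` for `B`, `x`, `toR w`: `z = (1 - s) • x + s • toR w` in the
relative interior of `t ∈ K`, `t ⊂ B`. And `z` is in the interior of the cone of `B'`:
`dot (toR (D' β)) z = (1 - s) * (positive) + s * pr (D' β) w`, `pr (D' β) w ≥ 0` as `w ∈ B'`. `StX`
for `B'` and `t`: some `v ∈ t ⊆ B` has `InRel B' (toR v)`. -/
def StNest2 : Prop := ∀ (n : ℕ) (K : Finset (Finset (Vec n))), IsFan K → 3 ≤ n →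
  ∀ B d D, MI K B d D → ∀ B' d' D', MI K B' d' D' → B ≠ B' → ∀ x, InRel B x → InRel B' x →
    (∃ w ∈ B', InRel B (toR w)) ∨ ∃ w ∈ B, InRel B' (toR w)

/-- DEPENDENT MISSING FACETS. Let `C` be a missing facet and `lin C r = 0` with `r ≠ 0` on `C`.
All `r c ≠ 0` on `C`: if `r c0 = 0` then `lin (C.erase c0) r = 0`, and `C.erase c0 ∈ K` is
independent (`StDual`), so `r = 0` on `C`. Not both signs occur: `P = C.filter (0 < r ·)`,
`N = C.filter (r · < 0)` would be proper subsets, in `K`, and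
`lin P r = lin N (-r)` is in both relative interiors, so `P = N` (`IsFan.uniq`): impossible. So we may
assume `r > 0` on `C` (replace `r` by `-r`). Fix `c0 ∈ C`, `τ = C.erase c0`, `Wall K τ p q b`
(`StWall`), `h` the form with `pr h p = 1`, `pr h v = 0` on `τ` (`StDual` for `insert p τ`);
`pr h q = -1` (wall relation), and `pr h c0 = 0` (apply `dot (toR h)` to `lin C r = 0`, `r c0 ≠ 0`).
`van` is proved. `sum`: for `c ∈ C`: `c = ∑ v ∈ C.erase c, e v • v` with integers `e v`: by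
`StWall`/`StDual` for a completion `insert p' (C.erase c)`, the coefficient of `p'` is `0` (apply
the form dual to `p'`, which vanishes on `C` by the same argument). Compare with
`toR c = - ∑ (r v / r c) toR v`: `r v / r c = - e v` is an integer (independence of `C.erase c`)
for all `v ≠ c`; so `r v / r c` and `r c / r v` are positive integers, hence `1`: `r` is constant,
`∑ c ∈ C, toR c = 0`. CLAIM A: a real vector `x` with `dot (toR h) x = 0` is in the relative
interior of some `t ∈ K`, `t ⊂ C`: `x = lin (insert p τ) e` (`StDual`), `e p = dot (toR h) x = 0`,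
so `x = lin C e'` (`e' c0 = 0`); subtract the minimum of `e'` over `C` from all coefficients
(`∑ c ∈ C, toR c = 0`): `x = lin C e''`, `e'' ≥ 0`, `e'' = 0` for one `c`;
`t = C.filter (0 < e'' ·)`. `ray`: `v ∈ verts K`, `pr h v = 0`: `t = {v}` (`IsFan.uniq`), `v ∈ C`.
`adj`: `{v, w} ∈ K`, `pr h v > 0`; if `pr h w < 0` then `v ≠ w` and
`x = (- pr h w) • toR v + (pr h v) • toR w` has `dot (toR h) x = 0` and is in the relative interior
of `{v, w}`; CLAIM A: `{v, w} = t ⊆ C`, contradiction with `pr h v > 0`. `adj'` from `adj` for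
`(w, v)`. `side`: for `c ∈ C` and `Wall K (C.erase c) p' q' b'` let `h'` be the form with
`pr h' p' = 1`, `0` on `C.erase c`; the forms `h` and `pr h p' • h'` agree on
`insert p' (C.erase c)`, which spans the lattice, so they agree; at `p`:
`1 = pr h p' * pr h' p`, so `pr h p' = ± 1`; the wall relation gives `pr h q' = - pr h p'`. -/
def StCd : Prop := ∀ (n : ℕ) (K : Finset (Finset (Vec n))), IsFan K → 2 ≤ n →
  ∀ C, Mis K C → ¬ Ind C → ∃ h, CD K C h

/-- THERE IS AT MOST ONE dependent missing facet. Let `CD K C h`, `CD K C' h'`. Suppose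
`pr h c' > 0` for some `c' ∈ C'`. For all `c'' ∈ C'`, `{c', c''} ∈ K` (`Mis.pair`), so
`pr h c'' ≥ 0`; but `∑ c'' ∈ C', pr h c'' = 0`: contradiction. Similarly `< 0`. So `pr h = 0` on
`C'`, `C' ⊆ C` (`CD.ray`, `Mis.sub`), and both have `n` elements. -/
def StCu : Prop := ∀ (n : ℕ) (K : Finset (Finset (Vec n))), 3 ≤ n → ∀ C h C' h',
  CD K C h → CD K C' h' → C = C'

/-- BENDS OF `hp h`. If some `w ∈ τ` has `pr h w > 0`: for `v ∈ τ ∪ {p, q}`, `{w, v} ∈ K` (subset
of `insert p τ` or `insert q τ`) or `v = w`, so `pr h v ≥ 0` and `hp h v = pr h v`; `bend_congr`,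
`bend_pr`: bend `0`; and `τ ⊆ C` is false (`CD.van`). If some `w ∈ τ` has `pr h w < 0`: all these
`v` have `pr h v ≤ 0`, `hp h v = 0`, bend `0`. Otherwise `pr h = 0` on `τ`, so `τ ⊆ C` (`CD.ray`),
`τ = C.erase c` (cardinality), `hp h = 0` on `τ`, and `hp h p + hp h q = 1` (`CD.side`). -/
def StCb : Prop := ∀ (n : ℕ) (K : Finset (Finset (Vec n))), IsFan K → ∀ C h, CD K C h →
  ∀ τ p q b, Wall K τ p q b → bend (hp h) τ p q b = if τ ⊆ C then 1 else 0

/-- BENDS OF `rop`. Write `f = rop B d D (del v)`. CASE I: `InRel B (toR v)`. Then `v ∉ B`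
(`noB`), `f w = d * del v w` for all `w`, so `bend f = d * bend (del v) = d * [insert v τ ∈ K]`
(`bend_smul`, `bend_del`). CASE II: `v ∈ B`. For `InRel B (toR w)`: `w ≠ v`, `f w = - pr (D v) w`;
otherwise `f w = 0`. (II.1) some `w0 ∈ τ` is interior: all `w ∈ τ ∪ {p, q}` are in `B` or interior
(`MI.adj`; `{w0, w} ∈ K`), and on such `w`: `f w = d * del v w - pr (D v) w` (`diag`, `off`); so
`bend f = d * [insert v τ ∈ K]` (`bend_congr`, `bend_sub`, `bend_smul`, `bend_del`, `bend_pr`), as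
claimed (`w0 ∈ insert v τ` is interior, `insert v τ ≠ B` since `w0 ∉ B`). (II.2) no element of `τ`
is interior and some `w0 ∈ τ` is not in `B`: then `p`, `q` are not interior (`{p, w0} ∈ K`, `adj`),
`f = 0` on `τ ∪ {p, q}`, `bend f = 0`; the right side is `0` (no interior element in
`insert v τ`; `w0 ∈ insert v τ`, `w0 ∉ B`). (II.3) `τ ⊆ B`: as `v ∈ B`, `v ∉ τ`,
`τ.card + 1 = n = B.card`: `τ = B.erase v`, `insert v τ = B ∉ K`. `f = 0` on `τ`; `MI.side`: one of
`p, q` is interior with `pr (D v) = 1`, there `f = -1`, at the other `f = 0`: `bend f = -1`.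
CASE III: `v ∉ B`, not interior: `f w = 0` for all `w` (if `w` is interior, `w ≠ v`, and the sum
over `b ∈ B` of `pr (D b) w * del v b` is `0`). The right side is `0`: an interior
`w ∈ insert v τ ∈ K` is in `τ` and gives `v ∈ B` or `v` interior (`adj`), a contradiction; and
`insert v τ ≠ B` as `v ∉ B`. -/
def StRb : Prop := ∀ (n : ℕ) (K : Finset (Finset (Vec n))), IsFan K → ∀ B d D, MI K B d D →
  ∀ v ∈ verts K, ∀ τ p q b, Wall K τ p q b → v ∉ τ →
    ((insert v τ ∈ K ∧ ∃ w ∈ insert v τ, InRel B (toR w)) →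
      bend (rop B d D (del v)) τ p q b = d) ∧
    (insert v τ = B → bend (rop B d D (del v)) τ p q b = -1) ∧
    (¬ (insert v τ ∈ K ∧ ∃ w ∈ insert v τ, InRel B (toR w)) → insert v τ ≠ B →
      bend (rop B d D (del v)) τ p q b = 0)

/-! ## B. self-adjoint operators -/

/-- THE NUMBERS `g`. Let `a` be self-adjoint. Fix a maximal cone and `pt = mon K σ0` (all `mon K σ`,
`σ` maximal, are equal, `StPt`; there is a maximal cone: `StNear` for `κ = ∅`, `Ω = univ`).
(1) if `Wall K τ p q b`, `v ∉ τ`, `a v = cl K ψ`: `a v * mon K τ = bend ψ • pt` (`StMul`). (2) for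
`v ≠ w` in `s`: `a v * mon K (s.erase v) = a v * cls K w * mon K ((s.erase v).erase w) =
a w * cls K v * mon K (..) = a w * mon K (s.erase w)` (`SelfAdj.sa`, `mon_insert`). Define `g s`: if
`s.card = n`, all `s.erase w ∈ K` (`w ∈ s`) and there is an integer `N` with
`∀ v ∈ s, a v * mon K (s.erase v) = N • pt`, then `g s` is such an `N` (choice), otherwise `0`.
Second clause clear. First clause: `s = insert v τ`, `s.erase v = τ`, `s.card = n`. If all
`s.erase w ∈ K`: by (1), (2) `N = bend ψ` is possible, and it is unique (`NT` from `StDeg`), so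
`g s = bend ψ`. If `s.erase w ∉ K` for some `w ∈ s`: `bend ψ • pt = a v * mon K τ =
a w * mon K (s.erase w) = 0` (`mon_eq_zero`), so `bend ψ = 0 = g s`. -/
def StG : Prop := ∀ (n : ℕ) (K : Finset (Finset (Vec n))), IsFan K → 2 ≤ n →
  ∀ a, SelfAdj K a → ∃ g : Finset (Vec n) → ℤ,
    (∀ v ψ, a v = cl K ψ → ∀ τ p q b, Wall K τ p q b → v ∉ τ →
      bend ψ τ p q b = g (insert v τ)) ∧
    ∀ s, g s ≠ 0 → s.card = n ∧ ∀ w ∈ s, s.erase w ∈ K

/-- BENDS OF THE CORRECTED FUNCTIONS. `bend_add`, `bend_sub`, `bend_smul`, `bend_sum` (write `Th` in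
this form; `∑ B` with coefficient `g B`). `bend χ = g (insert v τ)` is the hypothesis. `StRb` gives
the terms of the sum over `B ∈ IM K` (`Good`), in the three cases of the `if`. Last term: if
`κ = 0` (second case of `Cho`) both sides have no last term. If `CD K C h`: `StCb`:
`bend (hp h) τ = if τ ⊆ C then 1 else 0`; and (`v ∈ C` and `τ ⊆ C`) iff `insert v τ = C`, since
`v ∉ τ`, `(insert v τ).card = n = C.card` (`Finset.eq_of_subset_of_card_le`). -/
def StTh1 : Prop := ∀ (n : ℕ) (K : Finset (Finset (Vec n))), IsFan K → ∀ d D, Good K d D →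
  ∀ g κ C h, Cho K g κ C h → ∀ v ∈ verts K, ∀ χ : Vec n → ℤ, ∀ τ p q b, Wall K τ p q b → v ∉ τ →
    bend χ τ p q b = g (insert v τ) →
    bend (Th K d D g κ C h v χ) τ p q b = fF K d g κ C (insert v τ)

/-- VANISHING. `s ∉ K`, so the first `if` is false for all `B`: the sum is
`∑ B ∈ IM K, g B * (if s = B then -1 else 0) = - (if s ∈ IM K then g s else 0)`. If `g s = 0`: the
sum is `0`, and if `s = C` then `κ = g C = 0` in the first case of `Cho`, `κ = 0` in the second: all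
`0`. If `g s ≠ 0`: all `s.erase w ∈ K` (`w ∈ s`), so `Mis K s` (a proper subset of `s` misses some
`w ∈ s`, `IsFan.down`). If `Ind s`: `s ∈ IM K` (`mem_IM`, `Mis.sub`), and `s ≠ C` in the first case
of `Cho` (`C` is not independent: `lin C 1 = toR (∑ c ∈ C, c) = 0`, `C` not empty), `κ = 0` in the
second: `fF = g s - g s = 0`. If not `Ind s`: `s ∉ IM K`, the first case of `Cho` holds (the second
one says `Ind s`), `StCd` gives `CD K s h'`, so `s = C` (`StCu`), and `fF = g s - κ = 0`. -/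
def StTh2 : Prop := ∀ (n : ℕ) (K : Finset (Finset (Vec n))), IsFan K → 3 ≤ n →
  ∀ (d : Finset (Vec n) → ℤ) g κ C h, Cho K g κ C h →
    (∀ s, g s ≠ 0 → s.card = n ∧ ∀ w ∈ s, s.erase w ∈ K) →
    ∀ s, s.card = n → s ∉ K → fF K d g κ C s = 0

/-- LINEAR RELATIONS. The function `A w = ∑ v ∈ verts K, pr m v * ψ v w` has class
`∑ pr m v • a v = 0` (`cl_sum`, `cl_smul`, `SelfAdj.rel`), so it is linear on `verts K` (`StClz`) and
its bend at every wall is `0` (`bend_congr`, `bend_pr`; `p`, `q` and the elements of `τ` are rays,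
`mem_verts_of_mem`). For `B ∈ IM K`: `∑ v ∈ verts K, pr m v * rop B .. (del v) w =
rop B .. (fun w => ∑ v ∈ verts K, pr m v * del v w) w` (`rop_sum`, `rop_smul`), the inner function is
`pr m` on `verts K`, so (`rop_congr`, `rop_pr`) this is `0` for `w ∈ verts K`. Last term:
`∑ v ∈ verts K, pr m v * (if v ∈ C then 1 else 0) = ∑ c ∈ C, pr m c = pr m (∑ c ∈ C, c) = 0` in the
first case of `Cho` (`CD.sum`, `C ⊆ verts K` by `Mis.sub`), `κ = 0` in the second. So
`∑ v ∈ verts K, pr m v * Th .. v (ψ v) w = A w` for `w ∈ verts K`, with bend `0` (`bend_sum`,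
`bend_smul`). -/
def StTh3 : Prop := ∀ (n : ℕ) (K : Finset (Finset (Vec n))), IsFan K → 3 ≤ n → ∀ d D, Good K d D →
  ∀ a, SelfAdj K a → ∀ g κ C h, Cho K g κ C h → ∀ ψ : Vec n → Vec n → ℤ,
    (∀ v ∈ verts K, a v = cl K (ψ v)) → ∀ m : Vec n, ∀ τ p q b, Wall K τ p q b →
    ∑ v ∈ verts K, pr m v * bend (Th K d D g κ C h v (ψ v)) τ p q b = 0

/-- THE OPERATOR FORMULA on the generators. `g` from `StG`; `κ, C, h` with `Cho K g κ C h`: if there
is a dependent missing facet take it for `C`, `h` from `StCd`, `κ = g C`; otherwise `C = ∅`,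
`κ = 0`, `h = 0`. `ψ v` with `a v = cl K (ψ v)` (`exists_cl`). By `StG` and `StTh1`
`bend (Th v (ψ v)) τ p q b = fF (insert v τ)` for `v ∈ verts K`, `v ∉ τ`, and this is `0` if
`insert v τ ∉ K` (`StTh2`). (4) wall `τ`: take `m` with `pr m p = 1`, `pr m = 0` on `τ` (`StDual`
for `insert p τ`), `pr m q = -1` (wall relation). `StTh3`: only `v = p` and `v = q` contribute (for
`v ∉ τ`, `v ≠ p, q`: `insert v τ ∉ K`): `0 = fF (insert p τ) - fF (insert q τ)`. (5) `StConn` with
`Ω = univ`: `fF` has the same value `F` on all maximal cones (two maximal cones which contain the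
wall `κ` are `insert p κ` or `insert q κ`, `StWall`). (6) let
`Θ v w = Th v (ψ v) w - F * del v w`. For `v ∉ τ` its bend is `0` (`bend_del`, (5), `StTh2`). For
`v ∈ τ`: `m` with `pr m v = 1`, `pr m = 0` on `τ.erase v` (`StDual` for `τ`); `StTh3` and
`∑ w ∈ verts K, pr m w * bend (del w) τ = bend (pr m) τ = 0` (`bend_sum`, `bend_congr`, `bend_pr`)
give `∑ w ∈ verts K, pr m w * bend (Θ w) τ = 0`, and only `w = v` can contribute. So all bends of
`Θ v` vanish. (7) `StLin` with `Ω = univ` and `StNear` (as in `PB/Top.lean`): `Θ v` is linear on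
`verts K`, `cl K (Θ v) = 0` (`cl_congr`, `cl_pr`): the claim (`cl_add`, `cl_sub`). -/
def StOpG : Prop := ∀ (n : ℕ) (K : Finset (Finset (Vec n))), IsFan K → 3 ≤ n → ∀ d D, Good K d D →
  ∀ a, SelfAdj K a → ∃ (F κ : ℤ) (g : Finset (Vec n) → ℤ) (C : Finset (Vec n)) (h : Vec n),
    (κ = 0 ∨ CD K C h) ∧ ∀ v ∈ verts K, a v = cl K (fun w => F * del v w -
      ∑ B ∈ IM K, g B * rop B (d B) (D B) (del v) w + κ * (if v ∈ C then 1 else 0) * hp h w)

/-- THE OPERATOR FORMULA. Multiply `StOpG` by `ψ v` and sum over `v ∈ verts K` (`cl_sum`,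
`cl_smul`); on `verts K` the function `∑ v ∈ verts K, ψ v * del v` is `ψ`, `rop` is linear
(`rop_sum`, `rop_smul`, `rop_congr`), and `∑ v ∈ verts K, ψ v * (if v ∈ C ..) = ∑ c ∈ C, ψ c` if
`C ⊆ verts K` (`CD`, `Mis.sub`); if `κ = 0` the last term is irrelevant. `cl_congr`. -/
def StOp : Prop := ∀ (n : ℕ) (K : Finset (Finset (Vec n))), IsFan K → 3 ≤ n → ∀ d D, Good K d D →
  ∀ a, SelfAdj K a → ∃ (F κ : ℤ) (g : Finset (Vec n) → ℤ) (C : Finset (Vec n)) (h : Vec n),
    (κ = 0 ∨ CD K C h) ∧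
    ∀ ψ : Vec n → ℤ, ∑ v ∈ verts K, ψ v • a v = cl K (op K d D F κ g C h ψ)

/-! ## C. triangular structure and idempotents -/

/-- STRICT MONOTONICITY. `b ∈ B ∈ sh K v`. If `B' ∈ sh K b` then `InRel B' (toR v)` (`StNest1` for
`x = toR v`), so `B' ∈ sh K v`; and `B ∉ sh K b` (`MI.noB`). -/
def StSh : Prop := ∀ (n : ℕ) (K : Finset (Finset (Vec n))), IsFan K → 3 ≤ n → ∀ d D, Good K d D →
  ∀ v, ∀ B ∈ sh K v, ∀ b ∈ B, sh K b ⊂ sh K v

/-- SHALLOW RAYS. There is a ray `v` with `pr m v < 0`: `IsFan.cover` for `x = - toR m`: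
`x = lin κ c`, `dot (toR m) x < 0` (`dot_self_pos`; `toR m ≠ 0`), so `pr m v < 0` for some
`v ∈ κ ⊆ verts K` (`dot_lin`, `dot_toR`). Choose such a `v` with `(sh K v).card` minimal
(`Finset.exists_min_image`). If `B ∈ sh K v`: `toR v = lin B c`, `c > 0`,
`pr m v = ∑ c b * pr m b`, so `pr m b < 0` for some `b ∈ B ⊆ verts K`, and `sh K b ⊂ sh K v`
(`StSh`): contradiction. -/
def StShal : Prop := ∀ (n : ℕ) (K : Finset (Finset (Vec n))), IsFan K → 3 ≤ n → ∀ d D, Good K d D →
  ∀ m : Vec n, m ≠ 0 → ∃ r ∈ verts K, sh K r = ∅ ∧ pr m r < 0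

/-- PAIRS. Let `B ∈ IM K`. There is an interior ray (`StWall` for `B.erase b`, `MI.side`); choose
the interior ray `p` with `(sh K p).card` minimal, and `p' ∈ B` with `(sh K p').card` maximal.
`B ∉ sh K p'` (`noB`). `⊇`: `StSh` and `B ∈ sh K p`. `⊆`: let `B'' ∈ sh K p`, `B'' ≠ B`.
`StNest2` for `B`, `B''`, `x = toR p`. Case 1: `w ∈ B''`, `InRel B (toR w)`: `w ∈ verts K`,
`sh K w ⊂ sh K p` (`StSh`), contradiction with the minimality of `p`. Case 2: `w ∈ B` with
`InRel B'' (toR w)`. Suppose `B'' ∉ sh K p'`. CLAIM `sh K p' ⊂ sh K w` (contradiction with the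
maximality of `p'`): `B'' ∈ sh K w`, not in `sh K p'`. Let `B' ∈ sh K p'`; `B' ≠ B''`. By `StNest1`
(`b = p'`, `B`, `B'`) `InRel B' (toR p)`. `StNest2` for `B'`, `B''`, `x = toR p`: either
`v ∈ B''` with `InRel B' (toR v)`, then by `StNest1` `InRel B' (toR w)` (as `InRel B'' (toR w)`), so
`B' ∈ sh K w`; or `v ∈ B'` with `InRel B'' (toR v)`, then by `StNest1` `InRel B'' (toR p')` (as
`InRel B' (toR p')`), contradiction. -/
def StPair : Prop := ∀ (n : ℕ) (K : Finset (Finset (Vec n))), IsFan K → 3 ≤ n → ∀ d D, Good K d D →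
  ∀ B ∈ IM K, ∃ p ∈ verts K, ∃ p' ∈ verts K, B ∉ sh K p' ∧ sh K p = insert B (sh K p')

/-- THE DEPENDENT FACET IS SHALLOW. Suppose `B ∈ sh K c`, `c ∈ C`. For `c' ∈ C`: `{c, c'} ∈ K`
(`Mis.pair`), so `c' ∈ B` or `InRel B (toR c')` (`MI.adj`), so `pr (D β) c' ≥ 0` for `β ∈ B`, and
`pr (D β) c > 0`; but `∑ c' ∈ C, pr (D β) c' = 0` (`CD.sum`): contradiction (`B` not empty). -/
def StCsh : Prop := ∀ (n : ℕ) (K : Finset (Finset (Vec n))), IsFan K → 3 ≤ n → ∀ d D, Good K d D →
  ∀ C h, CD K C h → ∀ c ∈ C, sh K c = ∅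

/-- TRIANGULAR STRUCTURE. (1) for `sh K r = ∅` no `B ∈ IM K` has `r` in its interior, so all
`rop B .. ψ r = 0`. (2) Let `ψ v = 0` for all rays `v` with `¬ sh K p ⊆ sh K v`. For `B ∈ sh K p`
and `b ∈ B`: `sh K b ⊂ sh K p` (`StSh`), so `ψ b = 0` and `rop B .. ψ p = d B * ψ p`; for other
`B ∈ IM K`, `rop B .. ψ p = 0`. The last term vanishes: `κ = 0`, or (`StCsh`) `sh K c = ∅` for
`c ∈ C`, so `ψ c = 0` (`sh K p ≠ ∅`). So `op ψ p = ss p * ψ p`. Second part: let
`¬ sh K p ⊆ sh K v`: `ψ v = 0`; for `B ∈ sh K v` and `b ∈ B`: `sh K b ⊂ sh K v`, so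
`¬ sh K p ⊆ sh K b`, `ψ b = 0`; last term as before. (3) let `B ∈ sh K p`; for `b ∈ B`:
`B ∉ sh K b` (`noB`), so `pr m b = 0`; `MA.span`: `d • v = ∑ pr (D b) v • b`, so `pr m v = 0` for
all `v : Vec n`, `m = 0` (e.g. `v = m`, or unit vectors). -/
def StTri : Prop := ∀ (n : ℕ) (K : Finset (Finset (Vec n))), IsFan K → 3 ≤ n → ∀ d D, Good K d D →
  ∀ (F κ : ℤ) (g : Finset (Vec n) → ℤ) (C : Finset (Vec n)) (h : Vec n), (κ = 0 ∨ CD K C h) →
  (∀ ψ, ∀ r ∈ verts K, sh K r = ∅ →
    op K d D F κ g C h ψ r = F * ψ r + κ * (∑ c ∈ C, ψ c) * hp h r) ∧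
  (∀ p ∈ verts K, sh K p ≠ ∅ → ∀ ψ : Vec n → ℤ,
    (∀ v ∈ verts K, ¬ sh K p ⊆ sh K v → ψ v = 0) →
    op K d D F κ g C h ψ p = ss K d F g p * ψ p ∧
    ∀ v ∈ verts K, ¬ sh K p ⊆ sh K v → op K d D F κ g C h ψ v = 0) ∧
  ∀ p ∈ verts K, sh K p ≠ ∅ → ∀ m : Vec n,
    (∀ v ∈ verts K, ¬ sh K p ⊆ sh K v → pr m v = 0) → m = 0

/-- IDEMPOTENTS. Write `Q = op K d D F κ g C h`. For every `ψ`, `cl K (Q (Q ψ) - Q ψ) = 0`, so
`Q (Q ψ) - Q ψ = pr m` on `verts K` (`StClz`). STEP 1: `κ = 0`. Otherwise `CD K C h`; take `c0 ∈ C`,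
`ψ = del c0`. For shallow `r` (`sh K r = ∅`), `StTri` (1): `Q ψ r = F * ψ r + κ * hp h r`; for
`c ∈ C` (shallow, `StCsh`), `hp h c = 0`, so `∑ c ∈ C, Q ψ c = F`; and
`Q (Q ψ) r = F * (F * ψ r + κ * hp h r) + κ * F * hp h r`. So
`pr m r = (F² - F) * ψ r + κ * (2 F - 1) * hp h r` for shallow `r`. For `c ∈ C`, `c ≠ c0`:
`pr m c = 0`; `∑ C = 0` gives `pr m c0 = 0`, so `F² = F`. So `pr m r = κ * (2 F - 1) * hp h r` has a
constant sign on the shallow rays, and `m = 0` by `StShal` (for `m` or `-m`). There is a shallow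
`r` with `pr h r > 0` (`StShal` for `-h`; `h ≠ 0` by `CD.side` and `StWall`): `hp h r > 0`, so
`κ * (2 F - 1) = 0`, `κ = 0` (`2 F - 1` is odd). STEP 2: `F² = F`. Take a shallow ray `r0` (`StShal`
for any `m ≠ 0`), `ψ = del r0`: `pr m r = (F² - F) * ψ r ≥ 0` on shallow rays, so `m = 0`
(`StShal`), `F² - F = 0`. STEP 3: for `p ∈ verts K` with `sh K p ≠ ∅`, `ψ = del p` satisfies the
hypothesis of `StTri` (2), and so does `Q ψ`; so `pr m v = 0` if `¬ sh K p ⊆ sh K v`, `m = 0`
(`StTri` (3)), and at `p`: `s² = s` for `s = ss K d F g p`. If `sh K p = ∅`, `ss K d F g p = F`, so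
`s² = s` for all `p`. STEP 4: `B ∈ IM K`: `p`, `p'` from `StPair`:
`ss p = ss p' - g B * d B`; both are `0` or `1`, so `g B * d B ∈ {-1, 0, 1}`; `g B ≠ 0` and
`d B > 0` give `d B = 1`. -/
def StId : Prop := ∀ (n : ℕ) (K : Finset (Finset (Vec n))), IsFan K → 3 ≤ n → ∀ d D, Good K d D →
  ∀ (F κ : ℤ) (g : Finset (Vec n) → ℤ) (C : Finset (Vec n)) (h : Vec n), (κ = 0 ∨ CD K C h) →
  (∀ ψ, cl K (op K d D F κ g C h (op K d D F κ g C h ψ)) = cl K (op K d D F κ g C h ψ)) →
  κ = 0 ∧ ∀ B ∈ IM K, g B ≠ 0 → d B = 1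

/-- ZERO OPERATOR. With `κ = 0`, `C = ∅`, `h = 0`, `Q = op ..`; `Q ψ = pr m` on `verts K`
(`StClz`). As in `StId`: for a shallow ray `r0`, `ψ = del r0`: `pr m r = F * del r0 r` on shallow
rays, constant sign, `m = 0`, `F = 0`. For `sh K p ≠ ∅`: `Q (del p)` satisfies the hypothesis of
`StTri` (3), so it is `0`, `ss K d F g p = 0` (`StTri` (2)); if `sh K p = ∅`, `ss = F = 0`. `StPair`:
`g B * d B = ss p' - ss p = 0`, so `g B = 0`. -/
def StZo : Prop := ∀ (n : ℕ) (K : Finset (Finset (Vec n))), IsFan K → 3 ≤ n → ∀ d D, Good K d D →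
  ∀ (F : ℤ) (g : Finset (Vec n) → ℤ), (∀ ψ, cl K (op K d D F 0 g ∅ 0 ψ) = 0) →
  F = 0 ∧ ∀ B ∈ IM K, g B = 0

end ToricPB
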