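import Pool.Agent.Lib.MP_3d51eb_gt.NK.Spec

set_option autoImplicit false

/-!
# MP_3d51eb_gt, project NK: necks (statements, part 2: necks, endomorphisms, final assembly)
-/

noncomputable section

namespace ToricPB

open Finset MvPolynomial

variable {n : ℕ}

/-- image of an endomorphism of `H2 K`, as a submodule of the ring -/
def rg {K : Finset (Finset (Vec n))} (T : Module.End ℤ (H2 K)) : Submodule ℤ (Coh K) :=
  (LinearMap.range T).map (H2 K).subtype

/-- the pull-back from `cut K B`: the part outside of `B` -/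
def IsCutHom (K : Finset (Finset (Vec n))) (B : Finset (Vec n)) (D : Vec n → Vec n)
    (ι : Coh (cut K B) →+* Coh K) : Prop :=
  ∀ v ∈ verts K, ¬ InRel B (toR v) →
    ι (cls (cut K B) v) = cl K (fun w => del v w - rop B 1 D (del v) w)

/-- the pull-back from `core K B`: the part inside of `B` -/
def IsCoreHom (K : Finset (Finset (Vec n))) (B : Finset (Vec n)) (D : Vec n → Vec n)
    (ι : Coh (core K B) →+* Coh K) : Prop :=
  ∀ v ∈ verts K, (v ∈ B ∨ InRel B (toR v)) →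
    ι (cls (core K B) v) = cl K (rop B 1 D (del v))

/-! ## D. necks -/

/-- NECKS are the independent missing facets of index one. `→`: `Uni B` gives `Ind B` (`StDual`),
`Mis K B`, so `B ∈ IM K` and `MI K B (d B) (D B)`. Take `b ∈ B` (`n ≥ 1`) and a completion
`Wall K (B.erase b) p q c` (`StWall`): `pr (D b) p = ± 1`; `p = ∑ v ∈ B, e v • v` with integers `e`
(`StDual`, `B.card = n`), so `± 1 = pr (D b) p = e b * d B` (`diag`, `off`); `d B > 0`, so
`d B = 1`. `←`: `MA.span` with `d = 1` and `StUniOf`. -/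
def StNk : Prop := ∀ (n : ℕ) (K : Finset (Finset (Vec n))), IsFan K → 2 ≤ n → ∀ d D, Good K d D →
  ∀ B, B ∈ necks K ↔ B ∈ IM K ∧ d B = 1

/-- THE TWO PARTS. Let `MI K B 1 D`. (1) `rop B 1 D ψ` vanishes at the rays which are not interior:
`cl K _` is a combination of the classes of interior rays. (2) `χ = ψ - rop B 1 D ψ`,
`m = ∑ b ∈ B, ψ b • D b`. `χ = pr m` on `B` (`diag` with `d = 1`, `off`; `noB`) and at interior rays
(`χ v = ∑ pr (D b) v * ψ b`). So `cl K χ = cl K (χ - pr m)` (`cl_sub_pr`), and `χ - pr m` vanishes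
at all rays in the closed cone (`bdry`): a combination of classes of rays outside. (3) products:
for generators: `v` interior, `w` a ray with `¬ InCone B (toR w)`: `{v, w} ∉ K` (`MI.adj`: otherwise
`w ∈ B` or interior, so `InCone`), `v ≠ w`, `cls_mul_eq_zero`; `Submodule.span_induction` twice.
(4) `⊆` clear (`cls_mem`); for `y ∈ H2 K`, `y = cl K ψ = cl K (rop ..) + cl K (ψ - rop ..)`. -/
def StNd : Prop := ∀ (n : ℕ) (K : Finset (Finset (Vec n))), IsFan K → ∀ B D, MI K B 1 D →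
  (∀ ψ : Vec n → ℤ, cl K (rop B 1 D ψ) ∈ inner K B) ∧
  (∀ ψ : Vec n → ℤ, cl K (fun v => ψ v - rop B 1 D ψ v) ∈ outer K B) ∧
  Orth (inner K B) (outer K B) ∧ inner K B ⊔ outer K B = H2 K

/-- PROJECTIONS OF ORTHOGONAL DECOMPOSITIONS. `V ⊓ W = ⊥`: for `y ∈ V ⊓ W` and every `v`,
`cls K v = v' + v''` with `v' ∈ V`, `v'' ∈ W`, and `y * v' = 0` (as `y ∈ W`, `v' ∈ V`; commute),
`y * v'' = 0`; so `y = 0` (`StZero`, `NT` from `StDeg`; `y ∈ H2 K`). So the submodules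
`V.comap (H2 K).subtype`, `W.comap (H2 K).subtype` of `H2 K` are complements (`IsCompl`), and `T` is
the projection to the first one (`Submodule.linearProjOfIsCompl` composed with the inclusion, or
`Submodule.IsCompl.projection`). `T * T = T`, `T y = y ↔ y ∈ V`, `T y = 0 ↔ y ∈ W` clear. `SA`:
`y = y' + y''`, `z = z' + z''`: `(T y) z = y' z' + y' z'' = y' z' = y (T z)`. -/
def StEnd : Prop := ∀ (n : ℕ) (K : Finset (Finset (Vec n))), IsFan K → 2 ≤ n →
  ∀ V W : Submodule ℤ (Coh K), V ⊔ W = H2 K → Orth V W →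
  ∃ T : Module.End ℤ (H2 K), T * T = T ∧ SA T ∧ (∀ y : H2 K, (y : Coh K) ∈ V ↔ T y = y) ∧
    ∀ y : H2 K, (y : Coh K) ∈ W ↔ T y = 0

/-- `StEnd` for `V = inner K B`, `W = outer K B` (`StNd`). The formula:
`cl K ψ = cl K (rop B 1 D ψ) + cl K (ψ - rop B 1 D ψ)`, the first is fixed, the second is sent to
`0`. -/
def StPb : Prop := ∀ (n : ℕ) (K : Finset (Finset (Vec n))), IsFan K → 2 ≤ n → ∀ B D, MI K B 1 D →
  ∃ P, IsPB K B D P

/-- SELF-ADJOINT ENDOMORPHISMS COMMUTE (`n ≥ 3`). For `y, z, w : H2 K`: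
`(T (S y)) * z * w = (S y) * (T z) * w = (T z) * (y * (S w)) = z * (T y) * (S w) =
z * (S (T y)) * w`. So `(T (S y) - S (T y)) * z * w = 0` for all `z, w`, in particular for
`z = cls K v`, `w = cls K v'`; `StZZ`. `LinearMap.ext`. -/
def StComm : Prop := ∀ (n : ℕ) (K : Finset (Finset (Vec n))), IsFan K → 3 ≤ n →
  ∀ T S : Module.End ℤ (H2 K), SA T → SA S → T * S = S * T

/-- IDEMPOTENTS ARE COMBINATIONS OF NECK PROJECTIONS. Put `a v = T ⟨cls K v, cls_mem v⟩`.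
`SelfAdj K a`: `mem` clear, `sa` from `SA T`, `rel`: `∑ pr m v • a v = T (∑ pr m v • cls K v) = T 0`
(`lin_rel`). `StOp`: `F κ g C h`, and `T ⟨cl K ψ, _⟩ = ∑ v ∈ verts K, ψ v • a v =
cl K (op K d D F κ g C h ψ)` for all `ψ`. `T * T = T` gives the hypothesis of `StId`, so `κ = 0` and
`g B ≠ 0 → d B = 1` on `IM K`. So for `y = cl K ψ`: `T y = F • y - ∑ B ∈ IM K, g B • cl K (rop B (d
B) (D B) ψ)`, only the `B` with `g B ≠ 0` contribute, they are necks (`StNk`) with `d B = 1`, and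
`cl K (rop B 1 (D B) ψ) = P B y`; conversely the necks are in `IM K`. (`Finset.sum_subset`.) -/
def StOpE : Prop := ∀ (n : ℕ) (K : Finset (Finset (Vec n))), IsFan K → 3 ≤ n → ∀ d D, Good K d D →
  ∀ P : Finset (Vec n) → Module.End ℤ (H2 K), (∀ B ∈ necks K, IsPB K B (D B) (P B)) →
  ∀ T : Module.End ℤ (H2 K), T * T = T → SA T →
    ∃ (F : ℤ) (g : Finset (Vec n) → ℤ), T = F • 1 - ∑ B ∈ necks K, g B • P B

/-- INDEPENDENCE. Let `g' B = g B` for `B ∈ necks K` and `0` otherwise. For every `ψ`,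
`cl K (op K d D F 0 g' ∅ 0 ψ) = (F • 1 - ∑ B ∈ necks K, g B • P B) ⟨cl K ψ, _⟩ = 0` (`StNk`:
`necks K ⊆ IM K`, `d B = 1`; `cl_sub`, `cl_smul`, `cl_sum`). `StZo`. -/
def StInE : Prop := ∀ (n : ℕ) (K : Finset (Finset (Vec n))), IsFan K → 3 ≤ n → ∀ d D, Good K d D →
  ∀ P : Finset (Vec n) → Module.End ℤ (H2 K), (∀ B ∈ necks K, IsPB K B (D B) (P B)) →
  ∀ (F : ℤ) (g : Finset (Vec n) → ℤ), F • (1 : Module.End ℤ (H2 K)) -
    ∑ B ∈ necks K, g B • P B = 0 → F = 0 ∧ ∀ B ∈ necks K, g B = 0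

/-- ABSTRACT ALGEBRA: FINITE BOOLEAN ALGEBRAS OF IDEMPOTENTS. `J` is a set of commuting idempotents
of the ring `R`, closed under products and complements, every element is an integral combination of
`1` and the `P B`, `B ∈ 𝒩`, and these are linearly independent. Proof. Call `e : Fin r → R` a frame
if `e i ∈ J`, `e i ≠ 0`, `e i * e j = 0` for `i ≠ j`, `∑ i, e i = 1`. (a) `r = 1`, `e = 1` is a frame
(`1 ≠ 0`: otherwise `F = 1`, `g = 0` contradicts independence). (b) a frame is linearly independent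
over `ℤ` (multiply `∑ c i • e i = 0` by `e j`; no torsion), and contained in the span of the
`𝒩.card + 1` elements `1, P B`; so `r ≤ 𝒩.card + 1` (`linearIndependent_le_span` or similar; or
work with `Module.rank`/`finrank` of the span). (c) take a frame with `r` maximal. For `f ∈ J` and
every `i`: `f * e i` and `(1 - f) * e i` are in `J`, orthogonal, with sum `e i`; if both are not zero
we get a frame with `r + 1` elements (`Fin.cons`, or index the frames by finite sets instead of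
`Fin r`), contradiction. So `f * e i = e i` or `f * e i = 0`, and
`f = f * ∑ e i = ∑ i ∈ I, e i`. (d) so `1, P B` (linearly independent, `𝒩.card + 1` elements) are in
the span of the `e i`: `𝒩.card + 1 ≤ r`. So `r = 𝒩.card + 1`. It may be easier to do (b), (d) with
finsets: frames as finsets `A` of `R` with `0 ∉ A`. -/
def StBool : Prop := ∀ (R : Type) [Ring R] (ι : Type) (J : Set R) (𝒩 : Finset ι) (P : ι → R),
  (∀ N : ℤ, ∀ x : R, N ≠ 0 → N • x = 0 → x = 0) → 1 ∈ J → (∀ e ∈ J, e * e = e) →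
  (∀ e ∈ J, 1 - e ∈ J) → (∀ e ∈ J, ∀ f ∈ J, e * f ∈ J ∧ e * f = f * e) →
  (∀ e ∈ J, ∃ (F : ℤ) (g : ι → ℤ), e = F • 1 - ∑ B ∈ 𝒩, g B • P B) → (∀ B ∈ 𝒩, P B ∈ J) →
  (∀ (F : ℤ) (g : ι → ℤ), F • (1 : R) - ∑ B ∈ 𝒩, g B • P B = 0 → F = 0 ∧ ∀ B ∈ 𝒩, g B = 0) →
  ∃ e : Fin (𝒩.card + 1) → R, (∀ i, e i ∈ J) ∧ (∀ i, e i ≠ 0) ∧ (∀ i j, i ≠ j → e i * e j = 0) ∧
    ∑ i, e i = 1 ∧ ∀ f ∈ J, ∃ I : Finset (Fin (𝒩.card + 1)), f = ∑ i ∈ I, e i

/-- THE FRAME. Apply `StBool` to `R = Module.End ℤ (H2 K)`, `J = {T | T * T = T ∧ SA T}`,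
`𝒩 = necks K`. No torsion: `StTf` (`N • T = 0` gives `N • T y = 0` for all `y`). `1 ∈ J`. `1 - T`:
`SA` is linear. Products: `StComm`, and `(T S y) z = (S y) (T z) = y (S T z) = y (T S z)`. Span:
`StOpE`; independence: `StInE`; `P B ∈ J`: `IsPB`. -/
def StFrame : Prop := ∀ (n : ℕ) (K : Finset (Finset (Vec n))), IsFan K → 3 ≤ n → ∀ d D,
  Good K d D → ∀ P : Finset (Vec n) → Module.End ℤ (H2 K), (∀ B ∈ necks K, IsPB K B (D B) (P B)) →
  ∃ e : Fin ((necks K).card + 1) → Module.End ℤ (H2 K), (∀ i, e i * e i = e i ∧ SA (e i)) ∧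
    (∀ i, e i ≠ 0) ∧ (∀ i j, i ≠ j → e i * e j = 0) ∧ ∑ i, e i = 1 ∧
    ∀ T : Module.End ℤ (H2 K), T * T = T → SA T →
      ∃ I : Finset (Fin ((necks K).card + 1)), T = ∑ i ∈ I, e i

/-- RANGES. `y ∈ rg T ↔ ∃ z : H2 K, T z = y`. For a family of pairwise orthogonal idempotents and
`T = ∑ i ∈ I, e i`: (1) `rg T = ⨆ i ∈ I, rg (e i)`: `⊆`: `T z = ∑ e i z`; `⊇`: `e i z = T (e i z)`
for `i ∈ I` (`T * e i = e i`). (2) if `∑ i, e i = 1`, then for `y : H2 K`: `T y = y ↔ y ∈ rg T`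
(`T * T = T`), and `T y = 0 ↔ y ∈ ⨆ i ∈ Iᶜ, rg (e i)` (`1 - T = ∑ i ∈ Iᶜ, e i`, apply (1) to it:
`T y = 0 ↔ (1 - T) y = y`). So: if a submodule `V ≤ H2 K` satisfies `y ∈ V ↔ T y = y`, then
`V = ⨆ i ∈ I, rg (e i)`; if `W ≤ H2 K` satisfies `y ∈ W ↔ T y = 0`, then
`W = ⨆ i ∈ Iᶜ, rg (e i)`. -/
def StRg : Prop := ∀ (n : ℕ) (K : Finset (Finset (Vec n))) (r : ℕ)
  (e : Fin r → Module.End ℤ (H2 K)), (∀ i, e i * e i = e i) → (∀ i j, i ≠ j → e i * e j = 0) →
  ∑ i, e i = 1 → ∀ I : Finset (Fin r), ∀ V W : Submodule ℤ (Coh K), V ≤ H2 K → W ≤ H2 K →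
    (∀ y : H2 K, (y : Coh K) ∈ V ↔ (∑ i ∈ I, e i) y = y) →
    (∀ y : H2 K, (y : Coh K) ∈ W ↔ (∑ i ∈ I, e i) y = 0) →
    V = ⨆ i ∈ I, rg (e i) ∧ W = ⨆ i ∈ Iᶜ, rg (e i)

/-- SEPARATION. Let `i ≠ j` and suppose `i ∈ I B ↔ j ∈ I B` for all `B ∈ necks K`. `StOpE` for
`T = e i`: `e i = F • 1 - ∑ g B • P B`. `P B * e i = (∑ l ∈ I B, e l) * e i = e i` if `i ∈ I B`, `0`
otherwise, the same for `j`. With `c = F - ∑ B ∈ necks K, if i ∈ I B then g B else 0` (`classical`):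
`e i = e i * e i = c • e i` and `0 = e i * e j = c • e j`. No torsion (`StTf`: if `N • T = 0` for an
endomorphism `T` and `N ≠ 0` then `T = 0`): `c = 1` and `c = 0`, contradiction. -/
def StSepE : Prop := ∀ (n : ℕ) (K : Finset (Finset (Vec n))), IsFan K → 3 ≤ n → ∀ d D, Good K d D →
  ∀ P : Finset (Vec n) → Module.End ℤ (H2 K), (∀ B ∈ necks K, IsPB K B (D B) (P B)) →
  ∀ (r : ℕ) (e : Fin r → Module.End ℤ (H2 K)), (∀ i, e i * e i = e i ∧ SA (e i)) →
    (∀ i, e i ≠ 0) → (∀ i j, i ≠ j → e i * e j = 0) →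
    ∀ I : Finset (Vec n) → Finset (Fin r), (∀ B ∈ necks K, P B = ∑ i ∈ I B, e i) →
    ∀ i j, i ≠ j → ∃ B ∈ necks K, ¬ (i ∈ I B ↔ j ∈ I B)

/-- PRIME DECOMPOSITION. `d D` from `StGood`; for `B ∈ necks K`: `B ∈ IM K`, `d B = 1` (`StNk`), so
`MI K B 1 (D B)` and `P B` from `StPb`; frame `e` from `StFrame`; `E i = rg (e i)`; for `B ∈ necks K`
`I B` with `P B = ∑ i ∈ I B, e i` (`StFrame`, last clause; `IsPB`), arbitrary for other `B`.
`E i ≠ ⊥`: `e i ≠ 0`. `Orth (E i) (E j)`: `(e i y) (e j z) = y (e i (e j z)) = 0` (`SA`). Sum: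
`StRg` for `I = univ`, `V = H2 K` (`W = ⊥`). Coarsening: `V`, `W ≤ H2 K`; `StEnd` gives `T`,
`T = ∑ i ∈ J, e i`; `StRg`. Necks: `inner K B`, `outer K B ≤ H2 K` (spans of classes), `IsPB`,
`StRg`; `I B` and its complement are not empty since `P B ≠ 0`, `P B ≠ 1` by `StInE` (`F = 0`,
`g = -δ_B`: `0 • 1 - ∑ g B' • P B' = P B`; `F = 1`, `g = δ_B`: `1 - P B`). Separation:
`StSepE`. -/
def StFin : Prop := ∀ (n : ℕ) (K : Finset (Finset (Vec n))), IsFan K → 3 ≤ n →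
  ∃ (E : Fin ((necks K).card + 1) → Submodule ℤ (Coh K))
    (I : Finset (Vec n) → Finset (Fin ((necks K).card + 1))),
    (∀ i, E i ≠ ⊥) ∧ (∀ i j, i ≠ j → Orth (E i) (E j)) ∧ (⨆ i, E i = H2 K) ∧
    (∀ V W : Submodule ℤ (Coh K), V ⊔ W = H2 K → Orth V W →
      ∃ J : Finset (Fin ((necks K).card + 1)), V = ⨆ i ∈ J, E i ∧ W = ⨆ i ∈ Jᶜ, E i) ∧
    (∀ B ∈ necks K, (I B).Nonempty ∧ (I B)ᶜ.Nonempty ∧ inner K B = ⨆ i ∈ I B, E i ∧
      outer K B = ⨆ i ∈ (I B)ᶜ, E i) ∧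
    ∀ i j, i ≠ j → ∃ B ∈ necks K, ¬ (i ∈ I B ↔ j ∈ I B)

/-! ## E. the two sides of a neck -/

/-- THE OUTSIDE IS A FAN. Use `mem_cut`. `down`: subsets of `B` are `B` or in `K` without interior
elements (`noB`). `smooth`: `Uni B`, `IsFan.smooth`. `cover`: let `x` be given. (a) `InRel B x`: `B`
is a solution; another one `t ∈ K`, `InRel t x`, no interior element: contradiction to `StX`
(`MI` extends `MA`). (b) not `InRel B x`: let `t ∈ K` with `InRel t x` (`IsFan.cover`). `t` has no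
interior element: if `v ∈ t` is interior, all `w ∈ t` are in `B` or interior (`MI.adj`, `{v, w} ⊆ t`;
`w = v` clear), so `pr (D b) w ≥ 0`, `pr (D b) v > 0` for `b ∈ B`, and `InRel B x` (`MA.rel`,
`dot_lin`), contradiction. So `t ∈ cut K B`. Uniqueness: a solution is not `B`, so it is in `K`
(`IsFan.uniq`). -/
def StCutF : Prop := ∀ (n : ℕ) (K : Finset (Finset (Vec n))), IsFan K → ∀ B D, MI K B 1 D → Uni B →
  IsFan (cut K B)

/-- THE PULL-BACK FROM THE OUTSIDE. `coh_lift` (for `cut K B`) with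
`φ v = cl K (del v - rop B 1 D (del v))` if `v ∈ verts K` and not `InRel B (toR v)`, `φ v = 0`
otherwise. `verts (cut K B) = {v ∈ verts K : ¬ InRel B (toR v)}` (`MI.sub`, `noB`, `IsFan.single`).
(h2): `∑ v ∈ verts (cut K B), pr u v • φ v = ∑ v ∈ verts K, pr u v • cl K (del v - rop (del v))`
(for interior `v`, `rop B 1 D (del v) = del v`, the term is `0`)
`= cl K (pr u - rop (pr u)) = cl K (pr u) = 0` on `verts K` (`cl_sum`, `rop_sum`, `rop_congr`,
`rop_pr`, `cl_pr`). (h1): let `s ∉ cut K B`. If some `v ∈ s` has `φ v = 0` clear; so all `v ∈ s` are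
rays and not interior, hence `s ∉ K`, `s ≠ B`. Not `s ⊆ B` (then `s ⊂ B`, `s ∈ K`). So there is
`w ∈ s`, `w ∉ B`, not interior: `¬ InCone B (toR w)` (`bdry`), `rop B 1 D (del w) = 0` on `verts K`
(`w ∉ B`, not interior), `φ w = cls K w`. For all `v ∈ s`: `cls K w * φ v = cls K w * cls K v`, as
`cls K v - φ v = cl K (rop B 1 D (del v)) ∈ inner K B` is killed by `cls K w ∈ outer K B` (`StNd`).
So `∏ v ∈ s, φ v = mon K s` (induction over `s.erase w`, with the factor `cls K w`), and it is `0`. -/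
def StCutH : Prop := ∀ (n : ℕ) (K : Finset (Finset (Vec n))), IsFan K → ∀ B D, MI K B 1 D →
  ∃ ι : Coh (cut K B) →+* Coh K, IsCutHom K B D ι

/-- PRODUCTS WITH AN OUTER RAY. Let `s ⊆ verts K` without interior elements, and `w ∈ s`,
`w ∉ B`. Then `ι (mon (cut K B) s) = mon K s`: as in `StCutH`: `ι (cls _ w) = cls K w` and
`cls K w * ι (cls _ v) = cls K w * cls K v` for `v ∈ s`. -/
def StCutM : Prop := ∀ (n : ℕ) (K : Finset (Finset (Vec n))), IsFan K → ∀ B D, MI K B 1 D →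
  ∀ ι : Coh (cut K B) →+* Coh K, IsCutHom K B D ι → ∀ s ⊆ verts K,
  (∀ v ∈ s, ¬ InRel B (toR v)) → (∃ w ∈ s, w ∉ B) → ι (mon (cut K B) s) = mon K s

/-- THE POINT CLASS UPSTAIRS. Write `K' = cut K B`, a fan (`StCutF`), `B ∈ K'`. Take `b ∈ B`,
`Wall K (B.erase b) p q c` (`StWall`); by `MI.side` one of `p, q`, say `r`, is not interior, and
`r ∉ B` (not in `B.erase b`; `r ≠ b` since `B ∉ K`). `σ = insert r (B.erase b) ∈ K`, `σ ∈ K'`.
`StPt` for `K'`: `mon K' B = mon K' σ`, and by `StCutM` `ι (mon K' σ) = mon K σ`. So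
`ι (mon K' B) = mon K σ` with a maximal cone `σ` of `K`. -/
def StCutP : Prop := ∀ (n : ℕ) (K : Finset (Finset (Vec n))), IsFan K → 2 ≤ n → ∀ B D,
  MI K B 1 D → Uni B → ∀ ι : Coh (cut K B) →+* Coh K, IsCutHom K B D ι →
  ∃ σ ∈ K, σ.card = n ∧ ι (mon (cut K B) B) = mon K σ

/-- INJECTIVITY, general form (for `K' = cut K B` and `K' = core K B`). Let `B ∈ K'`,
`insert v B ∉ K'` for `v ∉ B`, let `D` be the dual forms on `B` (`d = 1`), `B ⊆ verts K'`. Then
every `x * mon K' B` is an integral multiple of `mon K' B`: for `v ∉ B`,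
`cls K' v * mon K' B = mon K' (insert v B) = 0`; for `v ∈ B` the relation `lin_rel` with `D v`
multiplied by `mon K' B` gives `cls K' v * mon K' B = 0`; `coh_induction`. (Compare
`PB/PullB.lean`, private lemmas `mon_mul_cls` and `mul_mon`.) If `θ : Coh K →+* Coh K' ⧸ I` with
`I = Ideal.span {mon K' B}` and `θ (ι x) = Ideal.Quotient.mk I x` for all `x`, and `ι (mon K' B)` is
not torsion, then `ι` is injective: `ι x = 0` gives `x ∈ I`, `x = y * mon K' B = c • mon K' B`, and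
`c • ι (mon K' B) = 0`, so `c = 0`. -/
def StInj : Prop := ∀ (n : ℕ) (K K' : Finset (Finset (Vec n))) (B : Finset (Vec n))
  (D : Vec n → Vec n) (ι : Coh K' →+* Coh K)
  (θ : Coh K →+* Coh K' ⧸ (Ideal.span {mon K' B} : Ideal (Coh K'))),
  (∀ v, v ∉ B → insert v B ∉ K') → B ⊆ verts K' → (∀ b ∈ B, pr (D b) b = 1) →
  (∀ b ∈ B, ∀ b' ∈ B, b' ≠ b → pr (D b) b' = 0) →
  (∀ x, θ (ι x) = Ideal.Quotient.mk (Ideal.span {mon K' B}) x) →
  (∀ N : ℤ, N • ι (mon K' B) = 0 → N = 0) → Function.Injective ι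

/-- INJECTIVITY FROM THE OUTSIDE. `K' = cut K B`, `I = Ideal.span {mon K' B}`. `θ` from `coh_lift`
with `θ (cls K v) = mk (cls K' v)` if `v` is not interior, `0` if `v` is interior. (h1) `s ∉ K`: if
`s` has an interior element `0`; otherwise it is `mk (mon K' s)`, which is `0` if `s ∉ K'`, and if
`s ∈ K'` then `s = B` (`mem_cut`) and `mk (mon K' B) = 0`. (h2) `verts K'` are the rays of `K` which
are not interior; `lin_rel` for `K'`. `θ ∘ ι = mk`: `coh_hom_ext`: for `v ∉ verts K'`, `cls K' v = 0`;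
for `v ∈ verts K'`: `ι (cls K' v) = cl K (del v - rop B 1 D (del v)) = cls K v - (combination of
classes of interior rays)`, sent to `mk (cls K' v)`. `StInj` with `StCutP` and `NT` (`StDeg`).
`insert v B ∉ K'` for `v ∉ B`: it is not `B` and not in `K` (`B ∉ K`, `IsFan.down`). -/
def StCutI : Prop := ∀ (n : ℕ) (K : Finset (Finset (Vec n))), IsFan K → 2 ≤ n → ∀ B D,
  MI K B 1 D → Uni B → ∀ ι : Coh (cut K B) →+* Coh K, IsCutHom K B D ι → Function.Injective ι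

/-- IMAGE OF THE SECOND COHOMOLOGY. `→`: `outer K B` is spanned by `cls K v`, `v ∈ verts K` with
`¬ InCone B (toR v)`; `v ∉ B` and not interior, so `rop B 1 D (del v) = 0` on `verts K` and
`ι (cls _ v) = cls K v`; the image of the submodule `H2 (cut K B)` is a submodule. `←`: `H2 (cut K B)`
is spanned by the `cls _ v`; for `v ∉ verts (cut K B)` it is `0`; for the others `v ∈ verts K` is not
interior and `ι (cls _ v) = cl K (del v - rop ..) ∈ outer K B` (`StNd`).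
(`Submodule.span_induction`.) -/
def StCut2 : Prop := ∀ (n : ℕ) (K : Finset (Finset (Vec n))), IsFan K → ∀ B D, MI K B 1 D →
  ∀ ι : Coh (cut K B) →+* Coh K, IsCutHom K B D ι →
    ∀ y, y ∈ outer K B ↔ ∃ z ∈ H2 (cut K B), ι z = y

/-- THE PULL-BACK FROM THE INSIDE. `coh_lift` (for `core K B`) with `φ v = cl K (rop B 1 D (del v))`
if `v ∈ verts K` and (`v ∈ B` or interior), `φ v = 0` otherwise. `verts (core K B)` is the set of
these `v` (`MI.sub`, `IsFan.single`). (h2): `∑ v ∈ verts (core K B), pr u v • φ v =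
∑ v ∈ verts K, pr u v • cl K (rop B 1 D (del v))` (for the other rays `rop B 1 D (del v) = 0` on
`verts K`) `= cl K (rop B 1 D (pr u)) = 0`. (h1): let `s ∉ core K B`; we may assume that all
`v ∈ s` are in `B` or interior rays; so `s ∉ K`, `s ≠ B`, and not `s ⊆ B`: there is an interior
`w ∈ s`, `φ w = cls K w` (`rop B 1 D (del w) = del w`). For `v ∈ s`: `cls K w * φ v =
cls K w * cls K v`, as `cls K v - φ v = cl K (del v - rop (del v)) ∈ outer K B` is killed by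
`cls K w ∈ inner K B` (`StNd`). So `∏ v ∈ s, φ v = mon K s = 0`. -/
def StCorH : Prop := ∀ (n : ℕ) (K : Finset (Finset (Vec n))), IsFan K → ∀ B D, MI K B 1 D →
  ∃ ι : Coh (core K B) →+* Coh K, IsCoreHom K B D ι

/-- THE POINT CLASS FROM THE INSIDE. For `b ∈ B` let `u b = cl K (rop B 1 D (del b)) ∈ inner K B`,
`w b = cl K (del b - rop B 1 D (del b)) ∈ outer K B`, `cls K b = u b + w b` (`cl_del`). By `StNd` (3)
`0 = mon K B = ∏ (u b + w b) = ∏ u b + ∏ w b` (induction over nonempty subsets of `B`: mixed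
products vanish; `B ∉ K`). `ι (mon (core K B) B) = ∏ b ∈ B, u b`, and `∏ w b = ι' (mon (cut K B) B)`
for the homomorphism `ι'` of `StCutH`, which is `mon K σ` (`StCutP`). -/
def StCorP : Prop := ∀ (n : ℕ) (K : Finset (Finset (Vec n))), IsFan K → 2 ≤ n → ∀ B D,
  MI K B 1 D → Uni B → ∀ ι : Coh (core K B) →+* Coh K, IsCoreHom K B D ι →
  ∃ σ ∈ K, σ.card = n ∧ ι (mon (core K B) B) = - mon K σ

/-- INJECTIVITY FROM THE INSIDE. `K' = core K B`, `I = Ideal.span {mon K' B}`, `θ` from `coh_lift`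
with `θ (cls K v) = mk (cls K' v)` if `v ∈ B` or `v` is interior, `0` otherwise. (h1) `s ∉ K`: if all
elements are in `B` or interior: `mk (mon K' s)`, `0` if `s ∉ K'`; if `s ∈ K'` then `s = B`.
(h2) `lin_rel` for `K'` (`verts K'` = the rays in `B` or interior). `θ ∘ ι = mk` (`coh_hom_ext`): for
interior `v`: `ι (cls K' v) = cl K (del v) = cls K v`, sent to `mk (cls K' v)`. For `b ∈ B`:
`ι (cls K' b) = cl K (rop B 1 D (del b)) = - ∑ (interior rays w) pr (D b) w • cls K w`, sent to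
`- ∑ pr (D b) w • mk (cls K' w) = mk (cls K' b)` by `lin_rel` for `K'` and `D b` (`diag`, `off`). For
`v ∉ verts K'`: `cls K' v = 0`. `StInj` with `StCorP`, `NT` (`StDeg`). -/
def StCorI : Prop := ∀ (n : ℕ) (K : Finset (Finset (Vec n))), IsFan K → 2 ≤ n → ∀ B D,
  MI K B 1 D → Uni B → ∀ ι : Coh (core K B) →+* Coh K, IsCoreHom K B D ι → Function.Injective ι

/-- IMAGE OF THE SECOND COHOMOLOGY. `→`: for interior `v`, `ι (cls _ v) = cl K (rop B 1 D (del v)) =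
cl K (del v) = cls K v`. `←`: `ι (cls _ v) ∈ inner K B` by `StNd` (1) for `v ∈ verts (core K B)`;
`cls _ v = 0` for the others. Compare `StCut2`. -/
def StCor2 : Prop := ∀ (n : ℕ) (K : Finset (Finset (Vec n))), IsFan K → ∀ B D, MI K B 1 D →
  ∀ ι : Coh (core K B) →+* Coh K, IsCoreHom K B D ι →
    ∀ y, y ∈ inner K B ↔ ∃ z ∈ H2 (core K B), ι z = y

/-- THE SIDES OF A NECK. `StGood`, `StNk` (`MI K B 1 (D B)`, `Uni B`), `StCutF`, `StCutH`, `StCutI`,
`StCut2`, `StCorH`, `StCorI`, `StCor2`. -/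
def StSides : Prop := ∀ (n : ℕ) (K : Finset (Finset (Vec n))), IsFan K → 2 ≤ n → ∀ B ∈ necks K,
  IsFan (cut K B) ∧
  (∃ ι : Coh (cut K B) →+* Coh K, Function.Injective ι ∧
    ∀ y, y ∈ outer K B ↔ ∃ z ∈ H2 (cut K B), ι z = y) ∧
  ∃ ι : Coh (core K B) →+* Coh K, Function.Injective ι ∧
    ∀ y, y ∈ inner K B ↔ ∃ z ∈ H2 (core K B), ι z = y

end ToricPB
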